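import Pool.Agent.Shared.NullIn

/-!
Abstract topological shooting argument.
-/

set_option linter.unusedSectionVars false

open Set Metric
open Pool.Agent.Shared.Brouwer

namespace Pool.Agent.Lib.MP_2d5ab3_gt

section Rel

variable {X V V' : Type} [TopologicalSpace X] [NormedAddCommGroup V] [NormedSpace ℝ V]
  [NormedAddCommGroup V'] [NormedSpace ℝ V']

/-- Null-homotopy of `(g, o)` implies null-homotopy of `(f, o)`. -/
def Tr (V' : Type) [NormedAddCommGroup V'] (s s₁ : Set X) (f g : X → V) : Prop :=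
  ∀ o : X → V', ContinuousOn o s → (∀ x ∈ s, x ∉ s₁ → o x ≠ 0) →
    NullIn (fun x => (g x, o x)) s {0}ᶜ → NullIn (fun x => (f x, o x)) s {0}ᶜ

theorem Tr.refl (s s₁ : Set X) (f : X → V) : Tr V' s s₁ f f := fun _ _ _ h => h

theorem Tr.trans {s s₁ : Set X} {f g h : X → V} (h1 : Tr V' s s₁ f g) (h2 : Tr V' s s₁ g h) :
    Tr V' s s₁ f h := fun o ho ho' hn => h1 o ho ho' (h2 o ho ho' hn)

theorem Tr.step {s s₁ : Set X} {f g : X → V} (A : V ≃L[ℝ] V) (hf : ContinuousOn f s)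
    (hg : ContinuousOn g s)
    (h : ∀ x ∈ s, x ∈ s₁ → ∀ τ : ℝ, 0 ≤ τ → τ ≤ 1 → (1 - τ) • A (f x) + τ • g x ≠ 0) :
    Tr V' s s₁ f g := by
  intro o ho ho' hn
  have h1 : NullIn (fun x => (A (f x), o x)) s {0}ᶜ := by
    refine hn.of_segment ((A.continuous.comp_continuousOn hf).prodMk ho) (hg.prodMk ho) ?_
    intro x hx τ h0 h1 hz
    rw [mem_singleton_iff, Prod.ext_iff] at hz
    by_cases hs : x ∈ s₁
    · exact h x hx hs τ h0 h1 hz.1
    · apply ho' x hx hs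
      have := hz.2
      simp only [Prod.snd_add, Prod.smul_snd, Prod.snd_zero, ← add_smul] at this
      simpa using this
  have h2 := h1.comp_left (g := fun p : V × V' => (A.symm p.1, p.2)) (u := {0}ᶜ) (by fun_prop) (by
    intro p hp hz
    apply hp
    rw [mem_singleton_iff, Prod.ext_iff] at hz ⊢
    exact ⟨by simpa using hz.1, hz.2⟩)
  simpa using h2

end Rel

/-- A block: a base set, a deviation function and a rescaling of the deviation. -/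
structure Block (Γ V : Type) [TopologicalSpace Γ] [NormedAddCommGroup V] [NormedSpace ℝ V] where
  Base : Set Γ
  x : Γ → V
  scale : ℝ → Γ → Γ
  ε : ℝ
  ε_pos : 0 < ε
  x_cont : ContinuousOn x Base
  scale_cont : ContinuousOn (fun p : ℝ × Γ => scale p.1 p.2) (univ ×ˢ Base)
  scale_mem : ∀ ρ, ∀ γ ∈ Base, scale ρ γ ∈ Base
  x_scale : ∀ ρ, ∀ γ ∈ Base, x (scale ρ γ) = ρ • x γ
  scale_one : ∀ γ ∈ Base, scale 1 γ = γ

namespace Block

variable {Γ V : Type} [TopologicalSpace Γ] [NormedAddCommGroup V] [NormedSpace ℝ V]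
  (B : Block Γ V)

def N : Set Γ := {γ | γ ∈ B.Base ∧ ‖B.x γ‖ ≤ B.ε}

noncomputable def fac (γ : Γ) : ℝ := B.ε / max B.ε ‖B.x γ‖

noncomputable def ret (γ : Γ) : Γ := B.scale (B.fac γ) γ

theorem fac_pos (γ : Γ) : 0 < B.fac γ := div_pos B.ε_pos (lt_max_of_lt_left B.ε_pos)

theorem x_ret {γ : Γ} (h : γ ∈ B.Base) : B.x (B.ret γ) = B.fac γ • B.x γ := B.x_scale _ _ h

theorem norm_x_ret {γ : Γ} (h : γ ∈ B.Base) : ‖B.x (B.ret γ)‖ = min B.ε ‖B.x γ‖ := by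
  rw [B.x_ret h, norm_smul, Real.norm_of_nonneg (B.fac_pos γ).le, fac]
  have := B.ε_pos
  rcases le_total B.ε ‖B.x γ‖ with h1 | h1
  · rw [max_eq_right h1, min_eq_left h1, div_mul_cancel₀]
    linarith
  · rw [max_eq_left h1, min_eq_right h1, div_self this.ne', one_mul]

theorem ret_mem {γ : Γ} (h : γ ∈ B.Base) : B.ret γ ∈ B.N :=
  ⟨B.scale_mem _ _ h, by rw [B.norm_x_ret h]; exact min_le_left _ _⟩

theorem ret_eq {γ : Γ} (h : γ ∈ B.Base) (h1 : ‖B.x γ‖ ≤ B.ε) : B.ret γ = γ := by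
  rw [ret, fac, max_eq_left h1, div_self B.ε_pos.ne', B.scale_one γ h]

theorem ret_cont : ContinuousOn B.ret B.Base := by
  have h1 : ContinuousOn B.fac B.Base :=
    continuousOn_const.div (ContinuousOn.sup continuousOn_const B.x_cont.norm)
      (fun γ _ => (lt_max_of_lt_left B.ε_pos).ne')
  exact B.scale_cont.comp (h1.prodMk continuousOn_id) (fun γ hγ => ⟨trivial, hγ⟩)

/-- The map `f` stretches the block across itself. -/
structure Cover (f : Γ → Γ) : Prop where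
  cont : ContinuousOn f B.N
  maps : ∀ γ ∈ B.N, f γ ∈ B.Base
  exp : ∃ A : V ≃L[ℝ] V, ∀ γ ∈ B.N, ‖B.x γ‖ = B.ε → B.ε < ‖B.x (f γ)‖ ∧
    ∀ c c' : ℝ, 0 ≤ c → 0 ≤ c' → 0 < c + c' → c • A (B.x γ) + c' • B.x (f γ) ≠ 0

variable {X : Type} [TopologicalSpace X]

/-- The retracted orbit. -/
noncomputable def orb (f : Γ → Γ) (g : X → Γ) : ℕ → X → Γ
  | 0 => fun d => B.ret (g d)
  | i + 1 => fun d => B.ret (f (orb f g i d))

variable {B}

theorem orb_mem {f : Γ → Γ} (hf : B.Cover f) {g : X → Γ} {D : Set X}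
    (hg : ∀ d ∈ D, g d ∈ B.Base) : ∀ i, ∀ d ∈ D, B.orb f g i d ∈ B.N
  | 0, d, hd => B.ret_mem (hg d hd)
  | i + 1, d, hd => B.ret_mem (hf.maps _ (orb_mem hf hg i d hd))

theorem orb_cont {f : Γ → Γ} (hf : B.Cover f) {g : X → Γ} {D : Set X}
    (hg : ∀ d ∈ D, g d ∈ B.Base) (hc : ContinuousOn g D) : ∀ i, ContinuousOn (B.orb f g i) D
  | 0 => B.ret_cont.comp hc hg
  | i + 1 => B.ret_cont.comp (hf.cont.comp (orb_cont hf hg hc i) (orb_mem hf hg i))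
      (fun d hd => hf.maps _ (orb_mem hf hg i d hd))

theorem orb_stick {f : Γ → Γ} (hf : B.Cover f) {g : X → Γ} {D : Set X}
    (hg : ∀ d ∈ D, g d ∈ B.Base) {d : X} (hd : d ∈ D) {i : ℕ}
    (h : ‖B.x (B.orb f g i d)‖ = B.ε) : ∀ k, i ≤ k → ‖B.x (B.orb f g k d)‖ = B.ε := by
  intro k hk
  induction k, hk using Nat.le_induction with
  | base => exact h
  | succ k _ ih =>
    obtain ⟨A, hA⟩ := hf.exp
    have hm := orb_mem hf hg k d hd
    rw [orb, B.norm_x_ret (hf.maps _ hm), min_eq_left (hA _ hm ih).1.le]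

/-- The set of parameters whose orbit needs no retraction up to step `k`. -/
def Surv (B : Block Γ V) (f : Γ → Γ) (g : X → Γ) (k : ℕ) : Set X :=
  {d | ‖B.x (g d)‖ ≤ B.ε ∧ ∀ i < k, ‖B.x (f (B.orb f g i d))‖ ≤ B.ε}

theorem surv_of_zero {f : Γ → Γ} (hf : B.Cover f) {g : X → Γ} {D : Set X}
    (hg : ∀ d ∈ D, g d ∈ B.Base) {d : X} (hd : d ∈ D) {k : ℕ}
    (h : B.x (B.orb f g k d) = 0) : d ∈ B.Surv f g k := by
  have key : ∀ i, i ≤ k → ‖B.x (B.orb f g i d)‖ ≠ B.ε := by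
    intro i hi he
    have := orb_stick hf hg hd he k hi
    rw [h, norm_zero] at this
    exact B.ε_pos.ne this
  constructor
  · by_contra hc
    apply key 0 (Nat.zero_le k)
    rw [orb, B.norm_x_ret (hg d hd), min_eq_left (not_le.mp hc).le]
  · intro i hi
    by_contra hc
    apply key (i + 1) hi
    rw [orb, B.norm_x_ret (hf.maps _ (orb_mem hf hg i d hd)), min_eq_left (not_le.mp hc).le]

theorem surv_closed {f : Γ → Γ} (hf : B.Cover f) {g : X → Γ} {D : Set X} (hD : IsClosed D)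
    (hg : ∀ d ∈ D, g d ∈ B.Base) (hc : ContinuousOn g D) (k : ℕ) :
    IsClosed (D ∩ B.Surv f g k) := by
  have e : D ∩ B.Surv f g k = (D ∩ (fun d => ‖B.x (g d)‖) ⁻¹' Iic B.ε) ∩
      ⋂ i ∈ Finset.range k, (D ∩ (fun d => ‖B.x (f (B.orb f g i d))‖) ⁻¹' Iic B.ε) := by
    ext d
    simp only [Surv, mem_inter_iff, mem_ofPred_eq, mem_preimage, mem_Iic, mem_iInter,
      Finset.mem_range]
    exact ⟨fun h => ⟨⟨h.1, h.2.1⟩, fun i hi => ⟨h.1, h.2.2 i hi⟩⟩,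
      fun h => ⟨h.1.1, h.1.2, fun i hi => (h.2 i hi).2⟩⟩
  rw [e]
  refine IsClosed.inter (((B.x_cont.comp hc hg).norm).preimage_isClosed_of_isClosed hD isClosed_Iic)
    (isClosed_biInter fun i _ => ?_)
  refine ContinuousOn.preimage_isClosed_of_isClosed ?_ hD isClosed_Iic
  exact (B.x_cont.comp (hf.cont.comp (orb_cont hf hg hc i) (orb_mem hf hg i))
    (fun d hd => hf.maps _ (orb_mem hf hg i d hd))).norm

theorem orb_tr {V' : Type} [NormedAddCommGroup V'] [NormedSpace ℝ V'] {f : Γ → Γ} (hf : B.Cover f)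
    {g : X → Γ} {s s₁ : Set X} (hg : ∀ d ∈ s, g d ∈ B.Base) (hc : ContinuousOn g s)
    (p : X → V) (hp : ContinuousOn p s)
    (h0 : ∀ d ∈ s, d ∈ s₁ → B.ε ≤ ‖B.x (g d)‖ ∧
      ∀ c c' : ℝ, 0 ≤ c → 0 ≤ c' → 0 < c + c' → c • p d + c' • B.x (g d) ≠ 0) :
    ∀ i, Tr V' s s₁ p (fun d => B.x (B.orb f g i d)) := by
  have hb : ∀ d ∈ s, d ∈ s₁ → ∀ i, ‖B.x (B.orb f g i d)‖ = B.ε := by
    intro d hd hd1 i
    refine orb_stick hf hg hd (i := 0) ?_ i (Nat.zero_le i)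
    rw [orb, B.norm_x_ret (hg d hd), min_eq_left (h0 d hd hd1).1]
  have hcont : ∀ i, ContinuousOn (fun d => B.x (B.orb f g i d)) s := fun i =>
    B.x_cont.comp (orb_cont hf hg hc i) (fun d hd => (orb_mem hf hg i d hd).1)
  intro i
  induction i with
  | zero =>
    refine Tr.step (ContinuousLinearEquiv.refl ℝ V) hp (hcont 0) fun d hd hd1 τ h1 h2 => ?_
    rw [orb, B.x_ret (hg d hd), smul_smul]
    have := B.fac_pos (g d)
    refine (h0 d hd hd1).2 _ _ (by linarith) (by positivity) ?_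
    rcases h1.lt_or_eq with h | h
    · have := mul_pos h this; linarith
    · subst h; simp
  | succ i ih =>
    obtain ⟨A, hA⟩ := hf.exp
    refine ih.trans (Tr.step A (hcont i) (hcont (i + 1)) fun d hd hd1 τ h1 h2 => ?_)
    have hm := orb_mem hf hg i d hd
    rw [orb, B.x_ret (hf.maps _ hm), smul_smul]
    have := B.fac_pos (f (B.orb f g i d))
    refine (hA _ hm (hb d hd hd1 i)).2 _ _ (by linarith) (by positivity) ?_
    rcases h1.lt_or_eq with h | h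
    · have := mul_pos h this; linarith
    · subst h; simp

theorem orb_ne {f : Γ → Γ} (hf : B.Cover f) {g : X → Γ} {s : Set X} (hg : ∀ d ∈ s, g d ∈ B.Base)
    {d : X} (hd : d ∈ s) (h : B.ε ≤ ‖B.x (g d)‖) (i : ℕ) : B.x (B.orb f g i d) ≠ 0 := by
  intro hz
  have := orb_stick hf hg hd (i := 0)
    (by rw [orb, B.norm_x_ret (hg d hd), min_eq_left h]) i (Nat.zero_le i)
  rw [hz, norm_zero] at this
  exact B.ε_pos.ne this

theorem orb_eq_iterate {f : Γ → Γ} (hf : B.Cover f) {g : X → Γ} {D : Set X}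
    (hg : ∀ d ∈ D, g d ∈ B.Base) {d : X} (hd : d ∈ D) (h : ∀ k, d ∈ B.Surv f g k) :
    ∀ i, B.orb f g i d = f^[i] (g d)
  | 0 => B.ret_eq (hg d hd) (h 0).1
  | i + 1 => by
      change B.ret (f (B.orb f g i d)) = _
      rw [B.ret_eq (hf.maps _ (orb_mem hf hg i d hd)) ((h (i + 1)).2 i (Nat.lt_succ_self i)),
        orb_eq_iterate hf hg hd h i, Function.iterate_succ_apply']

end Block

theorem shoot {Γ V₁ V₂ : Type} [TopologicalSpace Γ] [NormedAddCommGroup V₁] [NormedSpace ℝ V₁]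
    [FiniteDimensional ℝ V₁] [NormedAddCommGroup V₂] [NormedSpace ℝ V₂] [FiniteDimensional ℝ V₂]
    (B₁ : Block Γ V₁) (B₂ : Block Γ V₂) (f₁ f₂ : Γ → Γ) (hf₁ : B₁.Cover f₁) (hf₂ : B₂.Cover f₂)
    (g₁ g₂ : V₁ × V₂ → Γ)
    (hg₁ : ∀ d ∈ closedBall (0 : V₁ × V₂) 1, g₁ d ∈ B₁.Base)
    (hg₂ : ∀ d ∈ closedBall (0 : V₁ × V₂) 1, g₂ d ∈ B₂.Base)
    (hc₁ : ContinuousOn g₁ (closedBall 0 1)) (hc₂ : ContinuousOn g₂ (closedBall 0 1))
    (h₁ : ∀ d ∈ closedBall (0 : V₁ × V₂) 1, ‖d.1‖ = 1 → B₁.ε ≤ ‖B₁.x (g₁ d)‖ ∧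
      ∀ c c' : ℝ, 0 ≤ c → 0 ≤ c' → 0 < c + c' → c • d.1 + c' • B₁.x (g₁ d) ≠ 0)
    (h₂ : ∀ d ∈ closedBall (0 : V₁ × V₂) 1, ‖d.2‖ = 1 → B₂.ε ≤ ‖B₂.x (g₂ d)‖ ∧
      ∀ c c' : ℝ, 0 ≤ c → 0 ≤ c' → 0 < c + c' → c • d.2 + c' • B₂.x (g₂ d) ≠ 0) :
    ∃ d ∈ closedBall (0 : V₁ × V₂) 1,
      (∀ i, f₁^[i] (g₁ d) ∈ B₁.N) ∧ (∀ i, f₂^[i] (g₂ d) ∈ B₂.N) := by
  set D := closedBall (0 : V₁ × V₂) 1 with hD
  let s : Set (V₁ × V₂) := {d | ‖d‖ = 1}
  have hsD : s ⊆ D := fun d hd => mem_closedBall_zero_iff.mpr (le_of_eq hd)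
  have hsplit : ∀ d ∈ s, ‖d.1‖ = 1 ∨ ‖d.2‖ = 1 := by
    intro d hd
    have : max ‖d.1‖ ‖d.2‖ = 1 := hd
    rcases max_choice ‖d.1‖ ‖d.2‖ with h | h
    · exact Or.inl (h.symm.trans this)
    · exact Or.inr (h.symm.trans this)
  have zero : ∀ k, ∃ d ∈ D, B₁.x (B₁.orb f₁ g₁ k d) = 0 ∧ B₂.x (B₂.orb f₂ g₂ k d) = 0 := by
    intro k
    by_contra hno
    let Ψ₁ : V₁ × V₂ → V₁ := fun d => B₁.x (B₁.orb f₁ g₁ k d)
    let Ψ₂ : V₁ × V₂ → V₂ := fun d => B₂.x (B₂.orb f₂ g₂ k d)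
    have c1 : ContinuousOn Ψ₁ D := B₁.x_cont.comp (Block.orb_cont hf₁ hg₁ hc₁ k)
      (fun d hd => (Block.orb_mem hf₁ hg₁ k d hd).1)
    have c2 : ContinuousOn Ψ₂ D := B₂.x_cont.comp (Block.orb_cont hf₂ hg₂ hc₂ k)
      (fun d hd => (Block.orb_mem hf₂ hg₂ k d hd).1)
    have n0 : NullIn (fun d : V₁ × V₂ => d) s D :=
      nullIn_of_star (y := 0) (mem_closedBall_self zero_le_one) continuousOn_id (by
        intro d hd τ h0 h1
        have hd' : ‖d‖ = 1 := hd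
        rw [smul_zero, add_zero, hD, mem_closedBall_zero_iff, norm_smul, hd',
          Real.norm_of_nonneg (by linarith)]
        linarith)
    have n1 : NullIn (fun d => (Ψ₁ d, Ψ₂ d)) s {0}ᶜ :=
      n0.comp_left (g := fun d => (Ψ₁ d, Ψ₂ d)) (c1.prodMk c2) (fun d hd hz => by
        rw [mem_singleton_iff, Prod.ext_iff] at hz
        exact hno ⟨d, hd, hz.1, hz.2⟩)
    have t1 := Block.orb_tr (V' := V₂) hf₁ (s := s) (s₁ := {d | ‖d.1‖ = 1})
      (fun d hd => hg₁ d (hsD hd)) (hc₁.mono hsD) Prod.fst continuousOn_fst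
      (fun d hd hd1 => h₁ d (hsD hd) hd1) k
    have n2 : NullIn (fun d => (d.1, Ψ₂ d)) s {0}ᶜ :=
      t1 Ψ₂ (c2.mono hsD) (fun d hd hd1 => Block.orb_ne hf₂ hg₂ (hsD hd)
        (h₂ d (hsD hd) ((hsplit d hd).resolve_left hd1)).1 k) n1
    have n3 : NullIn (fun d => (Ψ₂ d, d.1)) s {0}ᶜ :=
      n2.comp_left (g := Prod.swap) continuous_swap.continuousOn (fun p hp hz => hp (by
        rw [mem_singleton_iff, Prod.ext_iff] at hz ⊢
        exact ⟨hz.2, hz.1⟩))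
    have t2 := Block.orb_tr (V' := V₁) hf₂ (s := s) (s₁ := {d | ‖d.2‖ = 1})
      (fun d hd => hg₂ d (hsD hd)) (hc₂.mono hsD) Prod.snd continuousOn_snd
      (fun d hd hd1 => h₂ d (hsD hd) hd1) k
    have n4 : NullIn (fun d : V₁ × V₂ => (d.2, d.1)) s {0}ᶜ :=
      t2 Prod.fst continuousOn_fst (fun d hd hd1 hz => by
        have := (hsplit d hd).resolve_right hd1
        rw [hz, norm_zero] at this
        exact zero_ne_one this) n3
    have n5 : NullIn (fun d : V₁ × V₂ => d) s {0}ᶜ :=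
      n4.comp_left (g := Prod.swap) continuous_swap.continuousOn (fun p hp hz => hp (by
        rw [mem_singleton_iff, Prod.ext_iff] at hz ⊢
        exact ⟨hz.2, hz.1⟩))
    exact not_nullIn_level (fun d : V₁ × V₂ => ‖d‖) continuous_norm
      (fun d hd => norm_pos_iff.mpr hd)
      (fun t d ht => by rw [norm_smul, Real.norm_of_nonneg ht.le]) n5
  let Z : ℕ → Set (V₁ × V₂) := fun k => (D ∩ B₁.Surv f₁ g₁ k) ∩ (D ∩ B₂.Surv f₂ g₂ k)
  have hZc : ∀ k, IsClosed (Z k) := fun k =>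
    (Block.surv_closed hf₁ isClosed_closedBall hg₁ hc₁ k).inter
      (Block.surv_closed hf₂ isClosed_closedBall hg₂ hc₂ k)
  obtain ⟨d, hd⟩ := IsCompact.nonempty_iInter_of_sequence_nonempty_isCompact_isClosed Z
    (fun k d hd => ⟨⟨hd.1.1, hd.1.2.1, fun i hi => hd.1.2.2 i (by omega)⟩,
      hd.2.1, hd.2.2.1, fun i hi => hd.2.2.2 i (by omega)⟩)
    (fun k => by
      obtain ⟨d, hd, h1, h2⟩ := zero k
      exact ⟨d, ⟨hd, Block.surv_of_zero hf₁ hg₁ hd h1⟩, hd, Block.surv_of_zero hf₂ hg₂ hd h2⟩)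
    ((isCompact_closedBall (0 : V₁ × V₂) 1).of_isClosed_subset (hZc 0) (fun d hd => hd.1.1)) hZc
  rw [mem_iInter] at hd
  have hdD : d ∈ D := (hd 0).1.1
  refine ⟨d, hdD, fun i => ?_, fun i => ?_⟩
  · rw [← Block.orb_eq_iterate hf₁ hg₁ hdD (fun k => (hd k).1.2) i]
    exact Block.orb_mem hf₁ hg₁ i d hdD
  · rw [← Block.orb_eq_iterate hf₂ hg₂ hdD (fun k => (hd k).2.2) i]
    exact Block.orb_mem hf₂ hg₂ i d hdD

end Pool.Agent.Lib.MP_2d5ab3_gt
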