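import Pool.Agent.Lib.MP_2d5ab3_gt.Maps
import Pool.Agent.Lib.MP_2d5ab3_gt.Top

/-!
The two blocks and the covering estimates.
-/

open scoped ContDiff Topology
open Set Filter Metric Complex

namespace Pool.Agent.Lib.MP_2d5ab3_gt

section Exp

variable {V V' : Type} [NormedAddCommGroup V] [NormedSpace ℝ V] [NormedAddCommGroup V']
  [NormedSpace ℝ V']

/-- `u'` points along `u` with rate at least `k`. -/
def Exp (k : ℝ) (u u' : V) : Prop :=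
  ∀ c c' : ℝ, 0 ≤ c → 0 ≤ c' → (c + k * c') * ‖u‖ ≤ ‖c • u + c' • u'‖

theorem Exp.of_eq {k k' : ℝ} {u u' : V} (h0 : 0 ≤ k) (hk : k ≤ k') (h : u' = k' • u) :
    Exp k u u' := fun c c' hc hc' => by
  rw [h, smul_smul, ← add_smul, norm_smul, Real.norm_of_nonneg (by nlinarith)]
  exact mul_le_mul_of_nonneg_right (by nlinarith) (norm_nonneg _)

theorem Exp.prod {k : ℝ} {u : V × V'} {u' : V × V'} (h1 : Exp k u.1 u'.1) (h2 : Exp k u.2 u'.2) :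
    Exp k u u' := fun c c' hc hc' => by
  have a1 := (h1 c c' hc hc').trans (norm_fst_le (c • u + c' • u'))
  have a2 := (h2 c c' hc hc').trans (norm_snd_le (c • u + c' • u'))
  rw [Prod.norm_def]
  rcases max_choice ‖u.1‖ ‖u.2‖ with h | h <;> rw [h] <;> assumption

theorem Exp.near {k η : ℝ} {u u' u'' : V} (h : Exp k u u') (hd : dist u'' u' ≤ η) (hu : u ≠ 0)
    (hη : η < k * ‖u‖) : k * ‖u‖ - η ≤ ‖u''‖ ∧
      ∀ c c' : ℝ, 0 ≤ c → 0 ≤ c' → 0 < c + c' → c • u + c' • u'' ≠ 0 := by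
  have key : ∀ c c' : ℝ, 0 ≤ c → 0 ≤ c' →
      (c + k * c') * ‖u‖ - c' * η ≤ ‖c • u + c' • u''‖ := fun c c' hc hc' => by
    have h1 := h c c' hc hc'
    have h2 : c • u + c' • u' = (c • u + c' • u'') - c' • (u'' - u') := by module
    have h3 := norm_sub_le (c • u + c' • u'') (c' • (u'' - u'))
    rw [← h2, norm_smul, Real.norm_of_nonneg hc', ← dist_eq_norm] at h3
    nlinarith
  refine ⟨by simpa using key 0 1 le_rfl zero_le_one, fun c c' hc hc' hp h0 => ?_⟩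
  have h1 := key c c' hc hc'
  rw [h0, norm_zero] at h1
  have h2 := norm_pos_iff.mpr hu
  rcases hc'.lt_or_eq with h3 | h3
  · nlinarith [mul_pos h3 (sub_pos.mpr hη), mul_nonneg hc h2.le]
  · subst h3
    nlinarith [mul_pos (by linarith : 0 < c) h2]

theorem near_block (B : Block Gam V) {K Int : Set Gam} (hK : IsCompact K) (hI : IsOpen Int)
    (hIB : Int ⊆ B.Base) (hKI : K ⊆ Int) {η : ℝ} (hη : 0 < η) :
    ∃ δ > 0, ∀ γ ∈ K, ∀ y, dist y γ ≤ δ → y ∈ B.Base ∧ dist (B.x y) (B.x γ) ≤ η := by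
  obtain ⟨δ₁, h1, k1⟩ := open_near hK hI hKI
  obtain ⟨δ₂, h2, k2⟩ := unif_near hK B.x
    (fun γ hγ => B.x_cont.continuousAt (mem_of_superset (hI.mem_nhds (hKI hγ)) hIB)) hη
  exact ⟨min δ₁ δ₂, lt_min h1 h2, fun γ hγ y hy => ⟨hIB (k1 γ hγ y (hy.trans (min_le_left _ _))),
    k2 γ hγ y (hy.trans (min_le_right _ _))⟩⟩

theorem cover_near (B : Block Gam V) (hN : IsCompact B.N) {f : Gam → Gam}
    (hf : ContinuousOn f B.N) {Int : Set Gam} (hI : IsOpen Int) (hIB : Int ⊆ B.Base)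
    (hfI : ∀ γ ∈ B.N, f γ ∈ Int) (A : V ≃L[ℝ] V) (hA : ∀ u, ‖A u‖ = ‖u‖)
    (hE : ∀ γ ∈ B.N, Exp (3 / 2) (A (B.x γ)) (B.x (f γ))) :
    ∃ δ > 0, ∀ ψ, ContinuousOn ψ B.N → (∀ γ ∈ B.N, dist (ψ γ) (f γ) ≤ δ) → B.Cover ψ := by
  have hε := B.ε_pos
  obtain ⟨δ, hδ, k⟩ := near_block B (hN.image_of_continuousOn hf) hI hIB
    (by rintro _ ⟨γ, hγ, rfl⟩; exact hfI γ hγ) (by linarith : 0 < B.ε / 4)
  refine ⟨δ, hδ, fun ψ hψ hd => ⟨hψ, fun γ hγ => (k _ ⟨γ, hγ, rfl⟩ _ (hd γ hγ)).1, A,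
    fun γ hγ he => ?_⟩⟩
  have h1 := (hE γ hγ).near (k _ ⟨γ, hγ, rfl⟩ _ (hd γ hγ)).2
    (by rw [← norm_pos_iff, hA, he]; exact hε) (by rw [hA, he]; linarith)
  rw [hA, he] at h1
  exact ⟨by linarith [h1.1], h1.2⟩

theorem isCompact_N (B : Block Gam V) (hB : IsClosed B.Base) {M : ℝ} (hM : ∀ γ ∈ B.N, ‖γ‖ ≤ M) :
    IsCompact B.N :=
  isCompact_of_isClosed_isBounded (B.x_cont.norm.preimage_isClosed_of_isClosed hB isClosed_Iic)
    (isBounded_iff_forall_norm_le.mpr ⟨M, hM⟩)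

end Exp

theorem norm_le_of {γ : Gam} {M : ℝ} (h1 : |γ.1| ≤ M) (h2 : ‖γ.2.1.1‖ ≤ M) (h3 : ‖γ.2.1.2.1‖ ≤ M)
    (h4 : |γ.2.1.2.2| ≤ M) (h5 : ‖γ.2.2.1‖ ≤ M) (h6 : ‖γ.2.2.2.1‖ ≤ M) (h7 : |γ.2.2.2.2| ≤ M) :
    ‖γ‖ ≤ M := by
  simp only [norm_prod_le_iff, Real.norm_eq_abs]
  exact ⟨h1, ⟨h2, h3, h4⟩, h5, h6, h7⟩

theorem norm_ez (z : ℂ) : ‖ez z‖ = ‖z‖⁻¹ := by
  rw [ez, norm_smul, norm_mul, norm_I, one_mul, ← Complex.sq_norm,
    Real.norm_of_nonneg (by positivity)]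
  rcases eq_or_ne ‖z‖ 0 with h | h
  · simp [h]
  · field_simp

theorem norm_ez_le {z : ℂ} (h : 7 / 10 ≤ ‖z‖) : ‖ez z‖ ≤ 3 / 2 := by
  rw [norm_ez, inv_le_comm₀ (by linarith) (by norm_num)]
  linarith

theorem continuousAt_ez {z : ℂ} (h : 7 / 10 ≤ ‖z‖) : ContinuousAt ez z :=
  (cd_ez (f := fun z : ℂ => z) contDiffAt_id (by rw [← Complex.sq_norm]; positivity)).continuousAt

def BaseP : Set Gam := {γ | |γ.1| ≤ 1 / 5 ∧ 7 / 10 ≤ ‖γ.2.1.1‖ ∧ ‖γ.2.1.1‖ ≤ 11 / 10 ∧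
  ‖γ.2.1.2.1‖ ≤ 6 / 5 ∧ 2 / 5 ≤ γ.2.1.2.2 ∧ γ.2.1.2.2 ≤ 11 / 10}

def IntP : Set Gam := {γ | |γ.1| < 1 / 5 ∧ 7 / 10 < ‖γ.2.1.1‖ ∧ ‖γ.2.1.1‖ < 11 / 10 ∧
  ‖γ.2.1.2.1‖ < 6 / 5 ∧ 2 / 5 < γ.2.1.2.2 ∧ γ.2.1.2.2 < 11 / 10}

theorem isOpen_IntP : IsOpen IntP := by
  simp only [IntP, ofPred_and]
  refine IsOpen.inter ?_ (IsOpen.inter ?_ (IsOpen.inter ?_ (IsOpen.inter ?_ (IsOpen.inter ?_ ?_))))
  all_goals exact isOpen_lt (by fun_prop) (by fun_prop)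

theorem isClosed_BaseP : IsClosed BaseP := by
  simp only [BaseP, ofPred_and]
  refine IsClosed.inter ?_ (IsClosed.inter ?_ (IsClosed.inter ?_ (IsClosed.inter ?_
    (IsClosed.inter ?_ ?_))))
  all_goals exact isClosed_le (by fun_prop) (by fun_prop)

theorem IntP_sub : IntP ⊆ BaseP := fun _ h =>
  ⟨h.1.le, h.2.1.le, h.2.2.1.le, h.2.2.2.1.le, h.2.2.2.2.1.le, h.2.2.2.2.2.le⟩

theorem continuousOn_ez : ContinuousOn (fun γ : Gam => ez γ.2.1.1) BaseP := fun γ hγ =>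
  (ContinuousAt.comp (f := fun γ : Gam => γ.2.1.1) (continuousAt_ez hγ.2.1)
    (by fun_prop)).continuousWithinAt

/-- The block at time `3π/2` for the forward flow. -/
noncomputable def BP : Block Gam W3 where
  Base := BaseP
  x γ := (γ.2.2.1 - ez γ.2.1.1, γ.2.2.2)
  scale ρ γ := (γ.1, γ.2.1, ez γ.2.1.1 + ρ • (γ.2.2.1 - ez γ.2.1.1), ρ • γ.2.2.2)
  ε := 1 / 100
  ε_pos := by norm_num
  x_cont := (ContinuousOn.sub (by fun_prop) continuousOn_ez).prodMk (by fun_prop)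
  scale_cont := by
    have h : ContinuousOn (fun p : ℝ × Gam => ez p.2.2.1.1) (univ ×ˢ BaseP) :=
      continuousOn_ez.comp continuousOn_snd fun p hp => hp.2
    exact ContinuousOn.prodMk (by fun_prop) (ContinuousOn.prodMk (by fun_prop)
      ((h.add (continuousOn_fst.smul (ContinuousOn.sub (by fun_prop) h))).prodMk (by fun_prop)))
  scale_mem _ _ h := h
  x_scale ρ γ _ := by simp
  scale_one γ _ := by simp

theorem mem_NP {γ : Gam} (h : γ ∈ BP.N) : γ ∈ BaseP ∧ ‖γ.2.2.1 - ez γ.2.1.1‖ ≤ 1 / 100 ∧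
    ‖γ.2.2.2.1‖ ≤ 1 / 100 ∧ |γ.2.2.2.2| ≤ 1 / 100 :=
  ⟨h.1, (norm_fst_le (BP.x γ)).trans h.2,
    ((norm_fst_le γ.2.2.2).trans (norm_snd_le (BP.x γ))).trans h.2,
    ((norm_snd_le γ.2.2.2).trans (norm_snd_le (BP.x γ))).trans h.2⟩

theorem isCompact_NP : IsCompact BP.N := by
  refine isCompact_N BP isClosed_BaseP (M := 2) fun γ hγ => ?_
  obtain ⟨⟨a1, a2, a3, a4, a5, a6⟩, b1, b2, b3⟩ := mem_NP hγ
  have h1 := norm_ez_le a2
  have h2 := norm_add_le (γ.2.2.1 - ez γ.2.1.1) (ez γ.2.1.1)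
  rw [sub_add_cancel] at h2
  exact norm_le_of (by linarith) (by linarith) (by linarith) (abs_le.mpr ⟨by linarith, by linarith⟩)
    (by linarith) (by linarith) (by linarith)

theorem abs_arctan_sub (a b : ℝ) : |Real.arctan a - Real.arctan b| ≤ |a - b| := by
  have h : LipschitzWith 1 Real.arctan := lipschitzWith_of_nnnorm_deriv_le
    Real.differentiable_arctan fun x => by
      rw [← NNReal.coe_le_coe, coe_nnnorm, Real.deriv_arctan, Real.norm_of_nonneg (by positivity),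
        NNReal.coe_one, div_le_one (by positivity)]
      linarith [sq_nonneg x]
  simpa [Real.dist_eq] using h.dist_le_mul a b

theorem ang_est {θ x y : ℝ} (hθ : |θ| ≤ 1 / 5) (h : x ^ 2 + y ^ 2 ≤ (6 / 5) ^ 2) :
    1 / 2 < x / 10 + 9 / 10 * Real.cos (2 * θ) ∧ |2 * θ - Real.arctan
      ((y / 10 + 9 / 10 * Real.sin (2 * θ)) / (x / 10 + 9 / 10 * Real.cos (2 * θ)))| < 1 / 5 := by
  obtain ⟨h1, h2⟩ := abs_le.mp hθ
  have hc : 23 / 25 ≤ Real.cos (2 * θ) := by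
    nlinarith [Real.one_sub_sq_div_two_le_cos (x := 2 * θ)]
  have hx : -(6 / 5) ≤ x := by nlinarith [sq_nonneg y]
  have hX : 7 / 10 ≤ x / 10 + 9 / 10 * Real.cos (2 * θ) := by linarith
  refine ⟨by linarith, ?_⟩
  have hp := Real.pi_gt_three
  have e : Real.arctan (Real.sin (2 * θ) / Real.cos (2 * θ)) = 2 * θ := by
    rw [← Real.tan_eq_sin_div_cos]
    exact Real.arctan_tan (by linarith) (by linarith)
  have h3 := abs_arctan_sub (Real.sin (2 * θ) / Real.cos (2 * θ))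
    ((y / 10 + 9 / 10 * Real.sin (2 * θ)) / (x / 10 + 9 / 10 * Real.cos (2 * θ)))
  rw [e] at h3
  refine h3.trans_lt ?_
  have h4 := Real.sin_sq_add_cos_sq (2 * θ)
  generalize Real.cos (2 * θ) = c at *
  generalize Real.sin (2 * θ) = s at *
  have h5 : s / c - (y / 10 + 9 / 10 * s) / (x / 10 + 9 / 10 * c) =
      (s * x - c * y) / (10 * (c * (x / 10 + 9 / 10 * c))) := by
    have e1 : x / 10 + 9 / 10 * c ≠ 0 := by linarith
    have e2 : c ≠ 0 := by linarith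
    rw [div_sub_div _ _ e2 e1, div_eq_div_iff (mul_ne_zero e2 e1)
      (mul_ne_zero (by norm_num) (mul_ne_zero e2 e1))]
    ring
  have h6 : |s * x - c * y| ≤ 6 / 5 := by
    apply abs_le_of_sq_le_sq' _ (by norm_num) |> abs_le.mpr
    nlinarith [sq_nonneg (s * y + c * x)]
  have h7 : 16 / 25 ≤ c * (x / 10 + 9 / 10 * c) := by nlinarith
  rw [h5, abs_div, abs_of_pos (by linarith : 0 < 10 * (c * (x / 10 + 9 / 10 * c))),
    div_lt_iff₀ (by linarith)]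
  linarith

theorem ang_est' {θ : ℝ} {z w : ℂ} (hθ : |θ| ≤ 1 / 5) (hz : 1 / 4 ≤ normSq z) (hw : ‖w‖ ≤ 6 / 5) :
    1 / 2 < (((1 / 10 : ℝ) • w + (9 / 10 : ℝ) • Gf θ z) * (starRingEnd ℂ) (gz z)).re ∧
    |2 * θ - Ang z ((1 / 10 : ℝ) • w + (9 / 10 : ℝ) • Gf θ z)| < 1 / 5 := by
  have h1 : gz z * (starRingEnd ℂ) (gz z) = 1 := by
    rw [mul_conj, ← Complex.sq_norm, norm_gz hz]; simp
  have h2 : ((1 / 10 : ℝ) • w + (9 / 10 : ℝ) • Gf θ z) * (starRingEnd ℂ) (gz z) =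
      (1 / 10 : ℝ) • (w * (starRingEnd ℂ) (gz z)) + (9 / 10 : ℝ) • exp ((2 * θ : ℝ) * I) := by
    simp only [Gf, real_smul]
    push_cast
    linear_combination (9 / 10 : ℂ) * exp (2 * θ * I) * h1
  have h3 : ‖w * (starRingEnd ℂ) (gz z)‖ ≤ 6 / 5 := by
    rw [norm_mul, norm_conj, norm_gz hz, mul_one]; exact hw
  rw [Ang, h2]
  generalize w * (starRingEnd ℂ) (gz z) = η at h3
  have h4 : η.re ^ 2 + η.im ^ 2 ≤ (6 / 5) ^ 2 := by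
    have := Complex.sq_norm η
    rw [normSq_apply] at this
    nlinarith [norm_nonneg η]
  obtain ⟨k1, k2⟩ := ang_est hθ h4
  have e1 : ((1 / 10 : ℝ) • η + (9 / 10 : ℝ) • exp ((2 * θ : ℝ) * I)).re =
      η.re / 10 + 9 / 10 * Real.cos (2 * θ) := by
    rw [add_re, smul_re, smul_re, exp_ofReal_mul_I_re, smul_eq_mul, smul_eq_mul]; ring
  have e2 : ((1 / 10 : ℝ) • η + (9 / 10 : ℝ) • exp ((2 * θ : ℝ) * I)).im =
      η.im / 10 + 9 / 10 * Real.sin (2 * θ) := by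
    rw [add_im, smul_im, smul_im, exp_ofReal_mul_I_im, smul_eq_mul, smul_eq_mul]; ring
  rw [e1, e2, m2_eq k1.le]
  exact ⟨k1, k2⟩

noncomputable def AP : W3 ≃L[ℝ] W3 :=
  LinearEquiv.toContinuousLinearEquiv
    { toFun := fun u => (u.2.1, -u.1, u.2.2)
      invFun := fun u => (-u.2.1, u.1, u.2.2)
      map_add' := fun u v => by simp [add_comm]
      map_smul' := fun c u => by simp
      left_inv := fun u => by simp
      right_inv := fun u => by simp }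

theorem AP_apply (u : W3) : AP u = (u.2.1, -u.1, u.2.2) := rfl

theorem norm_AP (u : W3) : ‖AP u‖ = ‖u‖ := by
  simp only [AP_apply, Prod.norm_def, norm_neg]
  exact max_left_comm _ _ _

theorem fwd_est {γ : Gam} (hγ : γ ∈ BP.N) :
    (0 < γ.2.1.2.2 ∧ fS γ ∈ O1 ∧ f1 (fS γ) ∈ O2 ∧ Real.log (1 - m10 (fS γ)) ≤ 18 / 100) ∧
    f3 (f2 (f1 (fS γ))) ∈ IntP ∧ Exp (3 / 2) (AP (BP.x γ)) (BP.x (f3 (f2 (f1 (fS γ))))) := by
  obtain ⟨⟨a1, a2, a3, a4, a5, a6⟩, b1, b2, b3⟩ := mem_NP hγ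
  obtain ⟨θ, ⟨z, w, s⟩, p, q, a⟩ := γ
  simp only at a1 a2 a3 a4 a5 a6 b1 b2 b3
  have hz : 1 / 4 < normSq z := by rw [← Complex.sq_norm]; nlinarith
  have hs1 : 4 / 5 < s * 9 / (1 + s * 8) := by rw [lt_div_iff₀ (by linarith)]; linarith
  have hs2 : s * 9 / (1 + s * 8) < 11 / 10 := by rw [div_lt_iff₀ (by linarith)]; linarith
  obtain ⟨k1, k2⟩ := ang_est' a1 hz.le a4
  have hm := abs_le.mp (abs_ipG θ q hz.le)
  have hG := norm_Gf θ hz.le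
  have n1 : ‖(1 / 10 : ℝ) • w‖ ≤ 12 / 100 := by
    rw [norm_smul, Real.norm_of_nonneg (by norm_num)]; linarith
  have n2 : ‖(9 / 10 : ℝ) • Gf θ z‖ = 9 / 10 := by
    rw [norm_smul, Real.norm_of_nonneg (by norm_num), hG, mul_one]
  have n3 := norm_add_le ((1 / 10 : ℝ) • w) ((9 / 10 : ℝ) • Gf θ z)
  have n4 := norm_sub_le ((1 / 10 : ℝ) • w + (9 / 10 : ℝ) • Gf θ z) ((1 / 10 : ℝ) • w)
  rw [add_sub_cancel_left] at n4
  simp only [BP, AP_apply, f3, f2, f1, fS, m10, O1, O2, IntP, mem_inter_iff, mem_ofPred_eq, norm_neg]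
  generalize ip q (I * Gf θ z) = m at hm ⊢
  have hν : 0 < 1 - 18 * m := by linarith [hm.2]
  have hν' : 5 / 6 ≤ (1 - 18 * m)⁻¹ := by
    rw [le_inv_comm₀ (by norm_num) hν]; linarith [hm.1]
  refine ⟨⟨by linarith, ⟨⟨hz, by linarith⟩, hs1⟩, ⟨⟨hz, k1⟩, hs1⟩, ?_⟩,
    ⟨k2, by linarith, by linarith, by linarith, by linarith, hs2⟩, ?_⟩
  · linarith [Real.log_le_sub_one_of_pos hν, hm.1]
  refine Exp.prod (Exp.of_eq (k' := 20 * (1 - 18 * m)⁻¹) (by norm_num) (by linarith) ?_)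
    (Exp.prod (Exp.of_eq (k' := 2 * (1 - 18 * m)⁻¹) (by norm_num) (by linarith) ?_)
      (Exp.of_eq (k' := 2 * ((1 - 18 * m)⁻¹ * ((1 + s * 8) ^ 2 / 9))) (by norm_num) ?_ ?_))
  · simp only
    module
  · simp only
    have : ez z = ((1 - 18 * m)⁻¹ * (1 - 18 * m)) • ez z := by
      rw [inv_mul_cancel₀ hν.ne', one_smul]
    linear_combination (norm := module) (2 : ℝ) • this
  · have : 1 ≤ (1 + s * 8) ^ 2 / 9 := by nlinarith
    nlinarith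
  · simp only [smul_eq_mul]
    ring

def BaseM : Set Gam := {γ | -(1 / 10) ≤ γ.2.1.2.2 ∧ γ.2.1.2.2 ≤ 3 / 5 ∧ ‖γ.2.2.1‖ ≤ 2 ∧
  ‖γ.2.2.2.1‖ ≤ 2}

def IntM : Set Gam := {γ | -(1 / 10) < γ.2.1.2.2 ∧ γ.2.1.2.2 < 3 / 5 ∧ ‖γ.2.2.1‖ < 2 ∧
  ‖γ.2.2.2.1‖ < 2}

theorem isOpen_IntM : IsOpen IntM := by
  simp only [IntM, ofPred_and]
  refine IsOpen.inter ?_ (IsOpen.inter ?_ (IsOpen.inter ?_ ?_))
  all_goals exact isOpen_lt (by fun_prop) (by fun_prop)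

theorem isClosed_BaseM : IsClosed BaseM := by
  simp only [BaseM, ofPred_and]
  refine IsClosed.inter ?_ (IsClosed.inter ?_ (IsClosed.inter ?_ ?_))
  all_goals exact isClosed_le (by fun_prop) (by fun_prop)

theorem IntM_sub : IntM ⊆ BaseM := fun _ h => ⟨h.1.le, h.2.1.le, h.2.2.1.le, h.2.2.2.le⟩

/-- The block at time `0` for the backward flow. -/
noncomputable def BM : Block Gam (ℝ × W3) where
  Base := BaseM
  x γ := (γ.1, γ.2.1.1 - 1, γ.2.1.2.1, γ.2.2.2.2)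
  scale ρ γ := (ρ * γ.1, (1 + ρ • (γ.2.1.1 - 1), ρ • γ.2.1.2.1, γ.2.1.2.2), γ.2.2.1, γ.2.2.2.1,
    ρ * γ.2.2.2.2)
  ε := 1 / 50
  ε_pos := by norm_num
  x_cont := by fun_prop
  scale_cont := by fun_prop
  scale_mem _ _ h := h
  x_scale ρ γ _ := by simp
  scale_one γ _ := by simp

theorem isCompact_NM : IsCompact BM.N := by
  refine isCompact_N BM isClosed_BaseM (M := 2) fun γ hγ => ?_
  obtain ⟨⟨a1, a2, a3, a4⟩, b⟩ := hγ
  simp only [BM, norm_prod_le_iff, Real.norm_eq_abs] at b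
  obtain ⟨b1, b2, b3, b4⟩ := b
  have h2 := norm_add_le (γ.2.1.1 - 1) 1
  rw [sub_add_cancel, norm_one] at h2
  exact norm_le_of (by linarith) (by linarith) (by linarith) (abs_le.mpr ⟨by linarith, by linarith⟩)
    a3 a4 (by linarith)

theorem bwd_est {γ : Gam} (hγ : γ ∈ BM.N) :
    (γ.2.1.2.2 < 1 ∧ (bS γ).2.1.2.2 < 1 / 5) ∧ bN (bS γ) ∈ IntM ∧
      Exp (3 / 2) (ContinuousLinearEquiv.refl ℝ _ (BM.x γ)) (BM.x (bN (bS γ))) := by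
  obtain ⟨a1, a2, a3, a4⟩ := hγ.1
  obtain ⟨θ, ⟨z, w, s⟩, p, q, a⟩ := γ
  simp only at a1 a2 a3 a4
  have hd : 0 < 1 + s * (9⁻¹ - 1) := by linarith
  have hs1 : s * 9⁻¹ / (1 + s * (9⁻¹ - 1)) < 1 / 5 := by rw [div_lt_iff₀ hd]; linarith
  have hs2 : -(1 / 10) < s * 9⁻¹ / (1 + s * (9⁻¹ - 1)) := by rw [lt_div_iff₀ hd]; linarith
  have e1 := Real.exp_one_gt_d9
  have e2 := Real.exp_neg_one_lt_d9
  have e3 := Real.exp_pos (-1)
  simp only [BM, bN, bS, IntM, mem_ofPred_eq, ContinuousLinearEquiv.refl_apply, norm_smul,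
    Real.norm_of_nonneg e3.le]
  refine ⟨⟨by linarith, hs1⟩, ⟨hs2, by linarith, by nlinarith, by nlinarith⟩, ?_⟩
  refine Exp.prod (Exp.of_eq (k' := Real.exp 1) (by norm_num) (by linarith) ?_)
    (Exp.prod (Exp.of_eq (k' := Real.exp 1 ^ 2) (by norm_num) (by nlinarith) ?_)
      (Exp.prod (Exp.of_eq (k' := Real.exp 1 ^ 2) (by norm_num) (by nlinarith) rfl)
      (Exp.of_eq (k' := Real.exp 1 * ((1 + s * (9⁻¹ - 1)) ^ 2 / 9⁻¹)) (by norm_num) ?_ ?_)))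
  · simp only [smul_eq_mul]
    ring
  · simp only [add_sub_cancel_left]
  · have : 1 ≤ (1 + s * (9⁻¹ - 1)) ^ 2 / 9⁻¹ := by
      rw [le_div_iff₀ (by norm_num)]; nlinarith
    nlinarith
  · simp only [smul_eq_mul]
    ring

/-- The slice at time `0`. -/
noncomputable def g0 (d : W3 × ℝ × W3) : Gam :=
  (1 / 50 * d.2.1, (1 + (1 / 50 : ℝ) • d.2.2.1, (1 / 50 : ℝ) • d.2.2.2.1,
    1 / 2 + 1 / 50 * (d.2.2.2.2 - d.1.2.2)),
    ez (1 + (1 / 50 : ℝ) • d.2.2.1) + (1 / 50 : ℝ) • d.1.1, (1 / 50 : ℝ) • d.1.2.1,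
    1 / 50 * d.2.2.2.2)

theorem g0_est {d : W3 × ℝ × W3} (hd : d ∈ closedBall (0 : W3 × ℝ × W3) 1) :
    7 / 10 ≤ ‖1 + (1 / 50 : ℝ) • d.2.2.1‖ ∧
    (3 / 10 < (g0 d).2.1.2.2 ∧ (g0 d).2.1.2.2 < 7 / 10) ∧ g0 d ∈ BaseM ∧ fK (g0 d) ∈ IntP ∧
    BM.x (g0 d) = (1 / 50 : ℝ) • d.2 ∧ BP.x (fK (g0 d)) = (1 / 50 : ℝ) • d.1 := by
  obtain ⟨⟨x1, x2, x3⟩, y0, y1, y2, y3⟩ := d
  simp only [mem_closedBall_zero_iff, norm_prod_le_iff, Real.norm_eq_abs, abs_le] at hd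
  obtain ⟨⟨a1, a2, a3, a3'⟩, ⟨b0, b0'⟩, b1, b2, b3, b3'⟩ := hd
  have n : ∀ x : ℂ, ‖x‖ ≤ 1 → ‖(1 / 50 : ℝ) • x‖ ≤ 1 / 50 := fun x hx => by
    rw [norm_smul, Real.norm_of_nonneg (by norm_num)]; linarith
  have n1 := norm_add_le 1 ((1 / 50 : ℝ) • y1)
  have n2 := norm_sub_le (1 + (1 / 50 : ℝ) • y1) ((1 / 50 : ℝ) • y1)
  rw [add_sub_cancel_right] at n2
  rw [norm_one] at n1 n2
  have n3 : 7 / 10 ≤ ‖1 + (1 / 50 : ℝ) • y1‖ := by linarith [n y1 b1]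
  have n4 := norm_add_le (ez (1 + (1 / 50 : ℝ) • y1)) ((1 / 50 : ℝ) • x1)
  have n5 := norm_ez_le n3
  simp only [g0, fK, BaseM, IntP, BM, BP, mem_ofPred_eq, abs_lt]
  refine ⟨n3, ⟨by linarith, by linarith⟩, ⟨by linarith, by linarith, by linarith [n x1 a1],
    by linarith [n x2 a2]⟩, ⟨⟨by nlinarith, by nlinarith⟩, by linarith [n y1 b1],
    by linarith [n y1 b1], by linarith [n y2 b2], by linarith, by linarith⟩, ?_, ?_⟩
  · simp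
  · simp
    ring

theorem continuousOn_g0 : ContinuousOn g0 (closedBall 0 1) := by
  have h : ContinuousOn (fun d : W3 × ℝ × W3 => ez (1 + (1 / 50 : ℝ) • d.2.2.1)) (closedBall 0 1) :=
    fun d hd => (ContinuousAt.comp (f := fun d : W3 × ℝ × W3 => 1 + (1 / 50 : ℝ) • d.2.2.1)
      (continuousAt_ez (g0_est hd).1) (by fun_prop)).continuousWithinAt
  exact ContinuousOn.prodMk (by fun_prop) (ContinuousOn.prodMk (by fun_prop)
    ((h.add (by fun_prop)).prodMk (by fun_prop)))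

theorem robust : ∃ R : ℝ, 1 ≤ R ∧ ∃ ε > 0, ∀ φ V U, Pert (Sig R) φ V U → ¬ C1Close (Sig R) ε φ := by
  have hK : IsCompact (g0 '' closedBall 0 1) :=
    (isCompact_closedBall _ _).image_of_continuousOn continuousOn_g0
  obtain ⟨c1, R₁, s1⟩ := shadow_fwd isCompact_NP fun γ hγ => (fwd_est hγ).1
  obtain ⟨c2, R₂, s2⟩ := shadow_bwd isCompact_NM fun γ hγ => (bwd_est hγ).1
  obtain ⟨c3, R₃, s3⟩ := shadow_in hK (by rintro _ ⟨d, hd, rfl⟩; exact (g0_est hd).2.1)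
  obtain ⟨R₄, hR₄⟩ := ((isCompact_NP.union isCompact_NM).image contDiff_Rad.continuous).bddAbove
  obtain ⟨δ₁, hδ₁, k1⟩ := cover_near BP isCompact_NP c1 isOpen_IntP IntP_sub
    (fun γ hγ => (fwd_est hγ).2.1) AP norm_AP (fun γ hγ => (fwd_est hγ).2.2)
  obtain ⟨δ₂, hδ₂, k2⟩ := cover_near BM isCompact_NM c2 isOpen_IntM IntM_sub
    (fun γ hγ => (bwd_est hγ).2.1) _ (fun _ => rfl) (fun γ hγ => (bwd_est hγ).2.2)
  obtain ⟨δ₃, hδ₃, k3⟩ := near_block BP (hK.image_of_continuousOn c3) isOpen_IntP IntP_sub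
    (by rintro _ ⟨_, ⟨d, hd, rfl⟩, rfl⟩; exact (g0_est hd).2.2.2.1) (by norm_num : (0 : ℝ) < 1 / 200)
  set R := max (max 1 R₄) (max R₁ (max R₂ R₃)) with hR
  have hR1 : 1 ≤ R := le_max_of_le_left (le_max_left _ _)
  have hR4 : R₄ ≤ R := le_max_of_le_left (le_max_right _ _)
  obtain ⟨ε₁, hε₁, t1⟩ := s1 R (le_max_of_le_right (le_max_left _ _)) δ₁ hδ₁
  obtain ⟨ε₂, hε₂, t2⟩ := s2 R (le_max_of_le_right (le_max_of_le_right (le_max_left _ _))) δ₂ hδ₂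
  obtain ⟨ε₃, hε₃, t3⟩ := s3 R (le_max_of_le_right (le_max_of_le_right (le_max_right _ _))) δ₃ hδ₃
  refine ⟨R, hR1, min ε₁ (min ε₂ ε₃), lt_min hε₁ (lt_min hε₂ hε₃), fun φ V U hP hc => ?_⟩
  obtain ⟨ψ₁, d1, p1⟩ := t1 φ V U hP (hc.mono (min_le_left _ _))
  obtain ⟨ψ₂, d2, p2⟩ := t2 φ V U hP (hc.mono ((min_le_right _ _).trans (min_le_left _ _)))
  obtain ⟨ψ₃, d3, p3⟩ := t3 φ V U hP (hc.mono ((min_le_right _ _).trans (min_le_right _ _)))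
  have q3 : ∀ d ∈ closedBall (0 : W3 × ℝ × W3) 1, ψ₃ (g0 d) ∈ BP.Base ∧
      dist (BP.x (ψ₃ (g0 d))) (BP.x (fK (g0 d))) ≤ 1 / 200 := fun d hd =>
    k3 _ ⟨_, ⟨d, hd, rfl⟩, rfl⟩ _ (p3 _ ⟨d, hd, rfl⟩).1
  obtain ⟨d, hd, o1, o2⟩ := shoot BP BM ψ₁ ψ₂ (k1 ψ₁ d1 fun γ hγ => (p1 γ hγ).1)
    (k2 ψ₂ d2 fun γ hγ => (p2 γ hγ).1) (fun d => ψ₃ (g0 d)) g0 (fun d hd => (q3 d hd).1)
    (fun d hd => (g0_est hd).2.2.1) (d3.comp continuousOn_g0 fun d hd => ⟨d, hd, rfl⟩)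
    continuousOn_g0
    (fun d hd h1 => by
      have := (Exp.of_eq (k := 1 / 50) (by norm_num) le_rfl (g0_est hd).2.2.2.2.2).near
        (q3 d hd).2 (by rw [← norm_pos_iff, h1]; norm_num) (by rw [h1]; norm_num)
      rw [h1] at this
      exact ⟨le_trans (by norm_num [BP]) this.1, this.2⟩)
    (fun d hd h1 => by
      have := (Exp.of_eq (k := 1 / 50) (by norm_num) le_rfl (g0_est hd).2.2.2.2.1).near
        (dist_self _).le (by rw [← norm_pos_iff, h1]; norm_num) (by rw [h1]; norm_num)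
      rw [h1] at this
      exact ⟨le_trans (by norm_num [BM]) this.1, this.2⟩)
  obtain ⟨⟨σ, hσ⟩, r⟩ := (p3 _ ⟨d, hd, rfl⟩).2
  obtain ⟨r1, Λ, -, r2⟩ := r σ hσ
  have u1 := orbit_le (by linarith) hP (by norm_num)
    (fun γ hγ => (hR₄ ⟨γ, Or.inl hγ, rfl⟩).trans hR4) (fun γ hγ => (p1 γ hγ).2) o1 r1
  have u2 := orbit_le (by linarith) hP (by norm_num)
    (fun γ hγ => (hR₄ ⟨γ, Or.inr hγ, rfl⟩).trans hR4) (fun γ hγ => (p2 γ hγ).2) o2 hσ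
  nlinarith [Real.exp_pos Λ]

end Pool.Agent.Lib.MP_2d5ab3_gt
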