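import Mathlib

open scoped ContDiff

namespace Pool.Agent.Lib.MP_2d5ab3_gt

/-- The space `ℝ^(2n+1)` with coordinates `(z, q, p)`. -/
abbrev Jet (n : ℕ) : Type := ℝ × (Fin n → ℝ) × (Fin n → ℝ)

/-- The standard contact form `dz + ∑ p_i dq_i` at the point `y`, applied to the vector `v`. -/
def alpha {n : ℕ} (y v : Jet n) : ℝ := v.1 + ∑ i, y.2.2 i * v.2.1 i

/-- A closed (compact, without boundary) smooth embedded hypersurface: a compact set that is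
locally a regular level set of a smooth function. -/
def IsClosedHypersurface {n : ℕ} (S : Set (Jet n)) : Prop :=
  IsCompact S ∧ ∀ x ∈ S, ∃ U : Set (Jet n), IsOpen U ∧ x ∈ U ∧ ∃ G : Jet n → ℝ,
    ContDiffOn ℝ ∞ G U ∧ fderiv ℝ G x ≠ 0 ∧ S ∩ U = {y ∈ U | G y = 0}

/-- A smooth vector field on `U` whose Lie derivative of `alpha` vanishes on `ker alpha`. -/
def IsContactOn {n : ℕ} (V : Jet n → Jet n) (U : Set (Jet n)) : Prop :=
  ContDiffOn ℝ ∞ V U ∧ ∀ y ∈ U, ∀ w, alpha y w = 0 →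
    fderiv ℝ (fun y' => alpha y' w) y (V y) + alpha y (fderiv ℝ V y w) = 0

/-- Convexity in the sense of Giroux. -/
def IsConvex {n : ℕ} (S : Set (Jet n)) : Prop :=
  ∃ U : Set (Jet n), IsOpen U ∧ S ⊆ U ∧ ∃ V : Jet n → Jet n, IsContactOn V U ∧
    ∀ y ∈ S, V y ∉ tangentConeAt ℝ S y

/-- `φ` restricted to `S` is `ε`-close to the inclusion in the `C¹` sense. -/
def C1Close {n : ℕ} (S : Set (Jet n)) (ε : ℝ) (φ : Jet n → Jet n) : Prop :=
  ∀ x ∈ S, ‖φ x - x‖ ≤ ε ∧ ∀ v ∈ tangentConeAt ℝ S x, ‖fderiv ℝ φ x v - v‖ ≤ ε * ‖v‖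

end Pool.Agent.Lib.MP_2d5ab3_gt
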