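import Pool.Agent.Lib.MP_2d5ab3_gt.Phase

/-!
The explicit contact flows.
-/

set_option linter.unusedSimpArgs false

open scoped ContDiff Topology
open Set Filter Metric Complex

namespace Pool.Agent.Lib.MP_2d5ab3_gt

theorem pull_of_line {Φ : ℝ × Gam → Gam} {e v : ℝ × Gam} (h : ContDiffAt ℝ ∞ Φ e) {a s : ℝ}
    {z w : ℂ} (h1 : HasDerivAt (fun r : ℝ => (Φ (e + r • v)).1) a 0)
    (h2 : HasDerivAt (fun r : ℝ => (Φ (e + r • v)).2.1.1) z 0)
    (h3 : HasDerivAt (fun r : ℝ => (Φ (e + r • v)).2.1.2.1) w 0)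
    (h4 : HasDerivAt (fun r : ℝ => (Φ (e + r • v)).2.1.2.2) s 0) :
    aG (Φ e) (fderiv ℝ Φ e v) =
      a + (ip (Φ e).2.2.1 z + ip (Φ e).2.2.2.1 w + (Φ e).2.2.2.2 * s) := by
  have h0 := fderiv_line (h.differentiableAt (by simp)) v
  rw [aG, ip3, (hd_fst h0).unique h1, (hd_fst (hd_fst (hd_snd h0))).unique h2,
    (hd_fst (hd_snd (hd_fst (hd_snd h0)))).unique h3,
    (hd_snd (hd_snd (hd_fst (hd_snd h0)))).unique h4]

theorem lin {E : Type*} [NormedAddCommGroup E] [NormedSpace ℝ E] (a b : E) :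
    HasDerivAt (fun r : ℝ => a + r • b) b 0 := by
  simpa using ((hasDerivAt_id (0 : ℝ)).smul_const b).const_add a

noncomputable def ez (z : ℂ) : ℂ := (normSq z)⁻¹ • (I * z)

@[fun_prop] theorem cd_ez {X : Type*} [NormedAddCommGroup X] [NormedSpace ℝ X] {x : X} {f : X → ℂ}
    (hf : ContDiffAt ℝ ∞ f x) (h : normSq (f x) ≠ 0) : ContDiffAt ℝ ∞ (fun x => ez (f x)) x :=
  ((cd_normSq hf).inv h).smul (contDiffAt_const.mul hf)

theorem hd_re {f : ℝ → ℂ} {f' : ℂ} {t : ℝ} (h : HasDerivAt f f' t) :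
    HasDerivAt (fun r => (f r).re) f'.re t := reCLM.hasFDerivAt.comp_hasDerivAt t h

theorem hd_im {f : ℝ → ℂ} {f' : ℂ} {t : ℝ} (h : HasDerivAt f f' t) :
    HasDerivAt (fun r => (f r).im) f'.im t := imCLM.hasFDerivAt.comp_hasDerivAt t h

theorem gz_eq {z : ℂ} (h : 1 / 4 ≤ normSq z) : gz z = (normSq z)⁻¹ • (z * z) := by
  rw [gz, m1_eq h, real_smul]; ring

theorem hd_gz {f : ℝ → ℂ} {f' : ℂ} {t : ℝ} (h : HasDerivAt f f' t) (hn : 1 / 4 < normSq (f t)) :
    HasDerivAt (fun r => gz (f r)) ((2 * ip (ez (f t)) f') • (I * gz (f t))) t := by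
  have h1 : HasDerivAt (fun r => normSq (f r)) (2 * ip (f t) f') t := by
    simp only [normSq_apply]
    exact (((hd_re h).fun_mul (hd_re h)).fun_add ((hd_im h).fun_mul (hd_im h))).congr_deriv
      (by simp only [ip]; ring)
  have h0 : normSq (f t) ≠ 0 := by linarith
  have h2 := (h1.fun_inv h0).fun_smul (h.fun_mul h)
  have h3 : ∀ᶠ r in 𝓝 t, 1 / 4 < normSq (f r) := continuousAt_const.eventually_lt h1.continuousAt hn
  refine (h2.congr_of_eventuallyEq (h3.mono fun r hr => gz_eq hr.le)).congr_deriv ?_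
  rw [gz_eq hn.le]
  have hN : normSq (f t) = (f t).re * (f t).re + (f t).im * (f t).im := normSq_apply _
  have h5 : ((f t).re * (f t).re + (f t).im * (f t).im) * (normSq (f t))⁻¹ = 1 := by
    rw [← hN]; exact mul_inv_cancel₀ h0
  rw [div_eq_mul_inv, ← inv_pow]
  simp only [ez, ip]
  generalize (normSq (f t))⁻¹ = k at h5 ⊢
  apply Complex.ext
  · simp only [smul_re, smul_im, add_re, mul_re, mul_im, I_re, I_im, smul_eq_mul]
    linear_combination (-2 * k * (f'.re * (f t).re - f'.im * (f t).im)) * h5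
  · simp only [smul_re, smul_im, add_im, mul_re, mul_im, I_re, I_im, smul_eq_mul]
    linear_combination (-2 * k * (f'.re * (f t).im + f'.im * (f t).re)) * h5

theorem hd_Gf {θ : ℝ → ℝ} {θ' : ℝ} {f : ℝ → ℂ} {f' : ℂ} {t : ℝ} (hθ : HasDerivAt θ θ' t)
    (h : HasDerivAt f f' t) (hn : 1 / 4 < normSq (f t)) :
    HasDerivAt (fun r => Gf (θ r) (f r)) ((2 * (θ' + ip (ez (f t)) f')) • (I * Gf (θ t) (f t))) t := by
  have h1 : HasDerivAt (fun r => exp (2 * θ r * I)) (exp (2 * θ t * I) * (2 * θ' * I)) t :=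
    ((hθ.ofReal_comp.const_mul 2).mul_const I).cexp
  refine ((hd_gz h hn).fun_mul h1).congr_deriv ?_
  simp only [Gf, real_smul]
  push_cast
  ring

theorem hd_Ang {f g : ℝ → ℂ} {f' g' : ℂ} {t : ℝ} (hf : HasDerivAt f f' t) (hg : HasDerivAt g g' t)
    (hn : 1 / 4 < normSq (f t)) (hr : 1 / 2 < (g t * (starRingEnd ℂ) (gz (f t))).re) :
    HasDerivAt (fun r => Ang (f r) (g r)) (ip (ez (g t)) g' - 2 * ip (ez (f t)) f') t := by
  have h1 : HasDerivAt (fun r => (starRingEnd ℂ) (gz (f r))) _ t :=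
    conjCLE.toContinuousLinearMap.hasFDerivAt.comp_hasDerivAt t (hd_gz hf hn)
  have h2 := hg.fun_mul h1
  have h0 : (g t * (starRingEnd ℂ) (gz (f t))).re ≠ 0 := by linarith
  have h3 := ((hd_im h2).fun_div (hd_re h2) h0).arctan
  have h4 : ∀ᶠ r in 𝓝 t, 1 / 2 < (g r * (starRingEnd ℂ) (gz (f r))).re :=
    continuousAt_const.eventually_lt (hd_re h2).continuousAt hr
  refine (h3.congr_of_eventuallyEq (h4.mono fun r hr => by
    simp only [Ang, m2_eq hr.le])).congr_deriv ?_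
  generalize ip (ez (f t)) f' = B
  generalize gz (f t) = u at h0 ⊢
  generalize g t = w at h0 ⊢
  have hw : normSq w ≠ 0 := by
    intro h; rw [normSq_eq_zero] at h; simp [h] at h0
  have hu : normSq u ≠ 0 := by
    intro h; rw [normSq_eq_zero] at h; simp [h] at h0
  have hc : ∀ x : ℂ, conjCLE.toContinuousLinearMap x = (starRingEnd ℂ) x := fun _ => rfl
  simp only [ez, ip, normSq_apply, hc, smul_re, smul_im, add_re, add_im, mul_re, mul_im, I_re, I_im,
    smul_eq_mul, conj_re, conj_im] at hw hu h0 ⊢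
  have h6 : (w.re * u.re - w.im * -u.im) ^ 2 + (w.re * -u.im + w.im * u.re) ^ 2 =
    (w.re * w.re + w.im * w.im) * (u.re * u.re + u.im * u.im) := by ring
  generalize hX : w.re * u.re - w.im * -u.im = X at h0 h6 ⊢
  have h7 : 1 / (1 + ((w.re * -u.im + w.im * u.re) / X) ^ 2) =
      X ^ 2 / ((w.re * w.re + w.im * w.im) * (u.re * u.re + u.im * u.im)) := by
    rw [← h6]; field_simp
  rw [h7]
  generalize hN : w.re * w.re + w.im * w.im = N at hw ⊢
  generalize hM : u.re * u.re + u.im * u.im = M at hu ⊢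
  field_simp
  rw [← hX, ← hN, ← hM]
  ring

noncomputable def PhiK (e : ℝ × Gam) : Gam :=
  (e.2.1 + e.1 * ((e.2.2.1.2.2 - 1 / 2) ^ 2 / 2), e.2.2.1,
    e.2.2.2.1, e.2.2.2.2.1, e.2.2.2.2.2 - e.1 * (e.2.2.1.2.2 - 1 / 2))

noncomputable def flowK : Flow where
  Φ := PhiK
  nu _ := 1
  dom := univ
  gen := genK
  isOpen := isOpen_univ
  smooth e _ := by unfold PhiK; fun_prop
  smooth_nu e _ := contDiffAt_const
  nu_pos _ _ := one_pos
  zero γ := by simp [PhiK]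
  nu_zero _ := rfl
  pull e _ v := by
    rw [pull_of_line (by unfold PhiK; fun_prop) ((lin e.2.1 v.2.1).fun_add ((lin e.1 v.1).fun_mul
      ((((lin e.2.2.1.2.2 v.2.2.1.2.2).sub_const (1 / 2)).fun_pow 2).div_const 2)))
      (lin _ _) (lin _ _) (lin _ _)]
    simp [PhiK, aG, ip3, genK]
    ring

noncomputable def PhiS (e : ℝ × Gam) : Gam :=
  (e.2.1, (e.2.2.1.1, e.2.2.1.2.1,
    e.2.2.1.2.2 * Real.exp e.1 / (1 + e.2.2.1.2.2 * (Real.exp e.1 - 1))),
    e.2.2.2.1, e.2.2.2.2.1,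
    e.2.2.2.2.2 * (1 + e.2.2.1.2.2 * (Real.exp e.1 - 1)) ^ 2 / Real.exp e.1)

theorem cd_PhiS {e : ℝ × Gam} (he : 0 < 1 + e.2.2.1.2.2 * (Real.exp e.1 - 1)) :
    ContDiffAt ℝ ∞ PhiS e := by
  have h1 : 1 + e.2.2.1.2.2 * (Real.exp e.1 - 1) ≠ 0 := ne_of_gt he
  have h2 := Real.exp_ne_zero e.1
  unfold PhiS
  fun_prop (disch := assumption)

noncomputable def flowS : Flow where
  Φ := PhiS
  nu _ := 1
  dom := {e | 0 < 1 + e.2.2.1.2.2 * (Real.exp e.1 - 1)}
  gen := genS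
  isOpen := isOpen_lt continuous_const (by fun_prop)
  smooth e he := cd_PhiS he
  smooth_nu e _ := contDiffAt_const
  nu_pos _ _ := one_pos
  zero γ := by simp [PhiS]
  nu_zero _ := rfl
  pull e he v := by
    have h1 : 1 + e.2.2.1.2.2 * (Real.exp e.1 - 1) ≠ 0 := ne_of_gt he
    have h2 := Real.exp_ne_zero e.1
    rw [pull_of_line (cd_PhiS he) (lin _ _) (lin _ _) (lin _ _)
      (((lin e.2.2.1.2.2 v.2.2.1.2.2).fun_mul (lin e.1 v.1).exp).fun_div
        (((lin e.2.2.1.2.2 v.2.2.1.2.2).fun_mul ((lin e.1 v.1).exp.sub_const 1)).const_add 1)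
        (by simpa using h1))]
    simp [PhiS, aG, ip3, genS]
    field_simp
    ring

noncomputable def PhiN (e : ℝ × Gam) : Gam :=
  (e.2.1 * Real.exp (-e.1), (1 + Real.exp (-e.1) ^ 2 • (e.2.2.1.1 - 1),
    Real.exp (-e.1) ^ 2 • e.2.2.1.2.1, e.2.2.1.2.2),
    Real.exp e.1 • e.2.2.2.1, Real.exp e.1 • e.2.2.2.2.1, Real.exp (-e.1) * e.2.2.2.2.2)

noncomputable def flowN : Flow where
  Φ := PhiN
  nu e := Real.exp e.1
  dom := univ
  gen := genN
  isOpen := isOpen_univ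
  smooth e _ := by unfold PhiN; fun_prop
  smooth_nu e _ := by fun_prop
  nu_pos _ _ := Real.exp_pos _
  zero γ := by simp [PhiN]
  nu_zero _ := by simp
  pull e _ v := by
    rw [pull_of_line (by unfold PhiN; fun_prop) ((lin e.2.1 v.2.1).fun_mul (lin e.1 v.1).fun_neg.exp)
      ((((lin e.1 v.1).fun_neg.exp.fun_pow 2).fun_smul
        ((lin e.2.2.1.1 v.2.2.1.1).sub_const 1)).const_add 1)
      (((lin e.1 v.1).fun_neg.exp.fun_pow 2).fun_smul (lin e.2.2.1.2.1 v.2.2.1.2.1)) (lin _ _)]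
    have h2 := Real.exp_ne_zero e.1
    simp only [PhiN, aG, ip3, genN, Real.exp_neg, zero_smul, add_zero, zero_mul, Nat.add_one_sub_one, pow_one,
      ip, smul_re, smul_im, add_re, add_im, sub_re, sub_im, mul_re, mul_im, I_re, I_im,
      one_re, one_im, smul_eq_mul, Nat.cast_ofNat]
    field_simp
    ring

noncomputable def Phi3 (e : ℝ × Gam) : Gam :=
  (e.2.1, (Real.cos e.1 • e.2.2.1.1 + Real.sin e.1 • e.2.2.1.2.1,
    Real.cos e.1 • e.2.2.1.2.1 - Real.sin e.1 • e.2.2.1.1, e.2.2.1.2.2),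
    Real.cos e.1 • e.2.2.2.1 + Real.sin e.1 • e.2.2.2.2.1,
    Real.cos e.1 • e.2.2.2.2.1 - Real.sin e.1 • e.2.2.2.1, e.2.2.2.2.2)

noncomputable def flow3 : Flow where
  Φ := Phi3
  nu _ := 1
  dom := univ
  gen := gen3
  isOpen := isOpen_univ
  smooth e _ := by unfold Phi3; fun_prop
  smooth_nu e _ := contDiffAt_const
  nu_pos _ _ := one_pos
  zero γ := by simp [Phi3]
  nu_zero _ := rfl
  pull e _ v := by
    rw [pull_of_line (by unfold Phi3; fun_prop) (lin _ _)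
      (((lin e.1 v.1).cos.fun_smul (lin e.2.2.1.1 v.2.2.1.1)).fun_add
        ((lin e.1 v.1).sin.fun_smul (lin e.2.2.1.2.1 v.2.2.1.2.1)))
      (((lin e.1 v.1).cos.fun_smul (lin e.2.2.1.2.1 v.2.2.1.2.1)).fun_sub
        ((lin e.1 v.1).sin.fun_smul (lin e.2.2.1.1 v.2.2.1.1))) (lin _ _)]
    simp only [Phi3, aG, ip3, gen3, zero_smul, add_zero, zero_mul,
      ip, smul_re, smul_im, add_re, add_im, sub_re, sub_im, mul_re, mul_im, I_re, I_im,
      one_re, one_im, smul_eq_mul]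
    linear_combination (e.2.2.2.1.re * v.2.2.1.1.re + e.2.2.2.1.im * v.2.2.1.1.im +
      e.2.2.2.2.1.re * v.2.2.1.2.1.re + e.2.2.2.2.1.im * v.2.2.1.2.1.im) *
      Real.sin_sq_add_cos_sq e.1

noncomputable def mm (e : ℝ × Gam) : ℝ :=
  2 * (Real.exp e.1 - 1) * ip e.2.2.2.2.1 (I * Gf e.2.1 e.2.2.1.1)

noncomputable def Phi1 (e : ℝ × Gam) : Gam :=
  (e.2.1, (e.2.2.1.1, Real.exp (-e.1) • e.2.2.1.2.1 + (1 - Real.exp (-e.1)) • Gf e.2.1 e.2.2.1.1,
    e.2.2.1.2.2), (1 - mm e)⁻¹ • (e.2.2.2.1 - mm e • ez e.2.2.1.1),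
    (Real.exp e.1 * (1 - mm e)⁻¹) • e.2.2.2.2.1, (1 - mm e)⁻¹ * e.2.2.2.2.2)

theorem contDiff_mm : ContDiff ℝ ∞ mm := by
  rw [contDiff_iff_contDiffAt]
  intro e
  unfold mm; fun_prop

theorem cd_Phi1 {e : ℝ × Gam} (h1 : 1 / 4 < normSq e.2.2.1.1) (h2 : 0 < 1 - mm e) :
    ContDiffAt ℝ ∞ Phi1 e := by
  have a1 : normSq e.2.2.1.1 ≠ 0 := by linarith
  have a2 : ContDiffAt ℝ ∞ mm e := contDiff_mm.contDiffAt
  have a3 := h2.ne'
  unfold Phi1
  fun_prop (disch := assumption)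

noncomputable def flow1 : Flow where
  Φ := Phi1
  nu e := 1 - mm e
  dom := {e | 1 / 4 < normSq e.2.2.1.1} ∩ {e | 0 < 1 - mm e}
  gen := gen1
  isOpen := (isOpen_lt continuous_const (by fun_prop)).inter
    (isOpen_lt continuous_const (continuous_const.sub contDiff_mm.continuous))
  smooth e he := cd_Phi1 he.1 he.2
  smooth_nu e _ := contDiffAt_const.sub contDiff_mm.contDiffAt
  nu_pos _ he := he.2
  zero γ := by simp [Phi1, mm]
  nu_zero _ := by simp [mm]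
  pull e he v := by
    have h1 : 1 - mm e ≠ 0 := ne_of_gt he.2
    have h2 := Real.exp_ne_zero e.1
    rw [pull_of_line (cd_Phi1 he.1 he.2) (lin _ _) (lin _ _)
      (((lin e.1 v.1).fun_neg.exp.fun_smul (lin e.2.2.1.2.1 v.2.2.1.2.1)).fun_add
        (((lin e.1 v.1).fun_neg.exp.const_sub 1).fun_smul
          (hd_Gf (lin e.2.1 v.2.1) (lin e.2.2.1.1 v.2.2.1.1) (by simpa using he.1)))) (lin _ _)]
    have h3 : mm e = 2 * (Real.exp e.1 - 1) * ip e.2.2.2.2.1 (I * Gf e.2.1 e.2.2.1.1) := rfl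
    simp only [Phi1, aG, ip3, gen1, zero_smul, add_zero]
    generalize mm e = m at h1 h3 ⊢
    generalize Gf e.2.1 e.2.2.1.1 = G at h3 ⊢
    generalize ez e.2.2.1.1 = E
    simp only [Real.exp_neg, ip, smul_re, smul_im, add_re, add_im, sub_re, sub_im, mul_re, mul_im, I_re, I_im,
      one_re, one_im, smul_eq_mul] at h3 ⊢
    field_simp
    rw [h3]
    ring

noncomputable def Phi2 (e : ℝ × Gam) : Gam :=
  (Real.exp e.1 * e.2.1 - (Real.exp e.1 - 1) * Ang e.2.2.1.1 e.2.2.1.2.1, e.2.2.1,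
    Real.exp e.1 • e.2.2.2.1 - (2 * (Real.exp e.1 - 1)) • ez e.2.2.1.1,
    Real.exp e.1 • e.2.2.2.2.1 + (Real.exp e.1 - 1) • ez e.2.2.1.2.1, Real.exp e.1 * e.2.2.2.2.2)

theorem cd_Phi2 {e : ℝ × Gam} (h1 : 1 / 4 < normSq e.2.2.1.1)
    (h2 : 1 / 2 < (e.2.2.1.2.1 * (starRingEnd ℂ) (gz e.2.2.1.1)).re) : ContDiffAt ℝ ∞ Phi2 e := by
  have a1 : normSq e.2.2.1.1 ≠ 0 := by linarith
  have a2 : normSq e.2.2.1.2.1 ≠ 0 := by
    intro h; rw [normSq_eq_zero] at h; rw [h] at h2; norm_num at h2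
  unfold Phi2
  fun_prop (disch := assumption)

theorem continuous_uu :
    Continuous (fun γ : Gam => (γ.2.1.2.1 * (starRingEnd ℂ) (gz γ.2.1.1)).re) :=
  continuous_iff_continuousAt.mpr fun γ => (cd_re (ContDiffAt.mul (f := fun γ : Gam => γ.2.1.2.1)
    (by fun_prop) (cd_conj (cd_gz (f := fun γ : Gam => γ.2.1.1) (by fun_prop))))).continuousAt

noncomputable def flow2 : Flow where
  Φ := Phi2
  nu e := Real.exp (-e.1)
  dom := {e | 1 / 4 < normSq e.2.2.1.1} ∩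
    {e | 1 / 2 < (e.2.2.1.2.1 * (starRingEnd ℂ) (gz e.2.2.1.1)).re}
  gen := gen2
  isOpen := (isOpen_lt continuous_const (by fun_prop)).inter
    (isOpen_lt continuous_const (continuous_uu.comp continuous_snd))
  smooth e he := cd_Phi2 he.1 he.2
  smooth_nu e _ := by fun_prop
  nu_pos _ _ := Real.exp_pos _
  zero γ := by simp [Phi2]
  nu_zero _ := by simp
  pull e he v := by
    rw [pull_of_line (cd_Phi2 he.1 he.2) (((lin e.1 v.1).exp.fun_mul (lin e.2.1 v.2.1)).fun_sub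
      (((lin e.1 v.1).exp.sub_const 1).fun_mul (hd_Ang (lin e.2.2.1.1 v.2.2.1.1)
        (lin e.2.2.1.2.1 v.2.2.1.2.1) (by simpa using he.1) (by simpa using he.2))))
      (lin _ _) (lin _ _) (lin _ _)]
    simp only [Phi2, aG, ip3, gen2, zero_smul, add_zero]
    generalize ez e.2.2.1.1 = E
    generalize ez e.2.2.1.2.1 = E'
    simp only [Real.exp_neg, inv_inv, ip, smul_re, smul_im, add_re, add_im, sub_re, sub_im, mul_re, mul_im, I_re, I_im,
      one_re, one_im, smul_eq_mul]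
    ring

end Pool.Agent.Lib.MP_2d5ab3_gt
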