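import Pool.Agent.Lib.MP_2d5ab3_gt.Defs

/-!
Linear algebra of the characteristic direction.
-/

set_option linter.unusedSectionVars false

open scoped ContDiff Topology
open Set Filter

namespace Pool.Agent.Lib.MP_2d5ab3_gt

variable {n : ℕ}

noncomputable def dotL (n : ℕ) : (Fin n → ℝ) →L[ℝ] (Fin n → ℝ) →L[ℝ] ℝ :=
  ∑ i : Fin n, (ContinuousLinearMap.mul ℝ ℝ).bilinearComp
    (ContinuousLinearMap.proj (R := ℝ) (φ := fun _ : Fin n => ℝ) i)
    (ContinuousLinearMap.proj (R := ℝ) (φ := fun _ : Fin n => ℝ) i)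

theorem dotL_apply (p q : Fin n → ℝ) : dotL n p q = ∑ i, p i * q i := by
  simp [dotL]

noncomputable def qp (n : ℕ) : Jet n →L[ℝ] Jet n →L[ℝ] ℝ :=
  (dotL n).bilinearComp
    ((ContinuousLinearMap.snd ℝ _ _).comp (ContinuousLinearMap.snd ℝ ℝ _))
    ((ContinuousLinearMap.fst ℝ _ _).comp (ContinuousLinearMap.snd ℝ ℝ _))

theorem qp_apply (a b : Jet n) : qp n a b = ∑ i, a.2.2 i * b.2.1 i := by
  simp [qp, dotL_apply]

noncomputable def alphaL (y : Jet n) : Jet n →L[ℝ] ℝ := ContinuousLinearMap.fst ℝ ℝ _ + qp n y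

theorem alphaL_apply (y v : Jet n) : alphaL y v = alpha y v := by
  simp [alphaL, alpha, qp_apply]

theorem alpha_eq (y v : Jet n) : alpha y v = v.1 + qp n y v := by
  simp [alpha, qp_apply]

noncomputable def omegaL (n : ℕ) : Jet n →L[ℝ] Jet n →L[ℝ] ℝ := qp n - (qp n).flip

theorem omegaL_apply (a b : Jet n) : omegaL n a b = qp n a b - qp n b a := by
  simp [omegaL]

theorem omegaL_self (a : Jet n) : omegaL n a a = 0 := by simp [omegaL_apply]

theorem contDiff_alpha : ContDiff ℝ ∞ (fun p : Jet n × Jet n => alpha p.1 p.2) := by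
  simp only [alpha_eq]
  exact (contDiff_fst.comp contDiff_snd).add
    (((qp n).contDiff.comp contDiff_fst).clm_apply contDiff_snd)

variable {Γ : Type} [NormedAddCommGroup Γ] [NormedSpace ℝ Γ] [FiniteDimensional ℝ Γ]

/-- `Z` spans the characteristic direction, with conformal rate `lam`. -/
def IsChar (y : Jet n) (D : (ℝ × Γ) →L[ℝ] Jet n) (Z : ℝ × Γ) (lam : ℝ) : Prop :=
  Z.1 = 1 ∧ alpha y (D Z) = 0 ∧ ∀ v, omegaL n (D Z) (D v) = lam * alpha y (D v)

noncomputable def MM (P : Jet n × ((ℝ × Γ) →L[ℝ] Jet n)) :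
    ((ℝ × Γ) × ℝ × ℝ) →L[ℝ] (((ℝ × Γ) →L[ℝ] ℝ) × ℝ × ℝ) :=
  (((omegaL n).bilinearComp P.2 P.2).comp (ContinuousLinearMap.fst ℝ _ _)
    - ((ContinuousLinearMap.fst ℝ ℝ ℝ).comp (ContinuousLinearMap.snd ℝ _ _)).smulRight
        ((alphaL P.1).comp P.2)
    - ((ContinuousLinearMap.snd ℝ ℝ ℝ).comp (ContinuousLinearMap.snd ℝ _ _)).smulRight
        (ContinuousLinearMap.fst ℝ ℝ Γ)).prod
  ((((alphaL P.1).comp P.2).comp (ContinuousLinearMap.fst ℝ _ _)).prod
    ((ContinuousLinearMap.fst ℝ ℝ Γ).comp (ContinuousLinearMap.fst ℝ _ _)))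

theorem MM_fst (P : Jet n × ((ℝ × Γ) →L[ℝ] Jet n)) (ζ : (ℝ × Γ) × ℝ × ℝ) (v : ℝ × Γ) :
    (MM P ζ).1 v = omegaL n (P.2 ζ.1) (P.2 v) - ζ.2.1 * alpha P.1 (P.2 v) - ζ.2.2 * v.1 := by
  simp [MM, alphaL_apply]

theorem MM_snd (P : Jet n × ((ℝ × Γ) →L[ℝ] Jet n)) (ζ : (ℝ × Γ) × ℝ × ℝ) :
    (MM P ζ).2 = (alpha P.1 (P.2 ζ.1), ζ.1.1) := by
  simp [MM, alphaL_apply]

theorem contDiff_MM : ContDiff ℝ ∞ (MM : Jet n × ((ℝ × Γ) →L[ℝ] Jet n) → _) := by
  rw [contDiff_clm_apply_iff]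
  intro ζ
  have hD : ∀ v : ℝ × Γ, ContDiff ℝ ∞ (fun P : Jet n × ((ℝ × Γ) →L[ℝ] Jet n) => P.2 v) :=
    fun v => contDiff_snd.clm_apply contDiff_const
  have hA : ∀ v : ℝ × Γ, ContDiff ℝ ∞
      (fun P : Jet n × ((ℝ × Γ) →L[ℝ] Jet n) => alpha P.1 (P.2 v)) :=
    fun v => contDiff_alpha.comp (contDiff_fst.prodMk (hD v))
  have e : (fun P : Jet n × ((ℝ × Γ) →L[ℝ] Jet n) => MM P ζ) =
      fun P => ((MM P ζ).1, (alpha P.1 (P.2 ζ.1), ζ.1.1)) := by
    funext P; rw [← MM_snd]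
  rw [e]
  refine ContDiff.prodMk ?_ ((hA _).prodMk contDiff_const)
  rw [contDiff_clm_apply_iff]
  intro v
  simp only [MM_fst]
  exact ((((omegaL n).contDiff.comp (hD _)).clm_apply (hD v)).sub
    (contDiff_const.mul (hA v))).sub contDiff_const

noncomputable def SS (P : Jet n × ((ℝ × Γ) →L[ℝ] Jet n)) : (ℝ × Γ) × ℝ × ℝ :=
  (MM P).inverse (0, 0, 1)

def Inv (n : ℕ) (Γ : Type) [NormedAddCommGroup Γ] [NormedSpace ℝ Γ] :
    Set (Jet n × ((ℝ × Γ) →L[ℝ] Jet n)) := {P | (MM P).IsInvertible}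

theorem isOpen_Inv : IsOpen (Inv n Γ) :=
  ContinuousLinearEquiv.isOpen.preimage (contDiff_MM (n := n) (Γ := Γ)).continuous

theorem contDiffAt_SS {P : Jet n × ((ℝ × Γ) →L[ℝ] Jet n)} (h : P ∈ Inv n Γ) :
    ContDiffAt ℝ ∞ (SS (n := n) (Γ := Γ)) P :=
  ((ContinuousLinearMap.IsInvertible.contDiffAt_map_inverse h).comp P
    contDiff_MM.contDiffAt).clm_apply contDiffAt_const

theorem isChar_SS {P : Jet n × ((ℝ × Γ) →L[ℝ] Jet n)} (h : P ∈ Inv n Γ) :
    IsChar P.1 P.2 (SS P).1 (SS P).2.1 := by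
  have h0 : MM P (SS P) = (0, 0, 1) := ContinuousLinearMap.IsInvertible.self_apply_inverse h _
  have h1 := MM_snd P (SS P)
  rw [h0, Prod.ext_iff] at h1
  have h1a : alpha P.1 (P.2 (SS P).1) = 0 := h1.1.symm
  have h1b : (SS P).1.1 = 1 := h1.2.symm
  have h2 : ∀ v, (MM P (SS P)).1 v = 0 := fun v => by rw [h0]; rfl
  have h3 := h2 (SS P).1
  rw [MM_fst, omegaL_self, h1a, h1b] at h3
  have h4 : (SS P).2.2 = 0 := by linarith
  refine ⟨h1b, h1a, fun v => ?_⟩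
  have := h2 v
  rw [MM_fst, h4] at this
  linarith

theorem SS_eq {P : Jet n × ((ℝ × Γ) →L[ℝ] Jet n)} (h : P ∈ Inv n Γ) {Z : ℝ × Γ} {lam : ℝ}
    (hc : IsChar P.1 P.2 Z lam) : SS P = (Z, lam, 0) := by
  rw [SS, ContinuousLinearMap.IsInvertible.inverse_apply_eq h]
  refine Prod.ext ?_ ?_
  · refine ContinuousLinearMap.ext fun v => ?_
    rw [MM_fst]
    simp [hc.2.2 v]
  · rw [MM_snd]
    simp [hc.1, hc.2.1]

theorem injective_of_inv {P : Jet n × ((ℝ × Γ) →L[ℝ] Jet n)} (h : P ∈ Inv n Γ)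
    (ht : ∀ v, P.2 v = 0 → v.1 = 0) : Function.Injective P.2 := by
  rw [injective_iff_map_eq_zero]
  intro v hv
  have h0 : MM P (v, 0, 0) = 0 := by
    refine Prod.ext ?_ ?_
    · refine ContinuousLinearMap.ext fun w => ?_
      rw [MM_fst]
      simp [hv]
    · rw [MM_snd]
      simp [hv, ht v hv, alpha]
  have := (injective_iff_map_eq_zero _).mp (ContinuousLinearMap.IsInvertible.injective h) _ h0
  exact congrArg Prod.fst this

theorem ell_ne_zero (hdim : Module.finrank ℝ Γ + 1 = 2 * n) {y : Jet n}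
    {D : (ℝ × Γ) →L[ℝ] Jet n} (hD : Function.Injective D) {Z : ℝ × Γ} {lam : ℝ}
    (hc : IsChar y D Z lam) {V : Jet n} (hV : V ∉ range D) :
    omegaL n (D Z) V - lam * alpha y V ≠ 0 := by
  intro h0
  let l : Jet n →L[ℝ] ℝ := omegaL n (D Z) - lam • alphaL y
  have hl : ∀ v, l v = omegaL n (D Z) v - lam * alpha y v := fun v => by
    simp [l, alphaL_apply]
  have hne : (l : Jet n →ₗ[ℝ] ℝ) ≠ 0 := by
    intro hz
    have hz' : ∀ v, omegaL n (D Z) v - lam * alpha y v = 0 := fun v => by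
      rw [← hl]; exact LinearMap.congr_fun hz v
    have h1 : lam = 0 := by
      have := hz' (1, 0, 0)
      simpa [omegaL_apply, qp_apply, alpha] using this
    have h2 : ∀ i, (D Z).2.1 i = 0 := fun i => by
      have := hz' (0, 0, Pi.single i 1)
      simpa [omegaL_apply, qp_apply, h1, Pi.single_apply] using this
    have h3 : ∀ i, (D Z).2.2 i = 0 := fun i => by
      have := hz' (0, Pi.single i 1, 0)
      simpa [omegaL_apply, qp_apply, h1, Pi.single_apply] using this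
    have h4 : (D Z).1 = 0 := by
      have := hc.2.1
      simpa [alpha, h2] using this
    have h5 : D Z = 0 := Prod.ext h4 (Prod.ext (funext h2) (funext h3))
    have h6 : Z = 0 := hD (h5.trans (map_zero D).symm)
    have := hc.1
    rw [h6] at this
    exact zero_ne_one this
  have hle : LinearMap.range (D : (ℝ × Γ) →ₗ[ℝ] Jet n) ≤ LinearMap.ker (l : Jet n →ₗ[ℝ] ℝ) := by
    rintro _ ⟨v, rfl⟩
    rw [LinearMap.mem_ker]
    change l (D v) = 0
    rw [hl, hc.2.2 v, sub_self]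
  have hr : Module.finrank ℝ (LinearMap.range (D : (ℝ × Γ) →ₗ[ℝ] Jet n)) = 2 * n := by
    rw [LinearMap.finrank_range_of_inj hD]
    simp only [Module.finrank_prod, Module.finrank_self]
    omega
  have hk : Module.finrank ℝ (LinearMap.ker (l : Jet n →ₗ[ℝ] ℝ)) = 2 * n := by
    have h1 := LinearMap.finrank_range_add_finrank_ker (l : Jet n →ₗ[ℝ] ℝ)
    have h2 : Module.finrank ℝ (LinearMap.range (l : Jet n →ₗ[ℝ] ℝ)) = 1 := by
      have h3 : Module.finrank ℝ (LinearMap.range (l : Jet n →ₗ[ℝ] ℝ)) ≤ 1 := by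
        simpa using Submodule.finrank_le (LinearMap.range (l : Jet n →ₗ[ℝ] ℝ))
      have h4 : Module.finrank ℝ (LinearMap.range (l : Jet n →ₗ[ℝ] ℝ)) ≠ 0 := by
        rw [Ne, Submodule.finrank_eq_zero, LinearMap.range_eq_bot]
        exact hne
      omega
    simp only [Module.finrank_prod, Module.finrank_self, Module.finrank_fin_fun] at h1
    omega
  have heq := Submodule.eq_of_le_of_finrank_eq hle (hr.trans hk.symm)
  have : V ∈ LinearMap.ker (l : Jet n →ₗ[ℝ] ℝ) := by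
    rw [LinearMap.mem_ker]
    change l V = 0
    rw [hl, h0]
  rw [← heq] at this
  exact hV this

/-- A linear contact structure `A₀ + Q γ` on `Γ`. -/
structure Lin (Γ : Type) [NormedAddCommGroup Γ] [NormedSpace ℝ Γ] where
  A : Γ →L[ℝ] ℝ
  Q : Γ →L[ℝ] Γ →L[ℝ] ℝ
  e : Γ
  A_e : A e = 1
  Q_e : ∀ g, Q g e = 0
  e_Q : ∀ g, Q e g = 0
  nondeg : ∀ γ g, A g + Q γ g = 0 → (∀ g', Q g g' - Q g' g = 0) → g = 0

theorem inv_of_model (L : Lin Γ) {y : Jet n} {D : (ℝ × Γ) →L[ℝ] Jet n} {c : ℝ} (hc : c ≠ 0)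
    (γ : Γ) (dF : (ℝ × Γ) →L[ℝ] ℝ)
    (h1 : ∀ v, alpha y (D v) = c * (L.A v.2 + L.Q γ v.2))
    (h2 : ∀ v w, omegaL n (D v) (D w) = c * (dF v * (L.A w.2 + L.Q γ w.2) -
      dF w * (L.A v.2 + L.Q γ v.2) + (L.Q v.2 w.2 - L.Q w.2 v.2))) :
    (y, D) ∈ Inv n Γ ∧ IsChar y D (1, 0) (dF (1, 0)) := by
  constructor
  · have hinj : Function.Injective (MM (y, D)) := by
      rw [injective_iff_map_eq_zero]
      rintro ⟨Z, lam, mu⟩ h0
      have e2 := MM_snd (y, D) (Z, lam, mu)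
      rw [h0, Prod.ext_iff] at e2
      have a0 : L.A Z.2 + L.Q γ Z.2 = 0 := by
        have : c * (L.A Z.2 + L.Q γ Z.2) = 0 := by rw [← h1]; exact e2.1.symm
        exact (mul_eq_zero.mp this).resolve_left hc
      have e1 : ∀ v : ℝ × Γ, c * (dF Z * (L.A v.2 + L.Q γ v.2) + (L.Q Z.2 v.2 - L.Q v.2 Z.2)) -
          lam * (c * (L.A v.2 + L.Q γ v.2)) - mu * v.1 = 0 := fun v => by
        have := MM_fst (y, D) (Z, lam, mu) v
        rw [h0] at this
        simp only [h1, h2, a0] at this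
        simpa using this.symm
      have m0 : mu = 0 := by simpa using e1 (1, 0)
      have l0 : dF Z = lam := by
        have := e1 (0, L.e)
        simp only [L.A_e, L.Q_e, L.e_Q] at this
        have h3 : c * (dF Z - lam) = 0 := by linarith
        linarith [(mul_eq_zero.mp h3).resolve_left hc]
      have z2 : Z.2 = 0 := L.nondeg γ Z.2 a0 fun g' => by
        have := e1 (0, g')
        rw [l0] at this
        have h3 : c * (L.Q Z.2 g' - L.Q g' Z.2) = 0 := by simp only at this; linarith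
        exact (mul_eq_zero.mp h3).resolve_left hc
      have z0 : Z = 0 := Prod.ext e2.2.symm z2
      rw [z0, map_zero] at l0
      rw [z0, ← l0, m0]
      rfl
    have hdim : Module.finrank ℝ ((ℝ × Γ) × ℝ × ℝ) =
        Module.finrank ℝ (((ℝ × Γ) →L[ℝ] ℝ) × ℝ × ℝ) := by
      rw [Module.finrank_prod, Module.finrank_prod (M := (ℝ × Γ) →L[ℝ] ℝ),
        ← (LinearMap.toContinuousLinearMap (𝕜 := ℝ) (E := ℝ × Γ) (F' := ℝ)).finrank_eq,
        Subspace.dual_finrank_eq]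
    exact ⟨((MM (y, D)).toLinearMap.linearEquivOfInjective hinj hdim).toContinuousLinearEquiv,
      ContinuousLinearMap.ext fun x => rfl⟩
  · refine ⟨rfl, by simp [h1], fun v => ?_⟩
    rw [h2, h1]
    simp
    ring

theorem omega_of_pullback (L : Lin Γ) {ι : ℝ × Γ → Jet n} {F : ℝ × Γ → ℝ} {e : ℝ × Γ}
    (hι : ContDiffAt ℝ ∞ ι e) (hF : DifferentiableAt ℝ F e)
    (h : ∀ᶠ e' in 𝓝 e, ∀ v, alpha (ι e') (fderiv ℝ ι e' v) =
      Real.exp (F e') * (L.A v.2 + L.Q e'.2 v.2)) (v w : ℝ × Γ) :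
    omegaL n (fderiv ℝ ι e v) (fderiv ℝ ι e w) = Real.exp (F e) *
      (fderiv ℝ F e v * (L.A w.2 + L.Q e.2 w.2) - fderiv ℝ F e w * (L.A v.2 + L.Q e.2 v.2) +
        (L.Q v.2 w.2 - L.Q w.2 v.2)) := by
  have d1 : HasFDerivAt ι (fderiv ℝ ι e) e := (hι.differentiableAt (by simp)).hasFDerivAt
  have d2 : HasFDerivAt (fderiv ℝ ι) (fderiv ℝ (fderiv ℝ ι) e) e :=
    ((hι.fderiv_right (m := 1) (by norm_cast)).differentiableAt (by simp)).hasFDerivAt
  have key : ∀ v w : ℝ × Γ, qp n (fderiv ℝ ι e v) (fderiv ℝ ι e w) +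
      alpha (ι e) (fderiv ℝ (fderiv ℝ ι) e v w) =
      Real.exp (F e) * (fderiv ℝ F e v * (L.A w.2 + L.Q e.2 w.2) + L.Q v.2 w.2) := by
    intro v w
    have a1 : HasFDerivAt (fun e' => fderiv ℝ ι e' w)
        ((ContinuousLinearMap.apply ℝ (Jet n) w).comp (fderiv ℝ (fderiv ℝ ι) e)) e :=
      (ContinuousLinearMap.apply ℝ (Jet n) w).hasFDerivAt.comp e d2
    have a2 := (a1.fst).add (((qp n).hasFDerivAt.comp e d1).clm_apply a1)
    have b1 := (hF.hasFDerivAt.exp).mul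
      ((((L.Q.flip w.2).hasFDerivAt.comp e hasFDerivAt_snd)).const_add (L.A w.2))
    have ee : (fun e' => (fderiv ℝ ι e' w).1 + qp n (ι e') (fderiv ℝ ι e' w)) =ᶠ[𝓝 e]
        fun e' => Real.exp (F e') * (L.A w.2 + L.Q e'.2 w.2) := by
      filter_upwards [h] with e' he'
      rw [← he' w, alpha_eq]
    have u := (a2.congr_of_eventuallyEq ee.symm).unique b1
    have := congrArg (fun T => T v) u
    simp at this
    rw [alpha_eq]
    linarith
  have hs := (hι.isSymmSndFDerivAt (by simp; norm_cast)).eq v w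
  have k1 := key v w
  have k2 := key w v
  rw [hs] at k1
  rw [omegaL_apply]
  linarith

end Pool.Agent.Lib.MP_2d5ab3_gt
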