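import Pool.Agent.Lib.MP_2d5ab3_gt.Flows

/-!
The return maps of the unperturbed characteristic flow.
-/

open scoped ContDiff Topology
open Set Filter Metric Complex

namespace Pool.Agent.Lib.MP_2d5ab3_gt

theorem chiP_one {s : ℝ} (h : 4 / 5 < s) : chiP s = 1 :=
  Real.smoothTransition.one_of_one_le (by linarith)

theorem chiP_zero {s : ℝ} (h : s < 7 / 10) : chiP s = 0 :=
  Real.smoothTransition.zero_of_nonpos (by linarith)

theorem chiM_one {s : ℝ} (h : s < 1 / 5) : chiM s = 1 :=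
  Real.smoothTransition.one_of_one_le (by linarith)

theorem chiM_zero {s : ℝ} (h : 3 / 10 < s) : chiM s = 0 :=
  Real.smoothTransition.zero_of_nonpos (by linarith)

theorem open_gt (c : ℝ) : IsOpen {γ : Gam | c < γ.2.1.2.2} := isOpen_lt continuous_const (by fun_prop)

theorem open_lt (c : ℝ) : IsOpen {γ : Gam | γ.2.1.2.2 < c} := isOpen_lt (by fun_prop) continuous_const

theorem StepP.congr {ς t₁ t₂ t₁' t₂' : ℝ} {O : Set Gam} {Φ Φ' : Gam → Gam} {F F' : Gam → ℝ}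
    (h : StepP ς t₁ t₂ O Φ F) (h1 : t₁ = t₁') (h2 : t₂ = t₂') (h3 : ∀ γ, Φ γ = Φ' γ)
    (h4 : ∀ γ, F γ = F' γ) : StepP ς t₁' t₂' O Φ' F' := by
  obtain rfl : Φ = Φ' := funext h3
  obtain rfl : F = F' := funext h4
  subst h1 h2
  exact h

theorem norm_gz {z : ℂ} (h : 1 / 4 ≤ normSq z) : ‖gz z‖ = 1 := by
  have h0 : normSq z ≠ 0 := by linarith
  rw [gz_eq h, norm_smul, norm_mul, ← sq, Complex.sq_norm, Real.norm_of_nonneg (by positivity),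
    inv_mul_cancel₀ h0]

theorem norm_Gf (θ : ℝ) {z : ℂ} (h : 1 / 4 ≤ normSq z) : ‖Gf θ z‖ = 1 := by
  have := norm_exp_ofReal_mul_I (2 * θ)
  push_cast at this
  rw [Gf, norm_mul, norm_gz h, this, one_mul]

theorem abs_ip_le (p q : ℂ) : |ip p q| ≤ ‖p‖ * ‖q‖ := by
  have : ip p q = (p * (starRingEnd ℂ) q).re := by simp [ip]
  rw [this]
  exact (abs_re_le_norm _).trans (by rw [norm_mul, norm_conj])

theorem abs_ipG (θ : ℝ) {z : ℂ} (q : ℂ) (h : 1 / 4 ≤ normSq z) : |ip q (I * Gf θ z)| ≤ ‖q‖ := by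
  have := abs_ip_le q (I * Gf θ z)
  rwa [norm_mul, norm_I, norm_Gf θ h, mul_one, mul_one] at this

noncomputable def fS (γ : Gam) : Gam :=
  (γ.1, (γ.2.1.1, γ.2.1.2.1, γ.2.1.2.2 * 9 / (1 + γ.2.1.2.2 * 8)),
    γ.2.2.1, γ.2.2.2.1, γ.2.2.2.2 * (1 + γ.2.1.2.2 * 8) ^ 2 / 9)

noncomputable def m10 (γ : Gam) : ℝ := 18 * ip γ.2.2.2.1 (I * Gf γ.1 γ.2.1.1)

noncomputable def f1 (γ : Gam) : Gam :=
  (γ.1, (γ.2.1.1, (1 / 10 : ℝ) • γ.2.1.2.1 + (9 / 10 : ℝ) • Gf γ.1 γ.2.1.1, γ.2.1.2.2),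
    (1 - m10 γ)⁻¹ • (γ.2.2.1 - m10 γ • ez γ.2.1.1), (10 * (1 - m10 γ)⁻¹) • γ.2.2.2.1,
    (1 - m10 γ)⁻¹ * γ.2.2.2.2)

noncomputable def f2 (γ : Gam) : Gam :=
  (2 * γ.1 - Ang γ.2.1.1 γ.2.1.2.1, γ.2.1, (2 : ℝ) • γ.2.2.1 - (2 : ℝ) • ez γ.2.1.1,
    (2 : ℝ) • γ.2.2.2.1 + ez γ.2.1.2.1, 2 * γ.2.2.2.2)

def f3 (γ : Gam) : Gam :=
  (γ.1, (γ.2.1.2.1, -γ.2.1.1, γ.2.1.2.2), γ.2.2.2.1, -γ.2.2.1, γ.2.2.2.2)

noncomputable def fK (γ : Gam) : Gam :=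
  (γ.1 + (γ.2.1.2.2 - 1 / 2) ^ 2 / 2, γ.2.1, γ.2.2.1, γ.2.2.2.1, γ.2.2.2.2 - (γ.2.1.2.2 - 1 / 2))

noncomputable def bS (γ : Gam) : Gam :=
  (γ.1, (γ.2.1.1, γ.2.1.2.1, γ.2.1.2.2 * 9⁻¹ / (1 + γ.2.1.2.2 * (9⁻¹ - 1))),
    γ.2.2.1, γ.2.2.2.1, γ.2.2.2.2 * (1 + γ.2.1.2.2 * (9⁻¹ - 1)) ^ 2 / 9⁻¹)

noncomputable def bN (γ : Gam) : Gam :=
  (γ.1 * Real.exp 1, (1 + Real.exp 1 ^ 2 • (γ.2.1.1 - 1), Real.exp 1 ^ 2 • γ.2.1.2.1, γ.2.1.2.2),
    Real.exp (-1) • γ.2.2.1, Real.exp (-1) • γ.2.2.2.1, Real.exp 1 * γ.2.2.2.2)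

theorem exp_mem {T x : ℝ} (hT : 1 ≤ T) (hx : x ∈ Icc (0 : ℝ) 1) :
    1 ≤ Real.exp (Real.log T * x) ∧ Real.exp (Real.log T * x) ≤ T := by
  have h0 := Real.log_nonneg hT
  refine ⟨Real.one_le_exp (mul_nonneg h0 hx.1), ?_⟩
  calc Real.exp (Real.log T * x) ≤ Real.exp (Real.log T) :=
        Real.exp_le_exp.mpr (by nlinarith [hx.2])
    _ = T := Real.exp_log (by linarith)

theorem stepS : StepP 1 (Real.pi + Real.pi / 2) 0 {γ | 0 < γ.2.1.2.2} fS (fun _ => 0) := by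
  refine ((flowS.fwd (T := Real.log 9) win3 isOpen_univ (fun γ _ => rfl) (open_gt 0)
    (fun γ hγ x hx => ⟨?_, trivial⟩)).congr rfl (by ring : _ = 0 + 2 * Real.pi) (fun γ => ?_)
      (fun γ => ?_)).per_right
  · have h1 := (exp_mem (T := 9) (by norm_num) hx).1
    have h2 : 0 < γ.2.1.2.2 := hγ
    change 0 < 1 + γ.2.1.2.2 * (Real.exp (Real.log 9 * x) - 1)
    nlinarith
  · simp only [flowS, PhiS, fS, Real.exp_log (by norm_num : (0 : ℝ) < 9)]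
    norm_num
  · simp [flowS]

def O1 : Set Gam := {γ | 1 / 4 < normSq γ.2.1.1} ∩ {γ | ‖γ.2.2.2.1‖ < 1 / 20} ∩ {γ | 4 / 5 < γ.2.1.2.2}

theorem step1 : StepP 1 0 (Real.pi / 2) O1 f1 (fun γ => -Real.log (1 - m10 γ)) := by
  have e : ∀ γ, mm (Real.log 10, γ) = m10 γ := fun γ => by
    simp only [mm, m10, Real.exp_log (by norm_num : (0 : ℝ) < 10)]
    norm_num
  refine (flow1.fwd (T := Real.log 10) (O := O1) win0 (open_gt (4 / 5)) (fun γ hγ => ?_)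
    (((isOpen_lt continuous_const (by fun_prop)).inter
      (isOpen_lt (by fun_prop) continuous_const)).inter (open_gt _))
    (fun γ hγ x hx => ⟨⟨hγ.1.1, ?_⟩, hγ.2⟩)).congr rfl (zero_add _) (fun γ => ?_) (fun γ => ?_)
  · have h : 4 / 5 < γ.2.1.2.2 := hγ
    simp only [hk, flow1, chiP_one h, chiM_zero (s := γ.2.1.2.2) (by linarith)]
    ring
  · obtain ⟨h1, h2⟩ := exp_mem (T := 10) (by norm_num) hx
    have h3 := abs_le.mp (abs_ipG γ.1 γ.2.2.2.1 (le_of_lt hγ.1.1))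
    have h4 : ‖γ.2.2.2.1‖ < 1 / 20 := hγ.1.2
    change 0 < 1 - 2 * (Real.exp (Real.log 10 * x) - 1) * ip γ.2.2.2.1 (I * Gf γ.1 γ.2.1.1)
    nlinarith [h3.2, norm_nonneg γ.2.2.2.1]
  · simp only [flow1, Phi1, f1, e, Real.exp_neg, Real.exp_log (by norm_num : (0 : ℝ) < 10)]
    norm_num
  · simp only [flow1, e]

def O2 : Set Gam := {γ | 1 / 4 < normSq γ.2.1.1} ∩
  {γ | 1 / 2 < (γ.2.1.2.1 * (starRingEnd ℂ) (gz γ.2.1.1)).re} ∩ {γ | 4 / 5 < γ.2.1.2.2}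

theorem step2 : StepP 1 (Real.pi / 2) Real.pi O2 f2 (fun _ => Real.log 2) := by
  refine (flow2.fwd (T := Real.log 2) (O := O2) win1 (open_gt (4 / 5)) (fun γ hγ => ?_)
    (((isOpen_lt continuous_const (by fun_prop)).inter
      (isOpen_lt continuous_const continuous_uu)).inter (open_gt _))
    (fun γ hγ x hx => ⟨hγ.1, hγ.2⟩)).congr rfl (add_halves _) (fun γ => ?_) (fun γ => ?_)
  · simp only [hk, flow2, chiP_one hγ, one_mul]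
  · simp only [flow2, Phi2, f2, Real.exp_log (by norm_num : (0 : ℝ) < 2)]
    norm_num
  · simp [flow2]

theorem step3 : StepP 1 Real.pi (Real.pi + Real.pi / 2) {γ | 4 / 5 < γ.2.1.2.2} f3 (fun _ => 0) := by
  refine (flow3.fwd (T := Real.pi / 2) win2 (open_gt (4 / 5)) (fun γ hγ => ?_) (open_gt _)
    (fun γ hγ x hx => ⟨trivial, hγ⟩)).congr rfl rfl (fun γ => ?_) (fun γ => ?_)
  · simp only [hk, flow3, chiP_one hγ, one_mul]
  · simp [flow3, Phi3, f3]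
  · simp [flow3]

theorem stepK : StepP 1 0 (Real.pi / 2) ({γ | 3 / 10 < γ.2.1.2.2} ∩ {γ | γ.2.1.2.2 < 7 / 10}) fK
    (fun _ => 0) := by
  refine (flowK.fwd (T := 1) win0 ((open_gt (3 / 10)).inter (open_lt (7 / 10))) (fun γ hγ => ?_)
    ((open_gt _).inter (open_lt _))
    (fun γ hγ x hx => ⟨trivial, hγ⟩)).congr rfl (zero_add _) (fun γ => ?_) (fun γ => ?_)
  · simp only [hk, flowK, chiP_zero hγ.2, chiM_zero hγ.1]
    ring
  · simp [flowK, PhiK, fK]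
  · simp [flowK]

theorem idle {t₀ : ℝ} {g : Gam → ℝ} (hw : Win t₀ (fun γ => chiP γ.2.1.2.2 * g γ)) :
    StepP 1 t₀ (t₀ + Real.pi / 2) {γ | γ.2.1.2.2 < 7 / 10} (fun γ => γ) (fun _ => 0) ∧
    StepP (-1) (t₀ + Real.pi / 2) t₀ {γ | γ.2.1.2.2 < 7 / 10} (fun γ => γ) (fun _ => 0) := by
  have h : ∀ γ ∈ {γ : Gam | γ.2.1.2.2 < 7 / 10}, chiP γ.2.1.2.2 * g γ = 0 * flowK.gen γ :=
    fun γ hγ => by rw [chiP_zero hγ, zero_mul, zero_mul]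
  exact ⟨(flowK.fwd hw (open_lt _) h (open_lt _) (fun γ hγ x hx => ⟨trivial, hγ⟩)).congr rfl rfl
      (fun γ => by simp [flowK, PhiK]) (fun γ => by simp [flowK]),
    (flowK.bwd hw (open_lt _) h (open_lt _) (fun γ hγ x hx => ⟨trivial, hγ⟩)).congr rfl rfl
      (fun γ => by simp [flowK, PhiK]) (fun γ => by simp [flowK])⟩

theorem backS : StepP (-1) 0 (Real.pi + Real.pi / 2) {γ | γ.2.1.2.2 < 1} bS (fun _ => 0) := by
  refine ((flowS.bwd (T := Real.log 9) win3 isOpen_univ (fun γ _ => rfl) (open_lt 1)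
    (fun γ hγ x hx => ⟨?_, trivial⟩)).congr (by ring : _ = 0 + 2 * Real.pi) rfl (fun γ => ?_)
      (fun γ => ?_)).per_left
  · have h1 : Real.exp (-(Real.log 9 * x)) ≤ 1 :=
      Real.exp_le_one_iff.mpr (by nlinarith [Real.log_nonneg (x := 9) (by norm_num), hx.1])
    have h2 : γ.2.1.2.2 < 1 := hγ
    have h3 := Real.exp_pos (-(Real.log 9 * x))
    change 0 < 1 + γ.2.1.2.2 * (Real.exp (-(Real.log 9 * x)) - 1)
    nlinarith
  · simp only [flowS, PhiS, bS, Real.exp_neg, Real.exp_log (by norm_num : (0 : ℝ) < 9)]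
  · simp [flowS]

theorem backN : StepP (-1) (Real.pi / 2) 0 {γ | γ.2.1.2.2 < 1 / 5} bN (fun _ => 1) := by
  refine (flowN.bwd (T := 1) win0 (open_lt (1 / 5)) (fun γ hγ => ?_) (open_lt _)
    (fun γ hγ x hx => ⟨trivial, hγ⟩)).congr (zero_add _) rfl (fun γ => ?_) (fun γ => ?_)
  · have h : γ.2.1.2.2 < 1 / 5 := hγ
    simp only [hk, flowN, chiM_one h, chiP_zero (s := γ.2.1.2.2) (by linarith)]
    ring
  · simp only [flowN, PhiN, bN, neg_neg]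
  · simp [flowN]

/-- The version of `StepP` for one compact set and a constant lower bound of the rate. -/
def Shadow (ς t₁ t₂ : ℝ) (K : Set Gam) (Φ : Gam → Gam) (c : ℝ) : Prop :=
  ContinuousOn Φ K ∧ ∃ R₀ : ℝ, ∀ R ≥ R₀, ∀ δ > 0, ∃ ε > 0, ∀ φ V U, Pert (Sig R) φ V U →
    C1Close (Sig R) ε φ → ∃ ψ : Gam → Gam, ContinuousOn ψ K ∧ ∀ γ ∈ K, dist (ψ γ) (Φ γ) ≤ δ ∧
      Rel φ V ς t₁ t₂ γ (ψ γ) c

theorem StepP.shadow {ς t₁ t₂ c : ℝ} {O K : Set Gam} {Φ : Gam → Gam} {F : Gam → ℝ}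
    (h : StepP ς t₁ t₂ O Φ F) (hK : IsCompact K) (hO : K ⊆ O) (hF : ∀ γ ∈ K, c + 1 / 4 ≤ F γ) :
    Shadow ς t₁ t₂ K Φ c := by
  obtain ⟨R₀, hR⟩ := h.2.2.2 K hO hK
  refine ⟨h.2.1.mono hO, R₀, fun R hR' δ hδ => ?_⟩
  obtain ⟨ε, hε, h1⟩ := hR R hR' (min δ (1 / 4)) (lt_min hδ (by norm_num))
  refine ⟨ε, hε, fun φ V U hP hc => ?_⟩
  obtain ⟨ψ, h2, h3⟩ := h1 φ V U hP hc
  exact ⟨ψ, h2, fun γ hγ => ⟨(h3 γ hγ).1.trans (min_le_left _ _),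
    (h3 γ hγ).2.mono (by linarith [hF γ hγ, min_le_right δ (1 / 4)])⟩⟩

theorem shadow_fwd {K : Set Gam} (hK : IsCompact K) (h : ∀ γ ∈ K, 0 < γ.2.1.2.2 ∧ fS γ ∈ O1 ∧
    f1 (fS γ) ∈ O2 ∧ Real.log (1 - m10 (fS γ)) ≤ 18 / 100) :
    Shadow 1 (Real.pi + Real.pi / 2) (Real.pi + Real.pi / 2) K (fun γ => f3 (f2 (f1 (fS γ))))
      (1 / 4) :=
  (stepS.comp (step1.comp (step2.comp step3))).shadow hK
    (fun γ hγ => ⟨(h γ hγ).1, (h γ hγ).2.1, (h γ hγ).2.2.1, (h γ hγ).2.2.1.2⟩)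
    (fun γ hγ => by linarith [(h γ hγ).2.2.2, Real.log_two_gt_d9])

theorem shadow_in {K : Set Gam} (hK : IsCompact K)
    (h : ∀ γ ∈ K, 3 / 10 < γ.2.1.2.2 ∧ γ.2.1.2.2 < 7 / 10) :
    Shadow 1 0 (Real.pi + Real.pi / 2) K fK (-1) :=
  (stepK.comp (((idle win1).1.congr rfl (add_halves _) (fun _ => rfl) (fun _ => rfl)).comp
    (idle win2).1)).shadow hK (fun γ hγ => ⟨h γ hγ, (h γ hγ).2, (h γ hγ).2⟩)
    (fun γ hγ => by norm_num)

theorem shadow_bwd {K : Set Gam} (hK : IsCompact K)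
    (h : ∀ γ ∈ K, γ.2.1.2.2 < 1 ∧ (bS γ).2.1.2.2 < 1 / 5) :
    Shadow (-1) 0 0 K (fun γ => bN (bS γ)) (1 / 4) :=
  (backS.comp ((idle win2).2.comp (((idle win1).2.congr (add_halves _) rfl (fun _ => rfl)
    (fun _ => rfl)).comp backN))).shadow hK
    (fun γ hγ => ⟨(h γ hγ).1, lt_trans (h γ hγ).2 (by norm_num), lt_trans (h γ hγ).2 (by norm_num),
      (h γ hγ).2⟩)
    (fun γ hγ => by norm_num)

theorem no_growth {v : ℕ → ℝ} {M c : ℝ} (hc : 0 < c) (hM : ∀ i, v i ≤ M)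
    (h : ∀ i, ∃ Λ, c ≤ Λ ∧ Real.exp Λ * v i < v (i + 1)) : v 0 ≤ 0 := by
  by_contra h0
  push Not at h0
  have key : ∀ i : ℕ, (1 + i * c) * v 0 ≤ v i := by
    intro i
    induction i with
    | zero => simp
    | succ i ih =>
      obtain ⟨Λ, h1, h2⟩ := h i
      have h3 : 1 + c ≤ Real.exp Λ := by linarith [Real.add_one_le_exp Λ]
      have h4 : 0 ≤ (i : ℝ) * c * v 0 := by positivity
      have h5 : v 0 ≤ v i := by linarith
      push_cast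
      nlinarith
  obtain ⟨i, hi⟩ := exists_nat_gt (M / (c * v 0))
  rw [div_lt_iff₀ (by positivity)] at hi
  linarith [key i, hM i]

theorem orbit_le {R : ℝ} (hR : 0 ≤ R) {φ V : Jet 6 → Jet 6} {U : Set (Jet 6)}
    (hP : Pert (Sig R) φ V U) {ς t c : ℝ} (hc : 0 < c) {N : Set Gam} (hN : ∀ γ ∈ N, Rad γ ≤ R)
    {f : Gam → Gam} (hf : ∀ γ ∈ N, Rel φ V ς t t γ (f γ) c) {γ : Gam} {σ : ℝ}
    (ho : ∀ i, f^[i] γ ∈ N) (hσ : St φ V t γ σ) : ς * σ * uu φ V t γ ≤ 0 := by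
  have hK : IsCompact (φ '' Sig R) := (isCompact_Sig hR).image_of_continuousOn
    fun x hx => (hP.smooth x hx).continuousAt.continuousWithinAt
  have hcont : ContinuousOn (fun y => ς * σ * alpha y (V y)) (φ '' Sig R) :=
    continuousOn_const.mul (contDiff_alpha.continuous.comp_continuousOn
      (continuousOn_id.prodMk (hP.contact.1.continuousOn.mono hP.sub)))
  obtain ⟨M, hM⟩ := (hK.image_of_continuousOn hcont).bddAbove
  have hS : ∀ i, St φ V t (f^[i] γ) σ := by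
    intro i
    induction i with
    | zero => exact hσ
    | succ i ih =>
      rw [Function.iterate_succ_apply']
      exact ((hf _ (ho i)).2 σ ih).1
  refine no_growth (v := fun i => ς * σ * uu φ V t (f^[i] γ)) (M := M) hc
    (fun i => hM ⟨_, ⟨_, par_mem t (hN _ (ho i)), rfl⟩, rfl⟩) fun i => ?_
  obtain ⟨Λ, h1, h2⟩ := ((hf _ (ho i)).2 σ (hS i)).2
  refine ⟨Λ, h1, ?_⟩
  simp only [Function.iterate_succ_apply']
  linarith

end Pool.Agent.Lib.MP_2d5ab3_gt
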