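import Pool.Agent.Lib.MP_2d5ab3_gt.Step

/-!
The explicit hypersurface in `ℝ^13`.
-/

open scoped ContDiff Topology
open Set Filter Metric Complex

namespace Pool.Agent.Lib.MP_2d5ab3_gt

section FunProp

variable {X : Type*} [NormedAddCommGroup X] [NormedSpace ℝ X] {x : X}

@[fun_prop] theorem cd_re {f : X → ℂ} (hf : ContDiffAt ℝ ∞ f x) :
    ContDiffAt ℝ ∞ (fun x => (f x).re) x := reCLM.contDiff.contDiffAt.comp x hf

@[fun_prop] theorem cd_im {f : X → ℂ} (hf : ContDiffAt ℝ ∞ f x) :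
    ContDiffAt ℝ ∞ (fun x => (f x).im) x := imCLM.contDiff.contDiffAt.comp x hf

@[fun_prop] theorem cd_ofReal {f : X → ℝ} (hf : ContDiffAt ℝ ∞ f x) :
    ContDiffAt ℝ ∞ (fun x => ((f x : ℝ) : ℂ)) x := ofRealCLM.contDiff.contDiffAt.comp x hf

@[fun_prop] theorem cd_conj {f : X → ℂ} (hf : ContDiffAt ℝ ∞ f x) :
    ContDiffAt ℝ ∞ (fun x => (starRingEnd ℂ) (f x)) x := conjCLE.contDiff.contDiffAt.comp x hf

@[fun_prop] theorem cd_normSq {f : X → ℂ} (hf : ContDiffAt ℝ ∞ f x) :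
    ContDiffAt ℝ ∞ (fun x => normSq (f x)) x := by
  simp only [normSq_apply]; fun_prop

@[fun_prop] theorem cd_arctan {f : X → ℝ} (hf : ContDiffAt ℝ ∞ f x) :
    ContDiffAt ℝ ∞ (fun x => Real.arctan (f x)) x := Real.contDiff_arctan.contDiffAt.comp x hf

@[fun_prop] theorem cd_mk {f g : X → ℝ} (hf : ContDiffAt ℝ ∞ f x) (hg : ContDiffAt ℝ ∞ g x) :
    ContDiffAt ℝ ∞ (fun x => (⟨f x, g x⟩ : ℂ)) x := by
  have : (fun x => (⟨f x, g x⟩ : ℂ)) = fun x => (f x : ℂ) + (g x : ℂ) * I := by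
    funext x; apply Complex.ext <;> simp
  rw [this]; fun_prop

@[fun_prop] theorem cd_glue {f : X → ℝ} (hf : ContDiffAt ℝ ∞ f x) :
    ContDiffAt ℝ ∞ (fun x => expNegInvGlue (f x)) x :=
  expNegInvGlue.contDiff.contDiffAt.comp x hf

@[fun_prop] theorem cd_trans {f : X → ℝ} (hf : ContDiffAt ℝ ∞ f x) :
    ContDiffAt ℝ ∞ (fun x => Real.smoothTransition (f x)) x :=
  Real.smoothTransition.contDiff.contDiffAt.comp x hf

theorem fderiv_line {F : Type*} [NormedAddCommGroup F] [NormedSpace ℝ F] {f : X → F}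
    (hf : DifferentiableAt ℝ f x) (v : X) :
    HasDerivAt (fun r : ℝ => f (x + r • v)) (fderiv ℝ f x v) 0 := by
  have h1 : HasDerivAt (fun r : ℝ => x + r • v) v 0 := by
    simpa using ((hasDerivAt_id (0 : ℝ)).smul_const v).const_add x
  have h2 : HasFDerivAt f (fderiv ℝ f x) (x + (0 : ℝ) • v) := by simpa using hf.hasFDerivAt
  exact h2.comp_hasDerivAt (0 : ℝ) h1

theorem hd_fst {A B : Type*} [NormedAddCommGroup A] [NormedSpace ℝ A] [NormedAddCommGroup B]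
    [NormedSpace ℝ B] {f : ℝ → A × B} {f' : A × B} {t : ℝ} (h : HasDerivAt f f' t) :
    HasDerivAt (fun r => (f r).1) f'.1 t :=
  (ContinuousLinearMap.fst ℝ A B).hasFDerivAt.comp_hasDerivAt t h

theorem hd_snd {A B : Type*} [NormedAddCommGroup A] [NormedSpace ℝ A] [NormedAddCommGroup B]
    [NormedSpace ℝ B] {f : ℝ → A × B} {f' : A × B} {t : ℝ} (h : HasDerivAt f f' t) :
    HasDerivAt (fun r => (f r).2) f'.2 t :=
  (ContinuousLinearMap.snd ℝ A B).hasFDerivAt.comp_hasDerivAt t h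

end FunProp

abbrev W3 : Type := ℂ × ℂ × ℝ

abbrev Gam : Type := ℝ × W3 × W3

def ip (p q : ℂ) : ℝ := p.re * q.re + p.im * q.im

def ip3 (p q : W3) : ℝ := ip p.1 q.1 + ip p.2.1 q.2.1 + p.2.2 * q.2.2

@[fun_prop] theorem cd_ip {X : Type*} [NormedAddCommGroup X] [NormedSpace ℝ X] {x : X}
    {f g : X → ℂ} (hf : ContDiffAt ℝ ∞ f x) (hg : ContDiffAt ℝ ∞ g x) :
    ContDiffAt ℝ ∞ (fun x => ip (f x) (g x)) x := by
  unfold ip; fun_prop

noncomputable def QG : Gam →L[ℝ] Gam →L[ℝ] ℝ :=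
  LinearMap.toContinuousLinearMap
    ((LinearMap.toContinuousLinearMap (𝕜 := ℝ) (E := Gam) (F' := ℝ)).toLinearMap.comp
      (LinearMap.mk₂ ℝ (fun γ g : Gam => ip3 γ.2.2 g.2.1)
        (fun _ _ _ => by simp [ip3, ip]; ring) (fun _ _ _ => by simp [ip3, ip]; ring)
        (fun _ _ _ => by simp [ip3, ip]; ring) (fun _ _ _ => by simp [ip3, ip]; ring)))

theorem QG_apply (γ g : Gam) : QG γ g = ip3 γ.2.2 g.2.1 := rfl

noncomputable def LG : Lin Gam where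
  A := ContinuousLinearMap.fst ℝ ℝ _
  Q := QG
  e := (1, 0, 0)
  A_e := rfl
  Q_e := fun g => by simp [QG_apply, ip3, ip]
  e_Q := fun g => by simp [QG_apply, ip3, ip]
  nondeg := by
    rintro γ ⟨θ, ⟨z, w, s⟩, ⟨p, q, a⟩⟩ h0 h
    have h1 := h (0, 0, (1, 0, 0))
    have h2 := h (0, 0, (I, 0, 0))
    have h3 := h (0, 0, (0, 1, 0))
    have h4 := h (0, 0, (0, I, 0))
    have h5 := h (0, 0, (0, 0, 1))
    have h6 := h (0, (1, 0, 0), 0)
    have h7 := h (0, (I, 0, 0), 0)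
    have h8 := h (0, (0, 1, 0), 0)
    have h9 := h (0, (0, I, 0), 0)
    have h10 := h (0, (0, 0, 1), 0)
    simp [QG_apply, ip3, ip] at h0 h1 h2 h3 h4 h5 h6 h7 h8 h9 h10
    simp [h1, h2, h3, h4, h5] at h0
    simp [Prod.ext_iff, Complex.ext_iff, *]

/-- The contact form of `Gam`. -/
def aG (γ g : Gam) : ℝ := g.1 + ip3 γ.2.2 g.2.1

theorem LG_eq (γ g : Gam) : LG.A g + LG.Q γ g = aG γ g := rfl

theorem finrank_Gam : Module.finrank ℝ Gam + 1 = 2 * 6 := by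
  simp [Module.finrank_prod, Complex.finrank_real_complex]

noncomputable def emb (x : ℝ × Gam × ℝ) : Jet 6 :=
  (x.2.1.1,
    ![Real.exp x.2.1.2.1.2.2 * Real.cos x.1, Real.exp x.2.1.2.1.2.2 * Real.sin x.1,
      x.2.1.2.1.1.re, x.2.1.2.1.1.im, x.2.1.2.1.2.1.re, x.2.1.2.1.2.1.im],
    ![Real.exp (-x.2.1.2.1.2.2) * (x.2.1.2.2.2.2 * Real.cos x.1 - x.2.2 * Real.sin x.1),
      Real.exp (-x.2.1.2.1.2.2) * (x.2.1.2.2.2.2 * Real.sin x.1 + x.2.2 * Real.cos x.1),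
      x.2.1.2.2.1.re, x.2.1.2.2.1.im, x.2.1.2.2.2.1.re, x.2.1.2.2.2.1.im])

theorem contDiff_emb : ContDiff ℝ ∞ emb := by
  rw [contDiff_iff_contDiffAt]
  intro x
  refine ContDiffAt.prodMk (by fun_prop) (ContDiffAt.prodMk ?_ ?_)
  all_goals
    rw [contDiffAt_pi]
    intro i
    fin_cases i <;> simp <;> fun_prop

theorem fderiv_emb (x v : ℝ × Gam × ℝ) :
    (fderiv ℝ emb x v).1 = v.2.1.1 ∧
    (fderiv ℝ emb x v).2.1 = ![Real.exp x.2.1.2.1.2.2 * (v.2.1.2.1.2.2 * Real.cos x.1 -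
        v.1 * Real.sin x.1), Real.exp x.2.1.2.1.2.2 * (v.2.1.2.1.2.2 * Real.sin x.1 +
        v.1 * Real.cos x.1),
      v.2.1.2.1.1.re, v.2.1.2.1.1.im, v.2.1.2.1.2.1.re, v.2.1.2.1.2.1.im] := by
  have h := fderiv_line (contDiff_emb.differentiable (by simp) x) v
  have lin : ∀ a b : ℝ, HasDerivAt (fun r : ℝ => a + r * b) b 0 := fun a b => by
    simpa using ((hasDerivAt_id (0 : ℝ)).mul_const b).const_add a
  constructor
  · refine (hd_fst h).unique ?_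
    simpa [emb] using lin x.2.1.1 v.2.1.1
  · funext i
    have hi := (hasDerivAt_pi.mp (hd_fst (hd_snd h))) i
    refine hi.unique ?_
    fin_cases i
    · simp only [emb]
      refine HasDerivAt.congr_deriv (by
        simpa using (lin x.2.1.2.1.2.2 v.2.1.2.1.2.2).exp.fun_mul (lin x.1 v.1).cos) ?_
      simp; ring
    · simp only [emb]
      refine HasDerivAt.congr_deriv (by
        simpa using (lin x.2.1.2.1.2.2 v.2.1.2.1.2.2).exp.fun_mul (lin x.1 v.1).sin) ?_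
      simp; ring
    · simpa [emb] using lin x.2.1.2.1.1.re v.2.1.2.1.1.re
    · simpa [emb] using lin x.2.1.2.1.1.im v.2.1.2.1.1.im
    · simpa [emb] using lin x.2.1.2.1.2.1.re v.2.1.2.1.2.1.re
    · simpa [emb] using lin x.2.1.2.1.2.1.im v.2.1.2.1.2.1.im

theorem alpha_emb (x v : ℝ × Gam × ℝ) :
    alpha (emb x) (fderiv ℝ emb x v) = aG x.2.1 v.2.1 + x.2.2 * v.1 := by
  obtain ⟨h1, h2⟩ := fderiv_emb x v
  rw [alpha, h1, h2]
  simp only [emb, aG, ip3, ip, Fin.sum_univ_six]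
  simp only [Matrix.cons_val_zero, Matrix.cons_val_one, Matrix.cons_val]
  have e1 : Real.exp (-x.2.1.2.1.2.2) * Real.exp x.2.1.2.1.2.2 = 1 := by
    rw [← Real.exp_add]; simp
  have e2 := Real.sin_sq_add_cos_sq x.1
  linear_combination (x.2.1.2.2.2.2 * v.2.1.2.1.2.2 + x.2.2 * v.1) *
    (Real.sin x.1 ^ 2 + Real.cos x.1 ^ 2) * e1 + (x.2.1.2.2.2.2 * v.2.1.2.1.2.2 + x.2.2 * v.1) * e2

theorem time_emb (x v : ℝ × Gam × ℝ) (h : fderiv ℝ emb x v = 0) : v.1 = 0 := by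
  obtain ⟨-, h2⟩ := fderiv_emb x v
  rw [h] at h2
  have h3 := congrFun h2 0
  have h4 := congrFun h2 1
  simp only [Prod.snd_zero, Prod.fst_zero, Pi.zero_apply, Matrix.cons_val_zero,
    Matrix.cons_val_one] at h3 h4
  have h5 := (mul_eq_zero.mp h3.symm).resolve_left (Real.exp_pos _).ne'
  have h6 := (mul_eq_zero.mp h4.symm).resolve_left (Real.exp_pos _).ne'
  have e2 := Real.sin_sq_add_cos_sq x.1
  linear_combination (-Real.sin x.1) * h5 + Real.cos x.1 * h6 - v.1 * e2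

noncomputable def m1 (ρ : ℝ) : ℝ := ρ + (1 - Real.smoothTransition (4 * ρ))

noncomputable def m2 (x : ℝ) : ℝ :=
  x * Real.smoothTransition (2 * x) + (1 - Real.smoothTransition (2 * x))

theorem m1_pos {ρ : ℝ} (h : 0 ≤ ρ) : 0 < m1 ρ := by
  unfold m1
  rcases h.lt_or_eq with h | h
  · linarith [Real.smoothTransition.le_one (4 * ρ)]
  · subst h; simp

theorem m1_eq {ρ : ℝ} (h : 1 / 4 ≤ ρ) : m1 ρ = ρ := by
  rw [m1, Real.smoothTransition.one_of_one_le (by linarith)]; ring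

theorem m2_eq {x : ℝ} (h : 1 / 2 ≤ x) : m2 x = x := by
  rw [m2, Real.smoothTransition.one_of_one_le (by linarith)]; ring

theorem m2_pos (x : ℝ) : 0 < m2 x := by
  rcases le_total x 0 with h | h
  · rw [m2, Real.smoothTransition.zero_of_nonpos (by linarith)]; simp
  · rcases lt_or_ge x (1 / 2) with h' | h'
    · have h1 := Real.smoothTransition.lt_one_of_lt_one (x := 2 * x) (by linarith)
      have h2 := mul_nonneg h (Real.smoothTransition.nonneg (2 * x))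
      unfold m2; linarith
    · rw [m2_eq h']; linarith

noncomputable def gz (z : ℂ) : ℂ := z ^ 2 * ((m1 (normSq z))⁻¹ : ℝ)

noncomputable def Gf (θ : ℝ) (z : ℂ) : ℂ := gz z * exp (2 * θ * I)

noncomputable def Ang (z w : ℂ) : ℝ :=
  Real.arctan ((w * (starRingEnd ℂ) (gz z)).im / m2 (w * (starRingEnd ℂ) (gz z)).re)

section

variable {X : Type*} [NormedAddCommGroup X] [NormedSpace ℝ X] {x : X}

@[fun_prop] theorem cd_gz {f : X → ℂ} (hf : ContDiffAt ℝ ∞ f x) :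
    ContDiffAt ℝ ∞ (fun x => gz (f x)) x := by
  have h1 : ContDiffAt ℝ ∞ (fun x => (m1 (normSq (f x)))⁻¹) x :=
    ContDiffAt.inv (by unfold m1; fun_prop) (m1_pos (normSq_nonneg _)).ne'
  unfold gz
  exact (hf.pow 2).mul (cd_ofReal h1)

@[fun_prop] theorem cd_Gf {f : X → ℝ} {g : X → ℂ} (hf : ContDiffAt ℝ ∞ f x)
    (hg : ContDiffAt ℝ ∞ g x) : ContDiffAt ℝ ∞ (fun x => Gf (f x) (g x)) x := by
  unfold Gf; fun_prop

@[fun_prop] theorem cd_Ang {f g : X → ℂ} (hf : ContDiffAt ℝ ∞ f x) (hg : ContDiffAt ℝ ∞ g x) :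
    ContDiffAt ℝ ∞ (fun x => Ang (f x) (g x)) x := by
  unfold Ang
  have hu := cd_re (hg.mul (cd_conj (cd_gz hf)))
  have hm : ContDiff ℝ ∞ m2 := by unfold m2; fun_prop
  exact cd_arctan (ContDiffAt.div (cd_im (hg.mul (cd_conj (cd_gz hf))))
    (hm.contDiffAt.comp x hu) (m2_pos _).ne')

end

noncomputable def chiP (s : ℝ) : ℝ := Real.smoothTransition (10 * s - 7)

noncomputable def chiM (s : ℝ) : ℝ := Real.smoothTransition (3 - 10 * s)

noncomputable def gen1 (γ : Gam) : ℝ := ip γ.2.2.2.1 (Gf γ.1 γ.2.1.1 - γ.2.1.2.1)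

noncomputable def gen2 (γ : Gam) : ℝ := γ.1 - Ang γ.2.1.1 γ.2.1.2.1

def gen3 (γ : Gam) : ℝ := ip γ.2.2.1 γ.2.1.2.1 - ip γ.2.2.2.1 γ.2.1.1

def genS (γ : Gam) : ℝ := γ.2.2.2.2 * (γ.2.1.2.2 * (1 - γ.2.1.2.2))

def genN (γ : Gam) : ℝ := -γ.1 - 2 * ip γ.2.2.1 (γ.2.1.1 - 1) - 2 * ip γ.2.2.2.1 γ.2.1.2.1

noncomputable def genK (γ : Gam) : ℝ := (γ.2.1.2.2 - 1 / 2) ^ 2 / 2

/-- The Hamiltonians of the four time windows. -/
noncomputable def hk : ℕ → Gam → ℝ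
  | 0 => fun γ => chiP γ.2.1.2.2 * (Real.log 10 * gen1 γ) + chiM γ.2.1.2.2 * genN γ +
      (1 - chiP γ.2.1.2.2 - chiM γ.2.1.2.2) * genK γ
  | 1 => fun γ => chiP γ.2.1.2.2 * (Real.log 2 * gen2 γ)
  | 2 => fun γ => chiP γ.2.1.2.2 * (Real.pi / 2 * gen3 γ)
  | _ => fun γ => Real.log 9 * genS γ

theorem contDiff_hk (k : ℕ) : ContDiff ℝ ∞ (hk k) := by
  rw [contDiff_iff_contDiffAt]
  intro x
  match k with
  | 0 => unfold hk chiP chiM gen1 genN genK; fun_prop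
  | 1 => unfold hk chiP gen2; fun_prop
  | 2 => unfold hk chiP gen3; fun_prop
  | _ + 3 => unfold hk genS; fun_prop

noncomputable def Bp (c σ : ℝ) : ℝ := expNegInvGlue (c - 1 / 4) * expNegInvGlue (σ - 1 / 4)

noncomputable def c0 : ℝ := ∫ t in (0 : ℝ)..(Real.pi / 2), Bp (Real.cos t) (Real.sin t)

noncomputable def hh (x : ℝ × ℝ × Gam) : ℝ :=
  (Bp x.1 x.2.1 * hk 0 x.2.2 + Bp x.2.1 (-x.1) * hk 1 x.2.2 + Bp (-x.1) (-x.2.1) * hk 2 x.2.2 +
    Bp (-x.2.1) x.1 * hk 3 x.2.2) / c0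

theorem contDiff_hh : ContDiff ℝ ∞ hh := by
  have h := fun k => (contDiff_hk k).comp (contDiff_snd.comp contDiff_snd :
    ContDiff ℝ ∞ (fun x : ℝ × ℝ × Gam => x.2.2))
  have b : ∀ {f g : ℝ × ℝ × Gam → ℝ}, ContDiff ℝ ∞ f → ContDiff ℝ ∞ g →
      ContDiff ℝ ∞ (fun x => Bp (f x) (g x)) := fun hf hg => by
    unfold Bp; fun_prop
  unfold hh
  refine ContDiff.div_const (((ContDiff.add ?_ ?_).add ?_).add ?_) _
  · exact (b (by fun_prop) (by fun_prop)).mul (h 0)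
  · exact (b (by fun_prop) (by fun_prop)).mul (h 1)
  · exact (b (by fun_prop) (by fun_prop)).mul (h 2)
  · exact (b (by fun_prop) (by fun_prop)).mul (h 3)

end Pool.Agent.Lib.MP_2d5ab3_gt
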