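import Mathlib

/-!
Auxiliary analysis lemmas.
-/

open scoped Topology NNReal
open Set Filter Metric

namespace Pool.Agent.Lib.MP_2d5ab3_gt

theorem unif_near {X Y : Type*} [PseudoMetricSpace X] [PseudoMetricSpace Y] {K : Set X}
    (hK : IsCompact K) (g : X → Y) (hg : ∀ x ∈ K, ContinuousAt g x) {δ : ℝ} (hδ : 0 < δ) :
    ∃ ε > 0, ∀ x ∈ K, ∀ x', dist x' x ≤ ε → dist (g x') (g x) ≤ δ := by
  have h := hK.uniformContinuousAt_of_continuousAt g hg (Metric.dist_mem_uniformity hδ)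
  obtain ⟨ε, hε, h2⟩ := Metric.mem_uniformity_dist.mp h
  refine ⟨ε / 2, half_pos hε, fun x hx x' hx' => ?_⟩
  have h3 : dist x x' < ε := by rw [dist_comm]; linarith
  have h4 : dist (g x) (g x') < δ := h2 h3 hx
  rw [dist_comm]; exact h4.le

theorem open_near {X : Type*} [PseudoMetricSpace X] {K O : Set X} (hK : IsCompact K)
    (hO : IsOpen O) (h : K ⊆ O) : ∃ ε > 0, ∀ x ∈ K, ∀ x', dist x' x ≤ ε → x' ∈ O := by
  obtain ⟨ε, hε, h2⟩ := hK.exists_cthickening_subset_open hO h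
  exact ⟨ε, hε, fun x hx x' hx' => h2 (mem_cthickening_of_dist_le x' x ε K hx hx')⟩

/-- An open condition along the graph of a continuous map on a compact set is stable. -/
theorem graph_near {X Y : Type*} [PseudoMetricSpace X] [PseudoMetricSpace Y] {K : Set X}
    (hK : IsCompact K) {f : X → Y} (hf : ContinuousOn f K) {O : Set (X × Y)} (hO : IsOpen O)
    (h : ∀ x ∈ K, (x, f x) ∈ O) : ∃ ε > 0, ∀ x ∈ K, ∀ y, dist y (f x) ≤ ε → (x, y) ∈ O := by
  obtain ⟨ε, hε, h2⟩ := open_near (hK.image_of_continuousOn (continuousOn_id.prodMk hf)) hO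
    (by rintro _ ⟨x, hx, rfl⟩; exact h x hx)
  refine ⟨ε, hε, fun x hx y hy => h2 (x, f x) ⟨x, hx, rfl⟩ (x, y) ?_⟩
  rw [Prod.dist_eq, dist_self]
  exact max_le hε.le hy

theorem pos_of_ne_zero {f : ℝ → ℝ} {a b : ℝ} (hf : ContinuousOn f (Icc a b))
    (h0 : ∀ t ∈ Icc a b, f t ≠ 0) (ha : 0 < f a) : ∀ t ∈ Icc a b, 0 < f t := by
  intro t ht
  by_contra hc
  have h1 : (0 : ℝ) ∈ Icc (f t) (f a) := ⟨not_lt.mp hc, ha.le⟩
  obtain ⟨s, hs, hs0⟩ := intermediate_value_Icc' ht.1 (hf.mono (Icc_subset_Icc le_rfl ht.2)) h1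
  exact h0 s ⟨hs.1, hs.2.trans ht.2⟩ hs0

theorem ode_flow {Γ : Type*} [NormedAddCommGroup Γ] [NormedSpace ℝ Γ] [CompleteSpace Γ]
    (v : ℝ → Γ → Γ) {a b : ℝ} (hab : a ≤ b) (K K' : Set Γ) (r η L : ℝ≥0)
    (hK : ∀ γ ∈ K, closedBall γ r ⊆ K') (hL : ∀ t ∈ Icc a b, LipschitzOnWith L (v t) K')
    (hc : ∀ x ∈ K', ContinuousOn (v · x) (Icc a b))
    (hb : ∀ t ∈ Icc a b, ∀ x ∈ K', ‖v t x‖ ≤ η) (hη : η * (b - a) ≤ r) :
    ∃ ψ : Γ → ℝ → Γ, (∀ γ ∈ K, ψ γ a = γ ∧ ∀ t ∈ Icc a b,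
      HasDerivWithinAt (ψ γ) (v t (ψ γ t)) (Icc a b) t ∧ ψ γ t ∈ closedBall γ r) ∧
      ContinuousOn (fun γ => ψ γ b) K := by
  have ex : ∀ γ, ∃ α : ℝ → Γ, γ ∈ K → (α a = γ ∧ ∀ t ∈ Icc a b,
      HasDerivWithinAt α (v t (α t)) (Icc a b) t ∧ α t ∈ closedBall γ r) := by
    intro γ
    by_cases hγ : γ ∈ K
    swap
    · exact ⟨fun _ => γ, fun h => absurd h hγ⟩
    have hf : IsPicardLindelof v (tmin := a) (tmax := b) ⟨a, le_rfl, hab⟩ γ r 0 η L :=
      ⟨fun t ht => (hL t ht).mono (hK γ hγ), fun x hx => hc x (hK γ hγ hx),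
        fun t ht x hx => hb t ht x (hK γ hγ hx), by
          simp only [sub_self, NNReal.coe_zero, sub_zero]
          rw [max_eq_left (sub_nonneg.mpr hab)]
          exact hη⟩
    have hx : γ ∈ closedBall γ ((0 : ℝ≥0) : ℝ) := mem_closedBall_self le_rfl
    obtain ⟨α, hα⟩ := ODE.FunSpace.exists_isFixedPt_next hf hx
    refine ⟨α.compProj, fun _ => ⟨?_, fun t ht => ⟨?_, α.compProj_mem_closedBall hf.mul_max_le⟩⟩⟩
    · have := ODE.FunSpace.compProj_val (α := α) (t := ⟨a, le_rfl, hab⟩)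
      rw [this, ← hα, ODE.FunSpace.next_apply₀]
    · apply ODE.hasDerivWithinAt_picard_Icc (⟨a, le_rfl, hab⟩ : Icc a b).2 hf.continuousOn_uncurry
        α.continuous_compProj.continuousOn (fun _ _ ↦ α.compProj_mem_closedBall hf.mul_max_le)
        γ ht |>.congr_of_mem _ ht
      intro t' ht'
      nth_rw 1 [← hα]
      rw [ODE.FunSpace.compProj_of_mem ht', ODE.FunSpace.next_apply]
  choose ψ hψ using ex
  refine ⟨ψ, hψ, ?_⟩
  have lip : LipschitzOnWith (Real.toNNReal (Real.exp (L * (b - a)))) (fun γ => ψ γ b) K := by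
    refine LipschitzOnWith.of_dist_le_mul fun x hx y hy => ?_
    have cont : ∀ z ∈ K, ContinuousOn (ψ z) (Icc a b) := fun z hz t ht =>
      ((hψ z hz).2 t ht).1.continuousWithinAt
    have der : ∀ z ∈ K, ∀ t ∈ Ico a b, HasDerivWithinAt (ψ z) (v t (ψ z t)) (Ici t) t :=
      fun z hz t ht => ((hψ z hz).2 t (Ico_subset_Icc_self ht)).1.mono_of_mem_nhdsWithin
        (Icc_mem_nhdsGE_of_mem ht)
    have mem : ∀ z ∈ K, ∀ t ∈ Ico a b, ψ z t ∈ K' := fun z hz t ht =>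
      hK z hz ((hψ z hz).2 t (Ico_subset_Icc_self ht)).2
    have := dist_le_of_trajectories_ODE_of_mem (v := v) (s := fun _ => K') (K := L)
      (δ := dist x y) (fun t ht => hL t (Ico_subset_Icc_self ht)) (cont x hx) (der x hx) (mem x hx)
      (cont y hy) (der y hy) (mem y hy) (by rw [(hψ x hx).1, (hψ y hy).1]) b ⟨hab, le_rfl⟩
    rw [Real.coe_toNNReal _ (Real.exp_pos _).le, mul_comm]
    exact this
  exact lip.continuousOn

end Pool.Agent.Lib.MP_2d5ab3_gt
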