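import Pool.Agent.Lib.MP_2d5ab3_gt.Sigma

/-!
Time windows, and the perturbed return maps between time slices.
-/

open scoped ContDiff Topology
open Set Filter Metric Complex

namespace Pool.Agent.Lib.MP_2d5ab3_gt

theorem CS_comp {n : ℕ} {Γ : Type} [NormedAddCommGroup Γ] [NormedSpace ℝ Γ]
    [FiniteDimensional ℝ Γ] {y W : Jet n} {D : (ℝ × Γ) →L[ℝ] Jet n} {σ ς : ℝ}
    (A : (ℝ × Γ) →L[ℝ] (ℝ × Γ)) (hA : Function.Injective A) (hς : ς * ς = 1)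
    (h1 : ∀ v, (A v).1 = ς * v.1) : CS y (D.comp A) W σ ↔ CS y D W (ς * σ) := by
  have hs : Function.Surjective A :=
    (LinearMap.injective_iff_surjective (f := (A : (ℝ × Γ) →ₗ[ℝ] (ℝ × Γ)))).mp hA
  constructor
  · rintro ⟨Z, lam, ⟨a1, a2, a3⟩, hp⟩
    simp only [ContinuousLinearMap.comp_apply] at a2 a3 hp
    refine ⟨ς • A Z, ς * lam, ⟨?_, ?_, fun v => ?_⟩, ?_⟩
    · rw [Prod.smul_fst, h1, a1, smul_eq_mul, mul_one, hς]
    · rw [map_smul, ← alphaL_apply, map_smul, alphaL_apply, a2, smul_zero]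
    · obtain ⟨v, rfl⟩ := hs v
      rw [map_smul, map_smul, smul_apply, a3, smul_eq_mul, mul_assoc]
    · rw [map_smul, map_smul, smul_apply, smul_eq_mul]
      have : ς * σ * (ς * omegaL n (D (A Z)) W - ς * lam * alpha y W) =
          (ς * ς) * (σ * (omegaL n (D (A Z)) W - lam * alpha y W)) := by ring
      rw [this, hς, one_mul]
      exact hp
  · rintro ⟨Z, lam, ⟨a1, a2, a3⟩, hp⟩
    obtain ⟨Z', hZ'⟩ := hs (ς • Z)
    refine ⟨Z', ς * lam, ⟨?_, ?_, fun v => ?_⟩, ?_⟩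
    · have h2 := h1 Z'
      rw [hZ', Prod.smul_fst, a1, smul_eq_mul] at h2
      linear_combination (-ς) * h2 - (Z'.1 - 1) * hς
    · rw [ContinuousLinearMap.comp_apply, hZ', map_smul, ← alphaL_apply, map_smul, alphaL_apply, a2,
        smul_zero]
    · simp only [ContinuousLinearMap.comp_apply]
      rw [hZ', map_smul, map_smul, smul_apply, a3, smul_eq_mul, mul_assoc]
    · simp only [ContinuousLinearMap.comp_apply]
      rw [hZ', map_smul, map_smul, smul_apply, smul_eq_mul]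
      have : σ * (ς * omegaL n (D Z) W - ς * lam * alpha y W) =
          ς * σ * (omegaL n (D Z) W - lam * alpha y W) := by ring
      rw [this]
      exact hp

noncomputable def kap (t : ℝ) : ℝ := Bp (Real.cos t) (Real.sin t) / c0

noncomputable def bet (t : ℝ) : ℝ := ∫ s in (0 : ℝ)..t, kap s

theorem contDiff_Bp : ContDiff ℝ ∞ (fun t : ℝ => Bp (Real.cos t) (Real.sin t)) := by
  rw [contDiff_iff_contDiffAt]
  intro x
  unfold Bp; fun_prop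

theorem Bp_nonneg (c σ : ℝ) : 0 ≤ Bp c σ :=
  mul_nonneg (expNegInvGlue.nonneg _) (expNegInvGlue.nonneg _)

theorem c0_pos : 0 < c0 := by
  have hp := Real.pi_pos
  refine intervalIntegral.integral_pos (by linarith) contDiff_Bp.continuous.continuousOn
    (fun x _ => Bp_nonneg _ _) ⟨Real.pi / 4, ⟨by linarith, by linarith⟩, ?_⟩
  have h2 : (1 : ℝ) < Real.sqrt 2 := by
    rw [Real.lt_sqrt (by norm_num)]; norm_num
  rw [Real.cos_pi_div_four, Real.sin_pi_div_four]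
  exact mul_pos (expNegInvGlue.pos_of_pos (by linarith)) (expNegInvGlue.pos_of_pos (by linarith))

theorem contDiff_kap : ContDiff ℝ ∞ kap := contDiff_Bp.div_const _

theorem kap_nonneg (t : ℝ) : 0 ≤ kap t := div_nonneg (Bp_nonneg _ _) c0_pos.le

theorem hasDerivAt_bet (t : ℝ) : HasDerivAt bet (kap t) t :=
  (contDiff_kap.continuous.integral_hasStrictDerivAt 0 t).hasDerivAt

theorem contDiff_bet : ContDiff ℝ ∞ bet := by
  rw [contDiff_infty_iff_deriv]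
  refine ⟨fun t => (hasDerivAt_bet t).differentiableAt, ?_⟩
  have : deriv bet = kap := funext fun t => (hasDerivAt_bet t).deriv
  rw [this]
  exact contDiff_kap

theorem bet_zero : bet 0 = 0 := intervalIntegral.integral_same

theorem bet_half : bet (Real.pi / 2) = 1 := by
  unfold bet kap
  rw [intervalIntegral.integral_div]
  exact div_self c0_pos.ne'

theorem bet_mem {t : ℝ} (h : t ∈ Icc 0 (Real.pi / 2)) : bet t ∈ Icc (0 : ℝ) 1 := by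
  have mono : Monotone bet := monotone_of_deriv_nonneg (fun t => (hasDerivAt_bet t).differentiableAt)
    (fun t => by rw [(hasDerivAt_bet t).deriv]; exact kap_nonneg t)
  exact ⟨bet_zero ▸ mono h.1, bet_half ▸ mono h.2⟩

/-- On the window starting at `t₀` the Hamiltonian is `kap` times `H`. -/
def Win (t₀ : ℝ) (H : Gam → ℝ) : Prop :=
  ∀ t γ, -(1 / 4) < Real.cos t → -(1 / 4) < Real.sin t →
    hh (Real.cos (t₀ + t), Real.sin (t₀ + t), γ) = kap t * H γ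

theorem Bp_left {c : ℝ} (σ : ℝ) (h : -(1 / 4) < c) : Bp (-c) σ = 0 := by
  rw [Bp, expNegInvGlue.zero_of_nonpos (by linarith), zero_mul]

theorem Bp_right {σ : ℝ} (c : ℝ) (h : -(1 / 4) < σ) : Bp c (-σ) = 0 := by
  rw [Bp, expNegInvGlue.zero_of_nonpos (x := -σ - 1 / 4) (by linarith), mul_zero]

theorem win0 : Win 0 (hk 0) := fun t γ h1 h2 => by
  simp only [hh, kap, zero_add, Bp_left _ h1, Bp_left _ h2, Bp_right _ h1]
  ring

theorem win1 : Win (Real.pi / 2) (hk 1) := fun t γ h1 h2 => by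
  rw [add_comm, Real.cos_add_pi_div_two, Real.sin_add_pi_div_two]
  simp only [hh, kap, neg_neg, Bp_left _ h1, Bp_left _ h2, Bp_right _ h1]
  ring

theorem win2 : Win Real.pi (hk 2) := fun t γ h1 h2 => by
  rw [add_comm, Real.cos_add_pi, Real.sin_add_pi]
  simp only [hh, kap, neg_neg, Bp_left _ h1, Bp_left _ h2, Bp_right _ h1]
  ring

theorem win3 : Win (Real.pi + Real.pi / 2) (hk 3) := fun t γ h1 h2 => by
  rw [add_comm, add_comm Real.pi, ← add_assoc, Real.cos_add_pi, Real.sin_add_pi,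
    Real.cos_add_pi_div_two, Real.sin_add_pi_div_two]
  simp only [hh, kap, neg_neg, Bp_left _ h1, Bp_left _ h2, Bp_right _ h1]
  ring

noncomputable def JJ (e : ℝ × Gam) : Jet 6 := par (e.1, e.2, 0)

theorem contDiff_JJ : ContDiff ℝ ∞ JJ := contDiff_par.comp (by fun_prop)

theorem JJ_data (e v : ℝ × Gam) :
    alpha (JJ e) (fderiv ℝ JJ e v) = aG e.2 v.2 - hh (Real.cos e.1, Real.sin e.1, e.2) * v.1 ∧
      (fderiv ℝ JJ e v = 0 → v.1 = 0) := by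
  let g : ℝ × Gam → ℝ × Gam × ℝ := fun e => (e.1, e.2, 0 - hh (Real.cos e.1, Real.sin e.1, e.2))
  have h0 : DifferentiableAt ℝ (fun e : ℝ × Gam => 0 - hh (Real.cos e.1, Real.sin e.1, e.2)) e :=
    ((contDiff_const.sub (contDiff_hh.comp (by fun_prop))).differentiable (n := ∞) (by simp)) e
  have hg : HasFDerivAt g _ e := hasFDerivAt_fst.prodMk (hasFDerivAt_snd.prodMk h0.hasFDerivAt)
  have h1 : HasFDerivAt JJ _ e :=
    ((contDiff_emb.differentiable (by simp) (g e)).hasFDerivAt).comp e hg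
  rw [h1.fderiv, ContinuousLinearMap.comp_apply]
  refine ⟨?_, fun h => time_emb _ _ h⟩
  change alpha (emb (g e)) _ = _
  rw [alpha_emb]
  simp [g]
  ring

theorem JJ_per (t : ℝ) (γ : Gam) : JJ (t + 2 * Real.pi, γ) = JJ (t, γ) := by
  simp [JJ, par, emb]

section Rel

variable (φ V : Jet 6 → Jet 6)

/-- The side of the hypersurface on which `V` lies. -/
def St (t : ℝ) (γ : Gam) (σ : ℝ) : Prop :=
  CS (φ (JJ (t, γ))) (fderiv ℝ (φ ∘ JJ) (t, γ)) (V (φ (JJ (t, γ)))) σ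

/-- The contact Hamiltonian of `V`. -/
noncomputable def uu (t : ℝ) (γ : Gam) : ℝ := alpha (φ (JJ (t, γ))) (V (φ (JJ (t, γ))))

def Rel (ς t₁ t₂ : ℝ) (γ γ' : Gam) (c : ℝ) : Prop :=
  (∃ σ, St φ V t₁ γ σ) ∧ ∀ σ, St φ V t₁ γ σ → St φ V t₂ γ' σ ∧
    ∃ Λ, c ≤ Λ ∧ 0 < ς * σ * (uu φ V t₂ γ' - Real.exp Λ * uu φ V t₁ γ)

variable {φ V}

theorem uu_per (t : ℝ) (γ : Gam) : uu φ V (t + 2 * Real.pi) γ = uu φ V t γ := by
  simp only [uu, JJ_per]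

theorem St_per (t : ℝ) (γ : Gam) (σ : ℝ) : St φ V (t + 2 * Real.pi) γ σ ↔ St φ V t γ σ := by
  have : fderiv ℝ (φ ∘ JJ) (t + 2 * Real.pi, γ) = fderiv ℝ (φ ∘ JJ) (t, γ) := by
    have e : (φ ∘ JJ) = fun x => (φ ∘ JJ) (x + (2 * Real.pi, 0)) := by
      funext x
      have : x + (2 * Real.pi, 0) = (x.1 + 2 * Real.pi, x.2) := by simp [Prod.ext_iff]
      simp only [Function.comp_apply, this, JJ_per]
    conv_rhs => rw [e, fderiv_comp_add_right]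
    simp
  simp only [St, JJ_per, this]

theorem Rel.mono {ς t₁ t₂ : ℝ} {γ γ' : Gam} {c c' : ℝ} (h : Rel φ V ς t₁ t₂ γ γ' c) (hc : c' ≤ c) :
    Rel φ V ς t₁ t₂ γ γ' c' :=
  ⟨h.1, fun σ hσ => by
    obtain ⟨h1, Λ, h2, h3⟩ := h.2 σ hσ
    exact ⟨h1, Λ, hc.trans h2, h3⟩⟩

theorem Rel.trans {ς t₁ t₂ t₃ : ℝ} {γ γ' γ'' : Gam} {c c' : ℝ} (h : Rel φ V ς t₁ t₂ γ γ' c)
    (h' : Rel φ V ς t₂ t₃ γ' γ'' c') : Rel φ V ς t₁ t₃ γ γ'' (c + c') :=
  ⟨h.1, fun σ hσ => by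
    obtain ⟨h1, Λ, h2, h3⟩ := h.2 σ hσ
    obtain ⟨h4, Λ', h5, h6⟩ := h'.2 σ h1
    refine ⟨h4, Λ + Λ', add_le_add h2 h5, ?_⟩
    have := add_pos h6 (mul_pos (Real.exp_pos Λ') h3)
    rw [Real.exp_add]
    linarith⟩

end Rel

/-- The perturbed characteristic flow from time `t₁` to time `t₂` shadows `Φ` on `O`. -/
def StepP (ς t₁ t₂ : ℝ) (O : Set Gam) (Φ : Gam → Gam) (F : Gam → ℝ) : Prop :=
  IsOpen O ∧ ContinuousOn Φ O ∧ ContinuousOn F O ∧ ∀ K ⊆ O, IsCompact K → ∃ R₀ : ℝ, ∀ R ≥ R₀,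
    ∀ δ > 0, ∃ ε > 0, ∀ φ V U, Pert (Sig R) φ V U → C1Close (Sig R) ε φ →
      ∃ ψ : Gam → Gam, ContinuousOn ψ K ∧ ∀ γ ∈ K, dist (ψ γ) (Φ γ) ≤ δ ∧
        Rel φ V ς t₁ t₂ γ (ψ γ) (F γ - δ)

theorem C1Close.mono {n : ℕ} {S : Set (Jet n)} {ε ε' : ℝ} {φ : Jet n → Jet n}
    (h : C1Close S ε φ) (hε : ε ≤ ε') : C1Close S ε' φ := fun x hx =>
  ⟨(h x hx).1.trans hε, fun v hv => ((h x hx).2 v hv).trans
    (mul_le_mul_of_nonneg_right hε (norm_nonneg _))⟩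

theorem StepP.per_left {ς t₁ t₂ : ℝ} {O : Set Gam} {Φ : Gam → Gam} {F : Gam → ℝ}
    (h : StepP ς (t₁ + 2 * Real.pi) t₂ O Φ F) : StepP ς t₁ t₂ O Φ F := by
  simpa only [StepP, Rel, St_per, uu_per] using h

theorem StepP.per_right {ς t₁ t₂ : ℝ} {O : Set Gam} {Φ : Gam → Gam} {F : Gam → ℝ}
    (h : StepP ς t₁ (t₂ + 2 * Real.pi) O Φ F) : StepP ς t₁ t₂ O Φ F := by
  simpa only [StepP, Rel, St_per, uu_per] using h

theorem StepP.comp {ς t₁ t₂ t₃ : ℝ} {O O' : Set Gam} {Φ Φ' : Gam → Gam} {F F' : Gam → ℝ}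
    (h : StepP ς t₁ t₂ O Φ F) (h' : StepP ς t₂ t₃ O' Φ' F') :
    StepP ς t₁ t₃ (O ∩ Φ ⁻¹' O') (fun γ => Φ' (Φ γ)) (fun γ => F γ + F' (Φ γ)) := by
  obtain ⟨o1, c1, f1, h⟩ := h
  obtain ⟨o2, c2, f2, h'⟩ := h'
  refine ⟨c1.isOpen_inter_preimage o1 o2, c2.comp (c1.mono inter_subset_left) fun γ hγ => hγ.2,
    (f1.mono inter_subset_left).add (f2.comp (c1.mono inter_subset_left) fun γ hγ => hγ.2),
    fun K hKO hK => ?_⟩
  have hK1 : IsCompact (Φ '' K) := hK.image_of_continuousOn (c1.mono fun γ hγ => (hKO hγ).1)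
  have hK1O : Φ '' K ⊆ O' := by rintro _ ⟨γ, hγ, rfl⟩; exact (hKO hγ).2
  obtain ⟨r, hr, hrO⟩ := hK1.exists_cthickening_subset_open o2 hK1O
  obtain ⟨R₁, hR₁⟩ := h K (fun γ hγ => (hKO hγ).1) hK
  obtain ⟨R₂, hR₂⟩ := h' _ hrO hK1.cthickening
  refine ⟨max R₁ R₂, fun R hR δ hδ => ?_⟩
  have hδ3 : 0 < δ / 3 := by linarith
  obtain ⟨r₁, hr₁, k₁⟩ := unif_near hK1 Φ' (fun γ hγ => c2.continuousAt (o2.mem_nhds (hK1O hγ))) hδ3
  obtain ⟨r₂, hr₂, k₂⟩ := unif_near hK1 F' (fun γ hγ => f2.continuousAt (o2.mem_nhds (hK1O hγ))) hδ3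
  obtain ⟨ε₁, hε₁, g₁⟩ := hR₁ R ((le_max_left _ _).trans hR) (min (min r (δ / 3)) (min r₁ r₂))
    (lt_min (lt_min hr hδ3) (lt_min hr₁ hr₂))
  obtain ⟨ε₂, hε₂, g₂⟩ := hR₂ R ((le_max_right _ _).trans hR) _ hδ3
  refine ⟨min ε₁ ε₂, lt_min hε₁ hε₂, fun φ V U hP hc => ?_⟩
  obtain ⟨ψ₁, d₁, p₁⟩ := g₁ φ V U hP (hc.mono (min_le_left _ _))
  obtain ⟨ψ₂, d₂, p₂⟩ := g₂ φ V U hP (hc.mono (min_le_right _ _))
  have mem : ∀ γ ∈ K, ψ₁ γ ∈ cthickening r (Φ '' K) := fun γ hγ =>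
    mem_cthickening_of_dist_le _ (Φ γ) r _ ⟨γ, hγ, rfl⟩
      ((p₁ γ hγ).1.trans ((min_le_left _ _).trans (min_le_left _ _)))
  refine ⟨fun γ => ψ₂ (ψ₁ γ), d₂.comp d₁ mem, fun γ hγ => ⟨?_, ?_⟩⟩
  · have a1 := (p₂ _ (mem γ hγ)).1
    have a2 := k₁ _ ⟨γ, hγ, rfl⟩ _ ((p₁ γ hγ).1.trans ((min_le_right _ _).trans (min_le_left _ _)))
    linarith [dist_triangle (ψ₂ (ψ₁ γ)) (Φ' (ψ₁ γ)) (Φ' (Φ γ))]
  · refine ((p₁ γ hγ).2.trans (p₂ _ (mem γ hγ)).2).mono ?_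
    have a2 := k₂ _ ⟨γ, hγ, rfl⟩ _ ((p₁ γ hγ).1.trans ((min_le_right _ _).trans (min_le_right _ _)))
    have a3 : min (min r (δ / 3)) (min r₁ r₂) ≤ δ / 3 := (min_le_left _ _).trans (min_le_right _ _)
    rw [Real.dist_eq, abs_le] at a2
    linarith [a2.1]

/-- An explicit contact flow on `Gam`. -/
structure Flow where
  Φ : ℝ × Gam → Gam
  nu : ℝ × Gam → ℝ
  dom : Set (ℝ × Gam)
  gen : Gam → ℝ
  isOpen : IsOpen dom
  smooth : ∀ e ∈ dom, ContDiffAt ℝ ∞ Φ e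
  smooth_nu : ∀ e ∈ dom, ContDiffAt ℝ ∞ nu e
  nu_pos : ∀ e ∈ dom, 0 < nu e
  zero : ∀ γ, Φ (0, γ) = γ
  nu_zero : ∀ γ, nu (0, γ) = 1
  pull : ∀ e ∈ dom, ∀ v, aG (Φ e) (fderiv ℝ Φ e v) = (nu e)⁻¹ * aG e.2 v.2 + gen (Φ e) * v.1

theorem Flow.step (P : Flow) {t₀ c ς T : ℝ} {H : Gam → ℝ} (hw : Win t₀ H) (hς : ς * ς = 1)
    (hc : ∀ t ∈ Icc 0 (Real.pi / 2), c + ς * t ∈ Icc 0 (Real.pi / 2))
    {C O : Set Gam} (hC : IsOpen C) (hH : ∀ γ ∈ C, H γ = T * P.gen γ) (hO : IsOpen O)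
    (hOC : ∀ γ ∈ O, ∀ t ∈ Icc 0 (Real.pi / 2), (T * (bet (c + ς * t) - bet c), γ) ∈ P.dom ∧
      P.Φ (T * (bet (c + ς * t) - bet c), γ) ∈ C) {T' : ℝ}
    (hT : T * (bet (c + ς * (Real.pi / 2)) - bet c) = T') :
    StepP ς (t₀ + c) (t₀ + (c + ς * (Real.pi / 2))) O (fun γ => P.Φ (T', γ))
      (fun γ => -Real.log (P.nu (T', γ))) := by
  have hp : (0 : ℝ) < Real.pi / 2 := by linarith [Real.pi_pos]
  have hend : Real.pi / 2 ∈ Icc 0 (Real.pi / 2) := ⟨hp.le, le_rfl⟩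
  have hdT : ∀ γ ∈ O, (T', γ) ∈ P.dom := fun γ hγ => hT ▸ (hOC γ hγ _ hend).1
  have cΦ : ∀ γ, (T', γ) ∈ P.dom → ContinuousAt (fun γ => P.Φ (T', γ)) γ := fun γ hγ =>
    ContinuousAt.comp (f := fun γ => (T', γ)) (P.smooth _ hγ).continuousAt (by fun_prop)
  refine ⟨hO, fun γ hγ => (cΦ γ (hdT γ hγ)).continuousWithinAt, fun γ hγ => ?_, fun K hKO hK => ?_⟩
  · exact ((ContinuousAt.comp (f := fun γ => (T', γ)) (P.smooth_nu _ (hdT γ hγ)).continuousAt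
      (by fun_prop)).log (P.nu_pos _ (hdT γ hγ)).ne').neg.continuousWithinAt
  let b : ℝ → ℝ := fun t => T * (bet (c + ς * t) - bet c)
  have hb : ∀ t, HasDerivAt b (T * (kap (c + ς * t) * ς)) t := fun t => by
    have a1 : HasDerivAt (fun t => c + ς * t) ς t := by
      simpa using ((hasDerivAt_id t).const_mul ς).const_add c
    exact ((HasDerivAt.comp (h := fun t => c + ς * t) t (hasDerivAt_bet (c + ς * t)) a1).sub_const
      (bet c)).const_mul T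
  have hbs : ContDiff ℝ ∞ b := contDiff_const.mul
    ((contDiff_bet.comp (by fun_prop)).sub contDiff_const)
  have hb0 : b 0 = 0 := by simp [b]
  let β : ℝ × Gam → ℝ × Gam := fun e => (b e.1, e.2)
  have hβ : ContDiff ℝ ∞ β := (hbs.comp contDiff_fst).prodMk contDiff_snd
  let Ψ : ℝ × Gam → ℝ × Gam := fun e => (t₀ + (c + ς * e.1), P.Φ (β e))
  have hΨ : ∀ e, β e ∈ P.dom → ContDiffAt ℝ ∞ Ψ e := fun e he =>
    ContDiffAt.prodMk (by fun_prop) ((P.smooth _ he).comp e hβ.contDiffAt)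
  have hD : IsOpen (β ⁻¹' P.dom) := P.isOpen.preimage hβ.continuous
  have cΨ : ContinuousOn Ψ (β ⁻¹' P.dom) := fun e he => (hΨ e he).continuousAt.continuousWithinAt
  have hT1 : Icc 0 (Real.pi / 2) ×ˢ K ⊆ β ⁻¹' P.dom := fun e he => (hOC _ (hKO he.2) _ he.1).1
  obtain ⟨R₀, hR₀⟩ := ((isCompact_Icc.prod hK).image_of_continuousOn
    (contDiff_Rad.continuous.comp_continuousOn (cΨ.mono hT1).snd)).bddAbove
  refine ⟨R₀ + 1, fun R hR δ hδ => ?_⟩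
  let W : Set (ℝ × Gam) := β ⁻¹' P.dom ∩ Ψ ⁻¹' {x | -(1 / 4) < Real.cos (x.1 - t₀) ∧
    -(1 / 4) < Real.sin (x.1 - t₀) ∧ x.2 ∈ C ∧ Rad x.2 < R}
  have hW : IsOpen W := by
    refine cΨ.isOpen_inter_preimage hD ?_
    have := contDiff_Rad.continuous
    have o1 : IsOpen {x : ℝ × Gam | -(1 / 4) < Real.cos (x.1 - t₀)} :=
      isOpen_lt continuous_const (by fun_prop)
    have o2 : IsOpen {x : ℝ × Gam | -(1 / 4) < Real.sin (x.1 - t₀)} :=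
      isOpen_lt continuous_const (by fun_prop)
    have o3 : IsOpen {x : ℝ × Gam | Rad x.2 < R} := isOpen_lt (by fun_prop) continuous_const
    exact o1.inter (o2.inter ((hC.preimage continuous_snd).inter o3))
  have DΨ : ∀ e, β e ∈ P.dom → ∀ v, fderiv ℝ Ψ e v =
      (ς * v.1, fderiv ℝ P.Φ (β e) (T * (kap (c + ς * e.1) * ς) * v.1, v.2)) := by
    intro e he v
    have a1 : HasFDerivAt β _ e :=
      ((hb e.1).hasFDerivAt.comp e hasFDerivAt_fst).prodMk hasFDerivAt_snd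
    have a2 : HasFDerivAt Ψ _ e :=
      (((hasFDerivAt_fst.const_mul ς).const_add c).const_add t₀).prodMk
        (((P.smooth _ he).differentiableAt (by simp)).hasFDerivAt.comp e a1)
    rw [a2.fderiv]
    simp [mul_comm]
  have DJ : ∀ e, β e ∈ P.dom → ∀ g : ℝ × Gam → Jet 6, ContDiffAt ℝ ∞ g (Ψ e) →
      fderiv ℝ (g ∘ Ψ) e = (fderiv ℝ g (Ψ e)).comp (fderiv ℝ Ψ e) := fun e he g hg =>
    fderiv_comp e (hg.differentiableAt (by simp)) ((hΨ e he).differentiableAt (by simp))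
  have hKW : Icc 0 (Real.pi / 2) ×ˢ K ⊆ W := fun e he => ⟨hT1 he, by
      have h1 := hc _ he.1
      have h2 := Real.cos_nonneg_of_mem_Icc (x := c + ς * e.1) ⟨by linarith [h1.1], h1.2⟩
      have h3 := Real.sin_nonneg_of_nonneg_of_le_pi h1.1 (by linarith [h1.2])
      have h4 : Rad (Ψ e).2 ≤ R₀ := hR₀ ⟨e, he, rfl⟩
      simp only [mem_preimage, mem_ofPred_eq, Ψ, add_sub_cancel_left]
      exact ⟨by linarith, by linarith, (hOC _ (hKO he.2) _ he.1).2, by linarith⟩⟩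
  obtain ⟨r, hr, hrK⟩ := unif_near hK (fun γ => P.Φ (T', γ)) (fun γ hγ => cΦ γ (hdT γ (hKO hγ))) hδ
  obtain ⟨ε, hε, hstep⟩ := Pool.Agent.Lib.MP_2d5ab3_gt.step LG finrank_Gam (Sig R) (JJ ∘ Ψ)
    (fun e => -Real.log (P.nu (β e))) W hW
    (fun e he => (contDiff_JJ.contDiffAt.comp e (hΨ e he.1)).contDiffWithinAt)
    (fun e he => ((((P.smooth_nu _ he.1).comp e hβ.contDiffAt).log
      (P.nu_pos _ he.1).ne').neg).contDiffWithinAt)
    (fun e he => par_mem _ he.2.2.2.2.le)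
    (fun e he v => by
      rw [DJ e he.1 JJ contDiff_JJ.contDiffAt, ContinuousLinearMap.comp_apply, Function.comp_apply,
        (JJ_data _ _).1, DΨ e he.1, LG_eq, Real.exp_neg, Real.exp_log (P.nu_pos _ he.1)]
      have h1 := he.2.1
      have h2 := he.2.2.1
      simp only [Ψ, add_sub_cancel_left] at h1 h2
      simp only [Ψ]
      rw [P.pull _ he.1, hw _ _ h1 h2, hH _ he.2.2.2.1]
      simp only [β]
      ring)
    (fun e he v hv => by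
      rw [DJ e he.1 JJ contDiff_JJ.contDiffAt, ContinuousLinearMap.comp_apply] at hv
      have h1 := (JJ_data _ _).2 hv
      rw [DΨ e he.1] at h1
      simp only at h1
      linear_combination ς * h1 - v.1 * hς)
    hp hK hKW (lt_min hδ hr)
  refine ⟨ε, hε, fun φ V U hP hcl => ?_⟩
  obtain ⟨ψ, hψ, hψ'⟩ := hstep φ V U hP hcl
  have hβe : ∀ γ, β (Real.pi / 2, γ) = (T', γ) := fun γ => by simp only [β, b, hT]
  have hmem : ∀ γ ∈ K, (T', ψ γ) ∈ P.dom := fun γ hγ => by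
    rw [← hβe]; exact (hψ' γ hγ).2.1.1
  refine ⟨fun γ => P.Φ (T', ψ γ), fun γ hγ => ContinuousAt.comp_continuousWithinAt (f := ψ)
    (cΦ _ (hmem γ hγ)) (hψ γ hγ), fun γ hγ => ?_⟩
  obtain ⟨q1, q2, q3, q4, q5, q6⟩ := hψ' γ hγ
  refine ⟨hrK γ hγ _ (q1.trans (min_le_right _ _)), ?_⟩
  have key : ∀ e ∈ W, Function.Injective (fderiv ℝ (φ ∘ JJ ∘ Ψ) e) → ∀ σ,
      CS (φ ((JJ ∘ Ψ) e)) (fderiv ℝ (φ ∘ JJ ∘ Ψ) e) (V (φ ((JJ ∘ Ψ) e))) σ ↔
        St φ V (Ψ e).1 (Ψ e).2 (ς * σ) := by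
    intro e he hi σ
    have h1 : fderiv ℝ (φ ∘ JJ ∘ Ψ) e = _ := DJ e he.1 (φ ∘ JJ)
      (ContDiffAt.comp (f := JJ) _ (hP.smooth _ (par_mem _ he.2.2.2.2.le)) contDiff_JJ.contDiffAt)
    rw [h1] at hi ⊢
    exact CS_comp _ (Function.Injective.of_comp (f := fderiv ℝ (φ ∘ JJ) (Ψ e)) hi) hς
      (fun v => by rw [DΨ e he.1])
  have e0 : Ψ (0, γ) = (t₀ + c, γ) := by simp [Ψ, β, hb0, P.zero]
  have e1 : Ψ (Real.pi / 2, ψ γ) = (t₀ + (c + ς * (Real.pi / 2)), P.Φ (T', ψ γ)) := by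
    simp only [Ψ, hβe]
  have k0 := key (0, γ) (hKW ⟨⟨le_rfl, hp.le⟩, hγ⟩) q3
  have k1 := key _ q2 q4
  rw [e0] at k0
  rw [e1] at k1
  refine ⟨?_, fun σ hσ => ?_⟩
  · obtain ⟨σ, hσ⟩ := q5
    exact ⟨_, (k0 σ).mp hσ⟩
  have hσσ : ς * (ς * σ) = σ := by rw [← mul_assoc, hς, one_mul]
  obtain ⟨s1, Λ, s2, s3⟩ := q6 (ς * σ) ((k0 _).mpr (hσσ.symm ▸ hσ))
  refine ⟨hσσ ▸ (k1 _).mp s1, Λ, ?_, ?_⟩
  · simp only [hβe] at s2
    simp only [β, hb0, P.nu_zero, Real.log_one] at s2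
    linarith [min_le_left δ r]
  · simp only [Function.comp_apply, e0, e1] at s3
    exact s3

theorem Flow.fwd (P : Flow) {t₀ T : ℝ} {H : Gam → ℝ} (hw : Win t₀ H)
    {C O : Set Gam} (hC : IsOpen C) (hH : ∀ γ ∈ C, H γ = T * P.gen γ) (hO : IsOpen O)
    (hOC : ∀ γ ∈ O, ∀ x ∈ Icc (0 : ℝ) 1, (T * x, γ) ∈ P.dom ∧ P.Φ (T * x, γ) ∈ C) :
    StepP 1 t₀ (t₀ + Real.pi / 2) O (fun γ => P.Φ (T, γ)) (fun γ => -Real.log (P.nu (T, γ))) := by
  have := P.step (c := 0) (ς := 1) (T' := T) hw (by norm_num) (by simp) hC hH hO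
    (fun γ hγ t ht => by simpa [bet_zero] using hOC γ hγ _ (bet_mem ht))
    (by simp [bet_zero, bet_half])
  simpa using this

theorem Flow.bwd (P : Flow) {t₀ T : ℝ} {H : Gam → ℝ} (hw : Win t₀ H)
    {C O : Set Gam} (hC : IsOpen C) (hH : ∀ γ ∈ C, H γ = T * P.gen γ) (hO : IsOpen O)
    (hOC : ∀ γ ∈ O, ∀ x ∈ Icc (0 : ℝ) 1, (-(T * x), γ) ∈ P.dom ∧ P.Φ (-(T * x), γ) ∈ C) :
    StepP (-1) (t₀ + Real.pi / 2) t₀ O (fun γ => P.Φ (-T, γ))
      (fun γ => -Real.log (P.nu (-T, γ))) := by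
  have hm : ∀ t ∈ Icc 0 (Real.pi / 2), Real.pi / 2 + -1 * t ∈ Icc 0 (Real.pi / 2) :=
    fun t ht => ⟨by linarith [ht.2], by linarith [ht.1]⟩
  have := P.step (c := Real.pi / 2) (ς := -1) (T' := -T) hw (by norm_num) hm hC hH hO
    (fun γ hγ t ht => by
      have h1 := bet_mem (hm t ht)
      have h2 := hOC γ hγ (1 - bet (Real.pi / 2 + -1 * t)) ⟨by linarith [h1.2], by linarith [h1.1]⟩
      have e : T * (bet (Real.pi / 2 + -1 * t) - bet (Real.pi / 2)) =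
          -(T * (1 - bet (Real.pi / 2 + -1 * t))) := by rw [bet_half]; ring
      rw [e]
      exact h2)
    (by simp [bet_zero, bet_half])
  simpa using this

end Pool.Agent.Lib.MP_2d5ab3_gt
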