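import Pool.Agent.Lib.MP_2d5ab3_gt.Model

/-!
The closed hypersurface.
-/

open scoped ContDiff Topology
open Set Filter Metric Complex

namespace Pool.Agent.Lib.MP_2d5ab3_gt

def rho2 (y : Jet 6) : ℝ := y.2.1 0 ^ 2 + y.2.1 1 ^ 2

noncomputable def sC (y : Jet 6) : ℝ := Real.log (rho2 y) / 2

def tauC (y : Jet 6) : ℝ := y.2.2 1 * y.2.1 0 - y.2.2 0 * y.2.1 1

noncomputable def gamC (y : Jet 6) : Gam :=
  (y.1, (⟨y.2.1 2, y.2.1 3⟩, ⟨y.2.1 4, y.2.1 5⟩, sC y),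
    (⟨y.2.2 2, y.2.2 3⟩, ⟨y.2.2 4, y.2.2 5⟩, y.2.2 0 * y.2.1 0 + y.2.2 1 * y.2.1 1))

noncomputable def HH (y : Jet 6) : ℝ :=
  tauC y + hh (y.2.1 0 * Real.exp (-sC y), y.2.1 1 * Real.exp (-sC y), gamC y)

def Rad (γ : Gam) : ℝ := γ.1 ^ 2 + ip3 γ.2.1 γ.2.1 + ip3 γ.2.2 γ.2.2

noncomputable def GG (R : ℝ) (y : Jet 6) : ℝ := HH y * (HH y - 1) + expNegInvGlue (Rad (gamC y) - R)

def Sig (R : ℝ) : Set (Jet 6) := {y | rho2 y ≠ 0 ∧ GG R y = 0}

theorem rho2_emb (x : ℝ × Gam × ℝ) : rho2 (emb x) = Real.exp (2 * x.2.1.2.1.2.2) := by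
  simp only [rho2, emb, Matrix.cons_val_zero, Matrix.cons_val_one]
  rw [two_mul, Real.exp_add]
  linear_combination Real.exp x.2.1.2.1.2.2 ^ 2 * Real.sin_sq_add_cos_sq x.1

theorem sC_emb (x : ℝ × Gam × ℝ) : sC (emb x) = x.2.1.2.1.2.2 := by
  rw [sC, rho2_emb, Real.log_exp]; ring

theorem exp_neg_mul (s : ℝ) : Real.exp (-s) * Real.exp s = 1 := by rw [← Real.exp_add]; simp

theorem tauC_emb (x : ℝ × Gam × ℝ) : tauC (emb x) = x.2.2 := by
  simp only [tauC, emb, Matrix.cons_val_zero, Matrix.cons_val_one]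
  linear_combination x.2.2 * (Real.sin x.1 ^ 2 + Real.cos x.1 ^ 2) * exp_neg_mul x.2.1.2.1.2.2 +
    x.2.2 * Real.sin_sq_add_cos_sq x.1

theorem gamC_emb (x : ℝ × Gam × ℝ) : gamC (emb x) = x.2.1 := by
  rw [gamC, sC_emb]
  refine Prod.ext rfl (Prod.ext rfl (Prod.ext rfl (Prod.ext rfl ?_)))
  simp only [emb, Matrix.cons_val_zero, Matrix.cons_val_one]
  linear_combination x.2.1.2.2.2.2 * (Real.sin x.1 ^ 2 + Real.cos x.1 ^ 2) *
    exp_neg_mul x.2.1.2.1.2.2 + x.2.1.2.2.2.2 * Real.sin_sq_add_cos_sq x.1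

theorem HH_emb (x : ℝ × Gam × ℝ) :
    HH (emb x) = x.2.2 + hh (Real.cos x.1, Real.sin x.1, x.2.1) := by
  rw [HH, tauC_emb, gamC_emb, sC_emb]
  have h := exp_neg_mul x.2.1.2.1.2.2
  have e1 : (emb x).2.1 0 * Real.exp (-x.2.1.2.1.2.2) = Real.cos x.1 := by
    simp only [emb, Matrix.cons_val_zero]
    linear_combination Real.cos x.1 * h
  have e2 : (emb x).2.1 1 * Real.exp (-x.2.1.2.1.2.2) = Real.sin x.1 := by
    simp only [emb, Matrix.cons_val_zero, Matrix.cons_val_one]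
    linear_combination Real.sin x.1 * h
  rw [e1, e2]

/-- The parametrisation by time, point of `Gam` and value of `HH`. -/
noncomputable def par (x : ℝ × Gam × ℝ) : Jet 6 :=
  emb (x.1, x.2.1, x.2.2 - hh (Real.cos x.1, Real.sin x.1, x.2.1))

theorem contDiff_par : ContDiff ℝ ∞ par := by
  unfold par
  refine contDiff_emb.comp (contDiff_fst.prodMk ((contDiff_fst.comp contDiff_snd).prodMk
    ((contDiff_snd.comp contDiff_snd).sub (contDiff_hh.comp (by fun_prop)))))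

theorem GG_par (R : ℝ) (x : ℝ × Gam × ℝ) :
    GG R (par x) = x.2.2 * (x.2.2 - 1) + expNegInvGlue (Rad x.2.1 - R) := by
  rw [GG, par, HH_emb, gamC_emb]; simp

theorem rho2_par (x : ℝ × Gam × ℝ) : rho2 (par x) ≠ 0 := by
  rw [par, rho2_emb]; exact (Real.exp_pos _).ne'

theorem par_mem {R : ℝ} (t : ℝ) {γ : Gam} (h : Rad γ ≤ R) : par (t, γ, 0) ∈ Sig R :=
  ⟨rho2_par _, by rw [GG_par, expNegInvGlue.zero_of_nonpos (by linarith)]; simp⟩

theorem exists_par {y : Jet 6} (h : rho2 y ≠ 0) :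
    ∃ t ∈ Icc (-Real.pi) Real.pi, ∃ γ η, y = par (t, γ, η) := by
  let ζ : ℂ := ⟨y.2.1 0, y.2.1 1⟩
  have hpos : 0 < rho2 y := lt_of_le_of_ne (by unfold rho2; positivity) h.symm
  have hn : ‖ζ‖ ^ 2 = rho2 y := by
    rw [Complex.sq_norm, normSq_apply, rho2]; ring
  have hζ : ζ ≠ 0 := by
    intro h0; rw [h0] at hn; simp at hn; exact h hn.symm
  have hnp : 0 < ‖ζ‖ := norm_pos_iff.mpr hζ
  have he : Real.exp (sC y) = ‖ζ‖ := by
    rw [sC, ← hn, Real.log_pow]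
    simp [Real.exp_log hnp]
  have he' : Real.exp (-sC y) = ‖ζ‖⁻¹ := by rw [Real.exp_neg, he]
  have hc : Real.cos (arg ζ) = y.2.1 0 / ‖ζ‖ := Complex.cos_arg hζ
  have hs : Real.sin (arg ζ) = y.2.1 1 / ‖ζ‖ := Complex.sin_arg ζ
  refine ⟨arg ζ, ⟨(neg_pi_lt_arg ζ).le, arg_le_pi ζ⟩, gamC y,
    tauC y + hh (Real.cos (arg ζ), Real.sin (arg ζ), gamC y), ?_⟩
  have hr : y.2.1 0 ^ 2 + y.2.1 1 ^ 2 = ‖ζ‖ ^ 2 := hn.symm
  simp only [par, add_sub_cancel_right, emb, gamC, he, he', hc, hs, tauC]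
  refine Prod.ext rfl (Prod.ext ?_ ?_)
  · funext i
    fin_cases i <;> simp <;> field_simp
  · funext i
    fin_cases i <;> simp <;> field_simp
    · linear_combination (-y.2.2 0) * hr
    · linear_combination (-y.2.2 1) * hr

theorem ip_self_nonneg (p : ℂ) : 0 ≤ ip p p := by unfold ip; nlinarith [sq_nonneg p.re, sq_nonneg p.im]

theorem ip_self (p : ℂ) : ip p p = ‖p‖ ^ 2 := by rw [Complex.sq_norm, normSq_apply, ip]

theorem norm_sq_le_ip3 (p : W3) : ‖p‖ ^ 2 ≤ ip3 p p := by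
  have h1 := ip_self_nonneg p.1
  have h2 := ip_self_nonneg p.2.1
  have h3 := mul_self_nonneg p.2.2
  rw [ip3, Prod.norm_def, Prod.norm_def]
  rcases max_choice ‖p.1‖ (max ‖p.2.1‖ ‖p.2.2‖) with h | h
  · rw [h, ← ip_self]; linarith
  · rw [h]
    rcases max_choice ‖p.2.1‖ ‖p.2.2‖ with h' | h'
    · rw [h', ← ip_self]; linarith
    · rw [h', Real.norm_eq_abs, sq_abs]; nlinarith

theorem norm_sq_le_Rad (γ : Gam) : ‖γ‖ ^ 2 ≤ Rad γ := by
  have h1 := norm_sq_le_ip3 γ.2.1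
  have h2 := norm_sq_le_ip3 γ.2.2
  have h3 := sq_nonneg ‖γ.2.1‖
  have h4 := sq_nonneg ‖γ.2.2‖
  have h5 := sq_nonneg γ.1
  rw [Rad, Prod.norm_def, Prod.norm_def (x := γ.2)]
  rcases max_choice ‖γ.1‖ (max ‖γ.2.1‖ ‖γ.2.2‖) with h | h
  · rw [h, Real.norm_eq_abs, sq_abs]; linarith
  · rw [h]
    rcases max_choice ‖γ.2.1‖ ‖γ.2.2‖ with h' | h' <;> rw [h'] <;> linarith

theorem contDiff_Rad : ContDiff ℝ ∞ Rad := by
  rw [contDiff_iff_contDiffAt]
  intro x
  unfold Rad ip3; fun_prop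

theorem Rad_smul (c : ℝ) (γ : Gam) : Rad (c • γ) = c ^ 2 * Rad γ := by
  simp [Rad, ip3, ip]; ring

theorem contDiffAt_GG (R : ℝ) {y : Jet 6} (h : rho2 y ≠ 0) : ContDiffAt ℝ ∞ (GG R) y := by
  have hs : ContDiffAt ℝ ∞ sC y :=
    (ContDiffAt.log (by unfold rho2; fun_prop) h).div_const 2
  have hg : ContDiffAt ℝ ∞ gamC y := by unfold gamC; fun_prop
  have hH : ContDiffAt ℝ ∞ HH y := by
    unfold HH
    exact ContDiffAt.add (by unfold tauC; fun_prop) (contDiff_hh.contDiffAt.comp y (by fun_prop))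
  unfold GG
  exact (hH.mul (hH.sub contDiffAt_const)).add
    (cd_glue ((contDiff_Rad.contDiffAt.comp y hg).sub contDiffAt_const))

theorem glue_le {x : ℝ} (h : expNegInvGlue x ≤ 1 / 4) : x ≤ 1 := by
  by_contra hc
  push Not at hc
  have h1 : expNegInvGlue x = Real.exp (-x⁻¹) := by
    rw [expNegInvGlue, if_neg (by linarith)]
  have h2 : -1 ≤ -x⁻¹ := by
    have := inv_le_one_of_one_le₀ hc.le
    linarith
  have h3 : Real.exp (-1) ≤ Real.exp (-x⁻¹) := Real.exp_le_exp.mpr h2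
  have h4 := Real.exp_neg_one_gt_d9
  linarith

theorem isCompact_Sig {R : ℝ} (hR : 0 ≤ R) : IsCompact (Sig R) := by
  let K : Set (ℝ × Gam × ℝ) := (Icc (-Real.pi) Real.pi ×ˢ closedBall 0 (R + 2) ×ˢ Icc 0 1) ∩
    {x | x.2.2 * (x.2.2 - 1) + expNegInvGlue (Rad x.2.1 - R) = 0}
  have hK : IsCompact K := by
    refine (isCompact_Icc.prod ((isCompact_closedBall _ _).prod isCompact_Icc)).inter_right
      (isClosed_eq ?_ continuous_const)
    have h1 := contDiff_Rad.continuous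
    have h2 := (expNegInvGlue.contDiff (n := 0)).continuous
    fun_prop
  have e : Sig R = par '' K := by
    ext y
    constructor
    · rintro ⟨h1, h2⟩
      obtain ⟨t, ht, γ, η, rfl⟩ := exists_par h1
      rw [GG_par] at h2
      have h3 := expNegInvGlue.nonneg (Rad γ - R)
      simp only at h2
      refine ⟨(t, γ, η), ⟨⟨ht, ?_, ?_, ?_⟩, h2⟩, rfl⟩
      · have h4 := glue_le (x := Rad γ - R) (by nlinarith [sq_nonneg (η - 1 / 2)])
        have h5 := norm_sq_le_Rad γ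
        rw [mem_closedBall_zero_iff]
        change ‖γ‖ ≤ R + 2
        nlinarith [norm_nonneg γ]
      · change 0 ≤ η
        nlinarith
      · change η ≤ 1
        nlinarith
    · rintro ⟨x, hx, rfl⟩
      exact ⟨rho2_par x, by rw [GG_par]; exact hx.2⟩
  rw [e]
  exact hK.image contDiff_par.continuous

theorem isClosedHypersurface_Sig {R : ℝ} (hR : 0 ≤ R) : IsClosedHypersurface (Sig R) := by
  refine ⟨isCompact_Sig hR, fun y hy => ⟨{y | rho2 y ≠ 0}, ?_, hy.1, GG R,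
    fun y hy => (contDiffAt_GG R hy).contDiffWithinAt, ?_, ?_⟩⟩
  · refine isOpen_ne_fun ?_ continuous_const
    unfold rho2; fun_prop
  · intro h0
    obtain ⟨t, -, γ, η, rfl⟩ := exists_par hy.1
    have hd : HasFDerivAt (GG R) (0 : Jet 6 →L[ℝ] ℝ) (par (t, γ, η)) := by
      rw [← h0]
      exact ((contDiffAt_GG R hy.1).differentiableAt (by simp)).hasFDerivAt
    have key : ∀ v, HasDerivAt (fun r : ℝ => GG R (par ((t, γ, η) + r • v))) 0 0 := by
      intro v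
      have h1 := fderiv_line (contDiff_par.differentiable (by simp) (t, γ, η)) v
      have hd' : HasFDerivAt (GG R) (0 : Jet 6 →L[ℝ] ℝ) (par ((t, γ, η) + (0 : ℝ) • v)) := by
        simpa using hd
      exact hd'.comp_hasDerivAt (0 : ℝ) h1
    have lin : ∀ a : ℝ, HasDerivAt (fun r : ℝ => a + r) 1 0 := fun a =>
      (hasDerivAt_id (0 : ℝ)).const_add a
    have k1 := key (0, 0, 1)
    simp only [GG_par] at k1
    have k2 : HasDerivAt (fun r : ℝ => (η + r) * (η + r - 1) + expNegInvGlue (Rad γ - R))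
        (2 * η - 1) 0 :=
      ((((lin η).fun_mul ((lin η).sub_const 1))).add_const _).congr_deriv (by ring)
    have hη : η = 1 / 2 := by
      have : (0 : ℝ) = 2 * η - 1 := HasDerivAt.unique (by simpa using k1) k2
      linarith
    have h2 := hy.2
    rw [GG_par] at h2
    simp only [hη] at h2
    have hpos : 0 < Rad γ - R := by
      by_contra hc
      rw [expNegInvGlue.zero_of_nonpos (not_lt.mp hc)] at h2
      norm_num at h2
    have k3 := key (0, γ, 0)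
    simp only [GG_par] at k3
    have e : ∀ r : ℝ, Rad (γ + r • γ) = (1 + r) ^ 2 * Rad γ := fun r => by
      rw [← Rad_smul, add_smul, one_smul]
    have g1 : HasDerivAt expNegInvGlue
        ((Rad γ - R)⁻¹ ^ 2 * expNegInvGlue (Rad γ - R)) ((1 + 0) ^ 2 * Rad γ - R) := by
      simpa using expNegInvGlue.hasDerivAt_polynomial_eval_inv_mul 1 (Rad γ - R)
    have g2 : HasDerivAt (fun r : ℝ => (1 + r) ^ 2 * Rad γ - R) (2 * Rad γ) 0 :=
      ((((lin 1).fun_pow 2).mul_const (Rad γ)).sub_const R).congr_deriv (by simp)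
    have k4 := (g1.comp (0 : ℝ) g2).const_add (η * (η - 1))
    have h5 : (0 : ℝ) = (Rad γ - R)⁻¹ ^ 2 * expNegInvGlue (Rad γ - R) * (2 * Rad γ) :=
      HasDerivAt.unique (by simpa [e, Function.comp_def] using k3) k4
    have h6 : 0 < (Rad γ - R)⁻¹ ^ 2 * expNegInvGlue (Rad γ - R) * (2 * Rad γ) :=
      mul_pos (mul_pos (by positivity) (expNegInvGlue.pos_of_pos hpos)) (by linarith)
    linarith
  · ext y'
    exact ⟨fun h => ⟨h.2, h.1.2⟩, fun h => ⟨⟨h.1, h.2⟩, h.1⟩⟩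

end Pool.Agent.Lib.MP_2d5ab3_gt
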