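import Pool.Agent.Lib.MP_2d5ab3_gt.Lin
import Pool.Agent.Lib.MP_2d5ab3_gt.Ode

/-!
The perturbed characteristic flow in a flow box.
-/

set_option linter.unusedSectionVars false

open scoped ContDiff Topology NNReal
open Set Filter Metric

namespace Pool.Agent.Lib.MP_2d5ab3_gt

variable {n : ℕ} {Γ : Type} [NormedAddCommGroup Γ] [NormedSpace ℝ Γ] [FiniteDimensional ℝ Γ]

/-- The side of the hyperplane on which the vector `W` lies, read through the characteristic
direction. -/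
def CS (y : Jet n) (D : (ℝ × Γ) →L[ℝ] Jet n) (W : Jet n) (σ : ℝ) : Prop :=
  ∃ Z lam, IsChar y D Z lam ∧ 0 < σ * (omegaL n (D Z) W - lam * alpha y W)

/-- A transverse contact vector field near `φ '' S`. -/
structure Pert (S : Set (Jet n)) (φ V : Jet n → Jet n) (U : Set (Jet n)) : Prop where
  smooth : ∀ x ∈ S, ContDiffAt ℝ ∞ φ x
  isOpen : IsOpen U
  sub : φ '' S ⊆ U
  contact : IsContactOn V U
  trans : ∀ y ∈ φ '' S, V y ∉ tangentConeAt ℝ (φ '' S) y

theorem fderiv_mem_tangentCone {E F : Type*} [NormedAddCommGroup E] [NormedSpace ℝ E]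
    [NormedAddCommGroup F] [NormedSpace ℝ F] {f : E → F} {W : Set E} {S : Set F} {e : E}
    (hW : W ∈ 𝓝 e) (hf : DifferentiableAt ℝ f e) (hS : ∀ x ∈ W, f x ∈ S) (v : E) :
    fderiv ℝ f e v ∈ tangentConeAt ℝ S (f e) := by
  have h0 : v ∈ tangentConeAt ℝ W e := by rw [tangentConeAt_of_mem_nhds hW]; trivial
  have h1 := (hf.hasFDerivAt.hasFDerivWithinAt (s := W)).mapsTo_tangent_cone h0
  exact tangentConeAt_mono (by rintro _ ⟨x, hx, rfl⟩; exact hS x hx) h1

theorem hasDeriv_u {V : Jet n → Jet n} {U : Set (Jet n)} (hU : IsOpen U) (hV : IsContactOn V U)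
    {y : ℝ → Jet n} {z : Jet n} {s : Set ℝ} {t : ℝ} (hy : HasDerivWithinAt y z s t)
    (hm : y t ∈ U) (hz : alpha (y t) z = 0) :
    HasDerivWithinAt (fun t => alpha (y t) (V (y t))) (omegaL n z (V (y t))) s t := by
  have hd : DifferentiableAt ℝ V (y t) :=
    (hV.1.contDiffAt (hU.mem_nhds hm)).differentiableAt (by simp)
  have h1 : HasDerivWithinAt (fun t => V (y t)) (fderiv ℝ V (y t) z) s t :=
    hd.hasFDerivAt.comp_hasDerivWithinAt t hy
  have h2 : HasDerivWithinAt (fun t => (V (y t)).1) (fderiv ℝ V (y t) z).1 s t :=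
    (ContinuousLinearMap.fst ℝ ℝ ((Fin n → ℝ) × (Fin n → ℝ))).hasFDerivAt.comp_hasDerivWithinAt t h1
  have h3 : HasDerivWithinAt (fun t => qp n (y t)) (qp n z) s t :=
    (qp n).hasFDerivAt.comp_hasDerivWithinAt t hy
  have h4 := h2.add (h3.clm_apply h1)
  have h5 := hV.2 (y t) hm z hz
  have h6 : fderiv ℝ (fun y' => alpha y' z) (y t) (V (y t)) = qp n (V (y t)) z := by
    have : HasFDerivAt (fun y' : Jet n => alpha y' z) ((qp n).flip z) (y t) := by
      simp only [alpha_eq]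
      exact (((qp n).flip z).hasFDerivAt).const_add z.1
    rw [this.fderiv]; rfl
  rw [h6, alpha_eq] at h5
  simp only [alpha_eq]
  refine h4.congr_deriv ?_
  rw [omegaL_apply]
  linarith

theorem step (L : Lin Γ) (hdim : Module.finrank ℝ Γ + 1 = 2 * n) (S : Set (Jet n))
    (ι : ℝ × Γ → Jet n) (F : ℝ × Γ → ℝ) (W : Set (ℝ × Γ)) (hW : IsOpen W)
    (hι : ContDiffOn ℝ ∞ ι W) (hF : ContDiffOn ℝ ∞ F W) (hS : ∀ e ∈ W, ι e ∈ S)
    (hpull : ∀ e ∈ W, ∀ v, alpha (ι e) (fderiv ℝ ι e v) =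
      Real.exp (F e) * (L.A v.2 + L.Q e.2 v.2))
    (ht : ∀ e ∈ W, ∀ v, fderiv ℝ ι e v = 0 → v.1 = 0) {a b : ℝ} (hab : a < b) {K : Set Γ}
    (hK : IsCompact K) (hKW : Icc a b ×ˢ K ⊆ W) {δ : ℝ} (hδ : 0 < δ) :
    ∃ ε > 0, ∀ φ V U, Pert S φ V U → C1Close S ε φ → ∃ ψ : Γ → Γ, ContinuousOn ψ K ∧
      ∀ γ ∈ K, dist (ψ γ) γ ≤ δ ∧ (b, ψ γ) ∈ W ∧
        Function.Injective (fderiv ℝ (φ ∘ ι) (a, γ)) ∧
        Function.Injective (fderiv ℝ (φ ∘ ι) (b, ψ γ)) ∧
        (∃ σ, CS (φ (ι (a, γ))) (fderiv ℝ (φ ∘ ι) (a, γ)) (V (φ (ι (a, γ)))) σ) ∧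
        ∀ σ, CS (φ (ι (a, γ))) (fderiv ℝ (φ ∘ ι) (a, γ)) (V (φ (ι (a, γ)))) σ →
          CS (φ (ι (b, ψ γ))) (fderiv ℝ (φ ∘ ι) (b, ψ γ)) (V (φ (ι (b, ψ γ)))) σ ∧
          ∃ Λ, F (b, γ) - F (a, γ) - δ ≤ Λ ∧
            0 < σ * (alpha (φ (ι (b, ψ γ))) (V (φ (ι (b, ψ γ)))) -
              Real.exp Λ * alpha (φ (ι (a, γ))) (V (φ (ι (a, γ))))) := by
  obtain ⟨u₀, v₀, -, hv₀, hu₀, hKv, huv⟩ := generalized_tube_lemma isCompact_Icc hK hW hKW
  obtain ⟨r₀, hr₀, hr₀K⟩ := hK.exists_cthickening_subset_open hv₀ hKv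
  set K' := cthickening r₀ K with hK'def
  have hK' : IsCompact K' := hK.cthickening
  set C := Icc a b ×ˢ K' with hCdef
  have hC : IsCompact C := isCompact_Icc.prod hK'
  have hCW : C ⊆ W := fun e he => huv ⟨hu₀ he.1, hr₀K he.2⟩
  have ιat : ∀ e ∈ W, ContDiffAt ℝ ∞ ι e := fun e he => hι.contDiffAt (hW.mem_nhds he)
  have Fat : ∀ e ∈ W, ContDiffAt ℝ ∞ F e := fun e he => hF.contDiffAt (hW.mem_nhds he)
  let P₀ : ℝ × Γ → Jet n × ((ℝ × Γ) →L[ℝ] Jet n) := fun e => (ι e, fderiv ℝ ι e)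
  let lam₀ : ℝ × Γ → ℝ := fun e => fderiv ℝ F e (1, 0)
  have P₀c : ∀ e ∈ W, ContinuousAt P₀ e := fun e he =>
    (ιat e he).continuousAt.prodMk
      (((ιat e he).fderiv_right (m := 0) (by norm_cast)).continuousAt)
  have lam₀c : ∀ e ∈ W, ContinuousAt lam₀ e := fun e he =>
    (((Fat e he).fderiv_right (m := 0) (by norm_cast)).continuousAt).clm_apply continuousAt_const
  have model : ∀ e ∈ W, P₀ e ∈ Inv n Γ ∧ SS (P₀ e) = ((1, 0), lam₀ e, 0) := by
    intro e he
    have h := inv_of_model L (Real.exp_pos (F e)).ne' e.2 (fderiv ℝ F e) (hpull e he)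
      (omega_of_pullback L (ιat e he) ((Fat e he).differentiableAt (by simp))
        (by filter_upwards [hW.mem_nhds he] with e' he' using hpull e' he'))
    exact ⟨h.1, SS_eq h.1 h.2⟩
  have h𝒦 : IsCompact (P₀ '' C) :=
    hC.image_of_continuousOn fun e he => (P₀c e (hCW he)).continuousWithinAt
  have h𝒦I : P₀ '' C ⊆ Inv n Γ := by rintro _ ⟨e, he, rfl⟩; exact (model e (hCW he)).1
  set η := δ / (b - a + 1) with hηdef
  have hη : 0 < η := div_pos hδ (by linarith)
  obtain ⟨r₁, hr₁, hlam⟩ := unif_near hC lam₀ (fun e he => lam₀c e (hCW he)) (half_pos hη)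
  set r := min r₀ (min δ r₁) with hrdef
  have hr : 0 < r := lt_min hr₀ (lt_min hδ hr₁)
  set η₁ := min (η / 2) (r / (b - a)) with hη₁def
  have hη₁ : 0 < η₁ := lt_min (half_pos hη) (div_pos hr (by linarith))
  obtain ⟨ε₁, hε₁, hI⟩ := open_near h𝒦 isOpen_Inv h𝒦I
  obtain ⟨ε₂, hε₂, hSS⟩ := unif_near h𝒦 SS (fun P hP => (contDiffAt_SS (h𝒦I hP)).continuousAt) hη₁
  obtain ⟨M, hM⟩ := h𝒦.isBounded.exists_norm_le
  have hM0 : ∀ e ∈ C, ‖fderiv ℝ ι e‖ ≤ |M| := fun e he =>
    ((norm_snd_le (P₀ e)).trans (hM _ ⟨e, he, rfl⟩)).trans (le_abs_self M)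
  have hε₃ : 0 < min (min ε₁ ε₂) (1 / 2) := lt_min (lt_min hε₁ hε₂) (by norm_num)
  refine ⟨min (min ε₁ ε₂) (1 / 2) / (|M| + 1), div_pos hε₃ (by positivity), ?_⟩
  intro φ V U hP hclose
  set ε := min (min ε₁ ε₂) (1 / 2) / (|M| + 1) with hεdef
  have hε : 0 < ε := div_pos hε₃ (by positivity)
  have hεM : ε * (|M| + 1) = min (min ε₁ ε₂) (1 / 2) := div_mul_cancel₀ _ (by positivity)
  have hsmall : ε < 1 := by
    have : min (min ε₁ ε₂) (1 / 2) ≤ 1 / 2 := min_le_right _ _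
    nlinarith [abs_nonneg M]
  have jat : ∀ e ∈ W, ContDiffAt ℝ ∞ (φ ∘ ι) e := fun e he =>
    (hP.smooth _ (hS e he)).comp e (ιat e he)
  have jD : ∀ e ∈ W, ∀ v, fderiv ℝ (φ ∘ ι) e v = fderiv ℝ φ (ι e) (fderiv ℝ ι e v) := by
    intro e he v
    rw [fderiv_comp e ((hP.smooth _ (hS e he)).differentiableAt (by simp))
      ((ιat e he).differentiableAt (by simp))]
    rfl
  have cone : ∀ e ∈ W, ∀ v, fderiv ℝ ι e v ∈ tangentConeAt ℝ S (ι e) := fun e he v =>
    fderiv_mem_tangentCone (hW.mem_nhds he) ((ιat e he).differentiableAt (by simp)) hS v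
  let P₁ : ℝ × Γ → Jet n × ((ℝ × Γ) →L[ℝ] Jet n) := fun e => (φ (ι e), fderiv ℝ (φ ∘ ι) e)
  have near : ∀ e ∈ C, dist (P₁ e) (P₀ e) ≤ min ε₁ ε₂ := by
    intro e he
    have hc := hclose (ι e) (hS e (hCW he))
    refine le_trans ?_ (min_le_left _ (1 / 2))
    rw [Prod.dist_eq, dist_eq_norm, dist_eq_norm, ← hεM]
    refine max_le (hc.1.trans (by nlinarith [abs_nonneg M])) ?_
    refine ContinuousLinearMap.opNorm_le_bound _ (by positivity) fun v => ?_
    have h1 := hc.2 _ (cone e (hCW he) v)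
    have h2 := (fderiv ℝ ι e).le_opNorm v
    have h3 := hM0 e he
    change ‖fderiv ℝ (φ ∘ ι) e v - fderiv ℝ ι e v‖ ≤ _
    rw [jD e (hCW he)]
    refine h1.trans ?_
    have h4 : ‖fderiv ℝ ι e v‖ ≤ (|M| + 1) * ‖v‖ := h2.trans (by nlinarith [norm_nonneg v])
    nlinarith
  have P₁I : ∀ e ∈ C, P₁ e ∈ Inv n Γ := fun e he =>
    hI _ ⟨e, he, rfl⟩ _ ((near e he).trans (min_le_left _ _))
  let g : ℝ × Γ → (ℝ × Γ) × ℝ × ℝ := fun e => SS (P₁ e)
  have gnear : ∀ e ∈ C, dist (g e) ((1, 0), lam₀ e, 0) ≤ η₁ := fun e he => by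
    rw [← (model e (hCW he)).2]
    exact hSS _ ⟨e, he, rfl⟩ _ ((near e he).trans (min_le_right _ _))
  have gat : ∀ e ∈ C, ContDiffAt ℝ 1 g e := fun e he =>
    ((contDiffAt_SS (P₁I e he)).of_le (by norm_cast)).comp e
      (((jat e (hCW he)).of_le (by norm_cast)).prodMk
        ((jat e (hCW he)).fderiv_right (m := 1) (by norm_cast)))
  have gchar : ∀ e ∈ C, IsChar (φ (ι e)) (fderiv ℝ (φ ∘ ι) e) (g e).1 (g e).2.1 := fun e he =>
    isChar_SS (P₁I e he)
  have hε1 : ∀ e ∈ C, Function.Injective (fderiv ℝ (φ ∘ ι) e) := by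
    intro e he
    refine injective_of_inv (P₁I e he) fun v hv => ht e (hCW he) v ?_
    have h1 := (hclose (ι e) (hS e (hCW he))).2 _ (cone e (hCW he) v)
    change fderiv ℝ (φ ∘ ι) e v = 0 at hv
    rw [← jD e (hCW he), hv, zero_sub, norm_neg] at h1
    by_contra hne
    have := norm_pos_iff.mpr hne
    nlinarith
  obtain ⟨Lg, hLg⟩ : ∃ Lg, LipschitzOnWith Lg g C :=
    LocallyLipschitzOn.exists_lipschitzOnWith_of_compact hC fun e he => by
      obtain ⟨K₁, t, ht, h⟩ := (gat e he).exists_lipschitzOnWith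
      exact ⟨K₁, t, mem_nhdsWithin_of_mem_nhds ht, h⟩
  obtain ⟨ψ, hψ, hψc⟩ := ode_flow (fun t γ => (g (t, γ)).1.2) hab.le K K' ⟨r, hr.le⟩ ⟨η₁, hη₁.le⟩ Lg
    (fun γ hγ => (closedBall_subset_closedBall (min_le_left _ _)).trans
      (closedBall_subset_cthickening hγ r₀))
    (fun t htt => LipschitzOnWith.of_dist_le_mul fun x hx y hy => by
      have h1 := hLg.dist_le_mul (t, x) ⟨htt, hx⟩ (t, y) ⟨htt, hy⟩
      rw [Prod.dist_eq (x := (t, x)), dist_self, max_eq_right dist_nonneg] at h1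
      refine le_trans ?_ h1
      rw [Prod.dist_eq, Prod.dist_eq]
      exact le_max_of_le_left (le_max_right _ _))
    (fun x hx t htt => by
      have h1 : ContinuousAt (fun t : ℝ => g (t, x)) t :=
        ContinuousAt.comp (f := fun t : ℝ => (t, x)) (gat (t, x) ⟨htt, hx⟩).continuousAt
          (by fun_prop)
      exact h1.fst.snd.continuousWithinAt)
    (fun t htt x hx => by
      have h1 := gnear (t, x) ⟨htt, hx⟩
      rw [Prod.dist_eq, Prod.dist_eq] at h1
      have h2 := (le_max_right _ _).trans ((le_max_left _ _).trans h1)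
      rw [dist_zero_right] at h2
      exact h2)
    (by
      change η₁ * (b - a) ≤ r
      have : η₁ ≤ r / (b - a) := min_le_right _ _
      rwa [le_div_iff₀ (by linarith)] at this)
  refine ⟨fun γ => ψ γ b, hψc, fun γ hγ => ?_⟩
  obtain ⟨hψa, hψt⟩ := hψ γ hγ
  have ball : ∀ t ∈ Icc a b, dist (ψ γ t) γ ≤ r := fun t htt => (hψt t htt).2
  have memC : ∀ t ∈ Icc a b, (t, ψ γ t) ∈ C := fun t htt =>
    ⟨htt, mem_cthickening_of_dist_le _ γ r₀ K hγ ((ball t htt).trans (min_le_left _ _))⟩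
  have memC0 : ∀ t ∈ Icc a b, (t, γ) ∈ C := fun t htt => ⟨htt, self_subset_cthickening K hγ⟩
  have ha : a ∈ Icc a b := ⟨le_rfl, hab.le⟩
  have hb : b ∈ Icc a b := ⟨hab.le, le_rfl⟩
  let e : ℝ → ℝ × Γ := fun t => (t, ψ γ t)
  have he' : ∀ t ∈ Icc a b, HasDerivWithinAt e (g (e t)).1 (Icc a b) t := fun t htt => by
    have h1 := (hasDerivWithinAt_id t (Icc a b)).prodMk (hψt t htt).1
    refine h1.congr_deriv (Prod.ext ?_ rfl)
    exact (gchar _ (memC t htt)).1.symm
  have hec : ContinuousOn e (Icc a b) := fun t htt => (he' t htt).continuousWithinAt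
  let y : ℝ → Jet n := fun t => φ (ι (e t))
  let z : ℝ → Jet n := fun t => fderiv ℝ (φ ∘ ι) (e t) (g (e t)).1
  let lam : ℝ → ℝ := fun t => (g (e t)).2.1
  let u : ℝ → ℝ := fun t => alpha (y t) (V (y t))
  let l : ℝ → ℝ := fun t => omegaL n (z t) (V (y t)) - lam t * u t
  have yS : ∀ t ∈ Icc a b, y t ∈ φ '' S := fun t htt => ⟨_, hS _ (hCW (memC t htt)), rfl⟩
  have hy' : ∀ t ∈ Icc a b, HasDerivWithinAt y (z t) (Icc a b) t := fun t htt =>
    HasFDerivAt.comp_hasDerivWithinAt (l := φ ∘ ι) (f := e) t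
      ((jat _ (hCW (memC t htt))).differentiableAt (by simp)).hasFDerivAt (he' t htt)
  have hu' : ∀ t ∈ Icc a b, HasDerivWithinAt u (lam t * u t + l t) (Icc a b) t := fun t htt =>
    (hasDeriv_u hP.isOpen hP.contact (hy' t htt) (hP.sub (yS t htt))
      (gchar _ (memC t htt)).2.1).congr_deriv (by simp only [l]; ring)
  have huc : ContinuousOn u (Icc a b) := fun t htt => (hu' t htt).continuousWithinAt
  have hgc : ContinuousOn (fun t => g (e t)) (Icc a b) := fun t htt =>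
    ContinuousAt.comp_continuousWithinAt (f := e) (gat _ (memC t htt)).continuousAt (hec t htt)
  have hlamc : ContinuousOn lam (Icc a b) := hgc.snd.fst
  have hlc : ContinuousOn l (Icc a b) := by
    have h1 : ContinuousOn (fun t => fderiv ℝ (φ ∘ ι) (e t)) (Icc a b) := fun t htt =>
      ContinuousAt.comp_continuousWithinAt (f := e)
        ((jat _ (hCW (memC t htt))).fderiv_right (m := 0) (by norm_cast)).continuousAt (hec t htt)
    have h2 : ContinuousOn (fun t => V (y t)) (Icc a b) :=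
      hP.contact.1.continuousOn.comp (fun t htt => (hy' t htt).continuousWithinAt)
        (fun t htt => hP.sub (yS t htt))
    exact (((omegaL n).continuous.comp_continuousOn (h1.clm_apply hgc.fst)).clm_apply h2).sub
      (hlamc.mul huc)
  have hl0 : ∀ t ∈ Icc a b, l t ≠ 0 := fun t htt =>
    ell_ne_zero hdim (hε1 _ (memC t htt)) (gchar _ (memC t htt)) (by
      rintro ⟨v, hv⟩
      apply hP.trans _ (yS t htt)
      change V (φ (ι (e t))) ∈ _
      rw [← hv]
      exact fderiv_mem_tangentCone (f := φ ∘ ι) (hW.mem_nhds (hCW (memC t htt)))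
        ((jat _ (hCW (memC t htt))).differentiableAt (by simp))
        (fun x hx => mem_image_of_mem φ (hS x hx)) v)
  have ea : e a = (a, γ) := by simp only [e, hψa]
  refine ⟨(ball b hb).trans ((min_le_right _ _).trans (min_le_left _ _)), hCW (memC b hb),
    hε1 _ (memC0 a ha), hε1 _ (memC b hb), ⟨l a, ?_⟩, fun σ hσ => ?_⟩
  · rw [← ea]
    exact ⟨_, _, gchar _ (memC a ha), mul_self_pos.mpr (hl0 a ha)⟩
  have hσa : 0 < σ * l a := by
    obtain ⟨Z, lam', hc, hpos⟩ := hσ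
    have := SS_eq (P₁I _ (memC0 a ha)) hc
    simp only [l, z, lam, u, y, ea, g, this]
    exact hpos
  have hσ0 : σ ≠ 0 := by rintro rfl; simp at hσa
  have hσt := pos_of_ne_zero (f := fun t => σ * l t) (continuousOn_const.mul hlc)
    (fun t htt => mul_ne_zero hσ0 (hl0 t htt)) hσa
  refine ⟨⟨_, _, gchar _ (memC b hb), hσt b hb⟩, ?_⟩
  let lamc : ℝ → ℝ := fun t => lam (projIcc a b hab.le t)
  have hlamcc : Continuous lamc :=
    hlamc.comp_continuous (continuous_subtype_val.comp continuous_projIcc)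
      (fun t => (projIcc a b hab.le t).2)
  have hlameq : ∀ t ∈ Icc a b, lamc t = lam t := fun t htt => by
    simp only [lamc, projIcc_of_mem hab.le htt]
  let Λ : ℝ → ℝ := fun t => ∫ s in a..t, lamc s
  have hΛ : ∀ t ∈ Icc a b, HasDerivWithinAt Λ (lam t) (Icc a b) t := fun t htt => by
    rw [← hlameq t htt]
    exact (hlamcc.integral_hasStrictDerivAt a t).hasDerivAt.hasDerivWithinAt
  have hΛa : Λ a = 0 := intervalIntegral.integral_same
  refine ⟨Λ b, ?_, ?_⟩
  · have hF' : ∀ t ∈ Icc a b, HasDerivWithinAt (fun t => F (t, γ)) (lam₀ (t, γ)) (Icc a b) t :=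
      fun t htt =>
        ((Fat _ (hCW (memC0 t htt))).differentiableAt (by simp)).hasFDerivAt.comp_hasDerivWithinAt t
          ((hasDerivWithinAt_id t _).prodMk (hasDerivWithinAt_const t _ γ))
    have hG : ∀ t ∈ Icc a b, HasDerivWithinAt (fun t => Λ t - F (t, γ) + η * t)
        (lam t - lam₀ (t, γ) + η) (Icc a b) t := fun t htt =>
      (((hΛ t htt).sub (hF' t htt)).add
        ((hasDerivWithinAt_id t _).const_mul η)).congr_deriv (by simp)
    have mono := monotoneOn_of_hasDerivWithinAt_nonneg (convex_Icc a b)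
      (fun t htt => (hG t htt).continuousWithinAt)
      (fun t htt => (hG t (interior_subset htt)).mono interior_subset) (fun t htt => by
        have htt' := interior_subset htt
        have h1 := gnear _ (memC t htt')
        rw [Prod.dist_eq, Prod.dist_eq (x := (g _).2)] at h1
        have h2 : dist (lam t) (lam₀ (e t)) ≤ η / 2 :=
          ((le_max_left _ _).trans ((le_max_right _ _).trans h1)).trans (min_le_left _ _)
        have h3 : dist (lam₀ (e t)) (lam₀ (t, γ)) ≤ η / 2 := hlam _ (memC0 t htt') _ (by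
          rw [Prod.dist_eq, dist_self]
          exact max_le hr₁.le ((ball t htt').trans ((min_le_right _ _).trans (min_le_right _ _))))
        rw [Real.dist_eq, abs_le] at h2 h3
        linarith [h2.1, h3.1])
    have h1 := mono ha hb hab.le
    simp only [hΛa] at h1
    have h2 : η * (b - a + 1) = δ := div_mul_cancel₀ _ (by linarith)
    nlinarith
  · have hw : ∀ t ∈ Icc a b, HasDerivWithinAt (fun t => σ * (u t * Real.exp (-Λ t)))
        (σ * l t * Real.exp (-Λ t)) (Icc a b) t := fun t htt =>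
      (((hu' t htt).mul (hΛ t htt).neg.exp).const_mul σ).congr_deriv (by simp; ring)
    have mono := strictMonoOn_of_hasDerivWithinAt_pos (convex_Icc a b)
      (fun t htt => (hw t htt).continuousWithinAt)
      (fun t htt => (hw t (interior_subset htt)).mono interior_subset)
      (fun t htt => mul_pos (hσt t (interior_subset htt)) (Real.exp_pos _))
    have h1 := mono ha hb hab
    simp only [hΛa, neg_zero, Real.exp_zero, mul_one] at h1
    have h2 : u a = alpha (φ (ι (a, γ))) (V (φ (ι (a, γ)))) := by simp only [u, y, ea]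
    rw [← h2]
    change 0 < σ * (u b - Real.exp (Λ b) * u a)
    have h3 : σ * (u b - Real.exp (Λ b) * u a) =
        Real.exp (Λ b) * (σ * (u b * Real.exp (-Λ b)) - σ * u a) := by
      rw [Real.exp_neg]; field_simp
    rw [h3]
    exact mul_pos (Real.exp_pos _) (by linarith)

end Pool.Agent.Lib.MP_2d5ab3_gt
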